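import Pool.Agent.Lib.MP_f80667_ag.Pl.Dm
import Pool.Agent.Lib.MP_f80667_ag.Lv.Tu
import Pool.Agent.Lib.MP_f80667_ag.Lv.D

/-! Local fields: change of the base field. -/

open ZC BE PE CV IntermediateField

namespace GX

section xt

variable {K Ω : Type} [Field K] [Field Ω] [Algebra K Ω]

private theorem xt_fin {M : IntermediateField K Ω} [FiniteDimensional K M]
    (E : IntermediateField M Ω) (hE : FiniteDimensional M E) :
    FiniteDimensional K (E.restrictScalars K) := by
  have h1 : FiniteDimensional K E := FiniteDimensional.trans K M E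
  exact h1

/-- The absolute value over a finite extension. -/
def xt (L : Ld K Ω) (M : IntermediateField K Ω) [FiniteDimensional K M] : Ld M Ω where
  nm := L.nm
  nonneg := L.nonneg
  zero_iff := L.zero_iff
  mul := L.mul
  add := L.add
  act γ x := L.act (γ.restrictScalars K) x
  hens E hE f hf h x hx h1 h2 h3 :=
    L.hens (E.restrictScalars K) (xt_fin E hE) f hf h x hx h1 h2 h3
  unif E hE := L.unif (E.restrictScalars K) (xt_fin E hE)
  fin E hE := L.fin (E.restrictScalars K) (xt_fin E hE)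
  p := L.p
  pp := L.pp
  lt := L.lt
  cpl E hE := L.cpl (E.restrictScalars K) (xt_fin E hE)

variable (L : Ld K Ω) (M : IntermediateField K Ω) [FiniteDimensional K M]

theorem xt_nm (x : Ω) : (xt L M).nm x = L.nm x := rfl

theorem xt_p : (xt L M).p = L.p := rfl

theorem xt_V : (xt L M).V = L.V := by
  ext x
  exact Iff.rfl

/-- `p` is a power of the uniformizer. -/
theorem Uf.pow {L : Ld K Ω} {π : Ω} [CharZero K] (h : Uf L π) :
    ∃ e, e ≠ 0 ∧ L.nm (L.p : Ω) = L.nm π ^ e := by
  obtain ⟨n, hn⟩ := h.val (L.p : K) (Nat.cast_ne_zero.2 L.pp.ne_zero)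
  rw [map_natCast] at hn
  have h1 : 0 < n := by
    by_contra h2
    rw [not_lt] at h2
    have h3 := one_le_zpow_of_nonpos₀ h.pos h.lt.le h2
    rw [← hn] at h3
    exact absurd L.lt (not_lt.2 h3)
  obtain ⟨e, rfl⟩ := Int.eq_ofNat_of_zero_le h1.le
  refine ⟨e, ?_, ?_⟩
  · rintro rfl
    exact absurd h1 (lt_irrefl 0)
  · rw [hn, zpow_natCast]

end xt

section dn

variable {K Ω : Type} [Field K] [CharZero K] [Field Ω] [CharZero Ω] [Algebra K Ω]
  [IsAlgClosure K Ω] {L : Ld K Ω}

/-- Density over a finite extension. -/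
theorem xt_dn (h : PL.DnK L) (M : IntermediateField K Ω) [FiniteDimensional K M] :
    PL.DnK (xt L M) := by
  intro x ε hε
  obtain ⟨y, hyM, hy, hyx⟩ := PL.dm_ex h (inferInstance : FiniteDimensional K M) x.2 hε
  refine ⟨⟨y, hyM⟩, ?_, hyx⟩
  exact (isAlgebraic_algebraMap_iff (R := ℚ) (A := Ω) (S := M) (algebraMap M Ω).injective).1 hy

end dn

end GX
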