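import Pool.Agent.Lib.MP_f80667_ag.Gx.Dt

/-! Projections over a larger field: change of the base field of the equations. -/

open ZC BE PE CV IntermediateField

namespace GX

variable {F M Ω : Type} [Field F] [Field M] [Field Ω] [Algebra F M] [Algebra M Ω] [Algebra F Ω]
  [IsScalarTower F M Ω] {N d m : ℕ} {ι : Type} {f : ι → MvPolynomial (Fin N) F}

/-- Proof: fieldwise: `MvPolynomial.aeval_map_algebraMap`, `MvPolynomial.map_map`, `IsScalarTower.algebraMap_eq`. -/
theorem pj_base {L : Ld M Ω} {ψ : Prj M N d} (hom : ∀ i, ∃ e, (f i).IsHomogeneous e)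
    (h : Pj (fun i => MvPolynomial.map (algebraMap F M) (f i)) L ψ) : Pj f L ψ := by
  have e : ∀ (x : Fin N → Ω) i, MvPolynomial.aeval x (MvPolynomial.map (algebraMap F M) (f i)) =
      MvPolynomial.aeval x (f i) := fun x i => MvPolynomial.aeval_map_algebraMap M x (f i)
  refine ⟨h.iu, h.iy, h.iG, h.iD, h.iA, hom, h.mon, h.homG, h.homD, h.bez, ?_, ?_, h.inu, h.iny,
    ?_, ?_⟩
  · intro x hx h0
    exact h.onX x hx fun i => (e x i).trans (h0 i)
  · obtain ⟨s, hs⟩ := h.inX
    refine ⟨s, fun i => ?_⟩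
    have h1 := hs i
    rw [MvPolynomial.aeval_map_algebraMap] at h1
    exact h1
  · have h1 := h.ok
    have e2 : (fun i => MvPolynomial.map (algebraMap M Ω)
        (MvPolynomial.map (algebraMap F M) (f i))) =
        fun i => MvPolynomial.map (algebraMap F Ω) (f i) := funext fun i => by
      rw [MvPolynomial.map_map, ← IsScalarTower.algebraMap_eq F M Ω]
    rw [e2] at h1
    exact h1
  · intro x hx hk h0
    exact h.onR x hx hk fun i => by
      rw [e x i]
      exact h0 i

theorem cvr_base {L : Ld M Ω} {ψ : Fin m → Prj M N d}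
    (h : Cvr (fun i => MvPolynomial.map (algebraMap F M) (f i)) L ψ) : Cvr f L ψ := by
  intro x hx hk h0
  refine h x hx hk fun i => ?_
  have e : MvPolynomial.aeval x (MvPolynomial.map (algebraMap F M) (f i)) =
      MvPolynomial.aeval x (f i) := MvPolynomial.aeval_map_algebraMap M x (f i)
  rw [e]
  exact h0 i

private theorem prj_map_id (ψ : Prj M N d) : ψ.map (algebraMap M M) = ψ := by
  have e : (MvPolynomial.map (algebraMap M M) : MvPolynomial (Fin (d + 1)) M →+* _) =
      RingHom.id _ := RingHom.ext fun p => MvPolynomial.map_id p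
  obtain ⟨u, y, G, D, A⟩ := ψ
  unfold Prj.map
  rw [e]
  simp only [Polynomial.map_id]
  rfl

/-- Proof: `Dat.pj`, `Dat.cvr` with `K = M` (`(ψ i).map (algebraMap M M) = ψ i`), `pj_base`, `cvr_base`; `L.V = V`. -/
theorem Dat.pj_of [CharZero M] [IsAlgClosure M Ω] {V : ValuationSubring Ω} {ψ : Fin m → Prj M N d}
    {f₀ : ι → MvPolynomial (Fin N) (V.comap (algebraMap M Ω))}
    {ψ₀ : Fin m → Prj (V.comap (algebraMap M Ω)) N d} (hom : ∀ i, ∃ e, (f i).IsHomogeneous e)
    (h : Dat V (fun i => MvPolynomial.map (algebraMap F M) (f i)) ψ f₀ ψ₀) (L : Ld M Ω)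
    (hL : L.V = V) : (∀ i, Pj f L (ψ i)) ∧ Cvr f L ψ := by
  subst hL
  constructor
  · intro i
    have h1 := h.pj (K := M) i
    rw [prj_map_id] at h1
    exact pj_base hom h1
  · have h1 := h.cvr (K := M)
    have e : (fun i => (ψ i).map (algebraMap M M)) = ψ := funext fun i => prj_map_id (ψ i)
    rw [e] at h1
    exact cvr_base h1

end GX
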