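import Pool.Agent.Lib.MP_f80667_ag.Ng.P

/-! The residue field is infinite. -/

open ZC BE PE CV IntermediateField

namespace GX

variable {K Ω : Type} [Field K] [Field Ω] [Algebra K Ω] [CharZero K] [IsAlgClosure K Ω]
  {L : Ld K Ω} {r l : ℕ} {π : Ω}

omit [CharZero K] [IsAlgClosure K Ω] in
private theorem rlrk_ker [IsDiscreteValuationRing (Rl L r l)] (x : Rl L r l) :
    algebraMap (Rl L r l) L.κ x = 0 ↔ x ∈ IsLocalRing.maximalIdeal (Rl L r l) := by
  have h0 : algebraMap (Rl L r l) L.κ x = 0 ↔ L.nm (x : Ω) < 1 := by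
    rw [← L.hv_zero]
    constructor
    · intro h
      have h1 := rdl_hv x
      rwa [h] at h1
    · intro h
      exact (rdl_hv x).uniq h
  rw [h0, IsLocalRing.mem_maximalIdeal, mem_nonunits_iff]
  constructor
  · rintro h ⟨u, hu⟩
    have h1 : (x : Ω) * ((u⁻¹ : (Rl L r l)ˣ) : Rl L r l).1 = 1 := by
      have h4 := congrArg Subtype.val (Units.mul_inv u)
      rw [hu] at h4
      exact h4
    have h2 := congrArg L.nm h1
    rw [L.mul, L.one] at h2
    have h3 : L.nm ((u⁻¹ : (Rl L r l)ˣ) : Rl L r l).1 ≤ 1 := ((u⁻¹ : (Rl L r l)ˣ) : Rl L r l).2.1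
    exact absurd h2 (mul_lt_one_of_nonneg_of_lt_one_left (L.nonneg _) h h3).ne
  · intro h
    refine lt_of_le_of_ne x.2.1 fun he => h ?_
    have hx : (x : Ω) ≠ 0 := L.ne_zero (by rw [he]; exact zero_lt_one)
    obtain ⟨a, ha⟩ := x.2.2
    have h3 : (x : Ω)⁻¹ ∈ Rl L r l := by
      refine ⟨?_, a, inv_mem ha⟩
      rw [L.inv, he, inv_one]
    exact IsUnit.of_mul_eq_one (⟨(x : Ω)⁻¹, h3⟩ : Rl L r l) (Subtype.ext (mul_inv_cancel₀ hx))

private theorem rlrk_inf (hr : r ≠ 0) (hl : 2 ≤ l) :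
    (Set.range (algebraMap (Rl L r l) L.κ)).Infinite := by
  intro hfin
  have ha : IsAlgClosed Ω := IsAlgClosure.isAlgClosed K
  have hc : CharZero Ω := charZero_of_injective_algebraMap (algebraMap K Ω).injective
  obtain ⟨m, hm⟩ : ∃ m, m = hfin.toFinset.card := ⟨_, rfl⟩
  have hN0 : r * l ^ (m + 1) ≠ 0 := Nat.mul_ne_zero hr (pow_ne_zero _ (by omega))
  have hN : m + 1 ≤ r * l ^ (m + 1) := by
    have h1 : m + 1 < l ^ (m + 1) := Nat.lt_pow_self (by omega)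
    exact h1.le.trans (Nat.le_mul_of_pos_left _ (Nat.pos_of_ne_zero hr))
  obtain ⟨N, hNd⟩ : ∃ N, N = r * l ^ (m + 1) := ⟨_, rfl⟩
  rw [← hNd] at hN0 hN
  have hq : N < L.p ^ N := Nat.lt_pow_self L.pp.one_lt
  have hne : NeZero ((L.p ^ N - 1 : ℕ) : Ω) := ⟨Nat.cast_ne_zero.2 (by omega)⟩
  obtain ⟨z, hz⟩ := HasEnoughRootsOfUnity.exists_primitiveRoot Ω (L.p ^ N - 1)
  have hzt : ∀ i : ℕ, z ^ i ∈ L.Te N := by
    intro i
    change (z ^ i) ^ L.p ^ N = z ^ i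
    have h3 : L.p ^ N = (L.p ^ N - 1) + 1 := by omega
    rw [h3, pow_succ, ← pow_mul, mul_comm i, pow_mul, hz.pow_eq_one, one_pow, one_mul]
  have hzR : ∀ i : ℕ, z ^ i ∈ Rl L r l := fun i =>
    ⟨Ld.te_int hN0 (hzt i), m + 1, by rw [← hNd]; exact Ld.te_ur (hzt i)⟩
  have hinj : Set.InjOn (fun i : ℕ => algebraMap (Rl L r l) L.κ ⟨z ^ i, hzR i⟩)
      (Finset.range (L.p ^ N - 1) : Finset ℕ) := by
    intro i hi j hj hij
    have h1 : L.nm (z ^ i - z ^ j) < 1 :=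
      (L.hv_sub (rdl_hv ⟨z ^ i, hzR i⟩) (rdl_hv ⟨z ^ j, hzR j⟩)).1 hij
    exact hz.pow_inj (Finset.mem_range.1 hi) (Finset.mem_range.1 hj)
      (Ld.te_inj hN0 (hzt i) (hzt j) h1)
  have hcard := Finset.card_le_card_of_injOn
    (fun i : ℕ => algebraMap (Rl L r l) L.κ ⟨z ^ i, hzR i⟩) (s := Finset.range (L.p ^ N - 1))
    (t := hfin.toFinset) (fun i _ => by
      rw [Finset.mem_coe, Set.Finite.mem_toFinset]
      exact ⟨_, rfl⟩) hinj
  rw [Finset.card_range, ← hm] at hcard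
  omega

private theorem rlrk_int : Algebra.IsIntegral (Rl L r l) L.κ := by
  refine ⟨fun ρ => ?_⟩
  obtain ⟨x, hx⟩ := L.hv_surj ρ
  obtain ⟨N, hN, z, hz, hxz⟩ := Ld.te_rep (L := L) (L.hv_int hx)
  obtain ⟨σ, hσ⟩ := L.hv_of (Ld.te_int hN hz)
  have h1 : ρ = σ := (L.hv_sub hx hσ).2 hxz
  subst h1
  have h2 : L.rs.Hv (z ^ L.p ^ N) (ρ ^ L.p ^ N) := hσ.pow _
  rw [show z ^ L.p ^ N = z from hz] at h2
  have h3 : ρ ^ L.p ^ N = ρ := (h2.uniq hσ)
  by_cases h0 : ρ = 0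
  · rw [h0]
    exact isIntegral_zero
  · have hq : 1 < L.p ^ N := Nat.one_lt_pow hN L.pp.one_lt
    have h4 : ρ ^ (L.p ^ N - 1) = 1 := by
      have h5 : L.p ^ N = (L.p ^ N - 1) + 1 := by omega
      rw [h5, pow_succ] at h3
      exact mul_right_cancel₀ h0 (by rw [h3, one_mul])
    refine IsIntegral.of_pow (n := L.p ^ N - 1) (by omega) ?_
    rw [h4]
    exact isIntegral_one

/-- Proof: `ker`: `Ld.hv_zero`, an element of norm `1` is a unit. `inf`: the elements of `Te (r l ^ a)` have different residues (`Ld.te_inj`) and are `p ^ (r l ^ a)` many (the roots of a separable polynomial over the algebraically closed field `Ω`; there is a primitive root of unity of order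
`p ^ (r l ^ a) - 1`). `int`: every residue is the residue of an element `z` with `z ^ (p ^ N) = z` (`Ld.te_rep`), so it is integral. -/
theorem rl_rk [IsDiscreteValuationRing (Rl L r l)] (hr : r ≠ 0) (hl : 2 ≤ l) :
    Rk (Rl L r l) L.κ :=
  ⟨rlrk_ker, rlrk_inf hr hl, rlrk_int⟩

end GX
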