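import Pool.Agent.Lib.MP_f80667_ag.Ng.Pc

/-! The model over the infinite unramified extension. -/

open ZC BE PE CV IntermediateField

namespace GX

variable {K Ω : Type} [Field K] [Field Ω] [Algebra K Ω] [CharZero K] [IsAlgClosure K Ω]
  {L : Ld K Ω} {r l : ℕ} {π : Ω} {F : Type} [Field F] [Algebra F K] [Algebra F Ω]
  [IsScalarTower F K Ω] {N d : ℕ} {ι : Type} {f : ι → MvPolynomial (Fin N) F}

/-- The homomorphism from the valuation ring of `F`. Proof: the image of `F` is in `⊥`. -/
def iRl (L : Ld K Ω) (r l : ℕ) (F : Type) [Field F] [Algebra F K] [Algebra F Ω]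
    [IsScalarTower F K Ω] : (L.V.comap (algebraMap F Ω)) →+* Rl L r l where
  toFun x := ⟨algebraMap F Ω x, x.2, 0, by
    rw [IsScalarTower.algebraMap_apply F K Ω]
    exact IntermediateField.algebraMap_mem _ _⟩
  map_one' := Subtype.ext (map_one (algebraMap F Ω))
  map_mul' _ _ := Subtype.ext (map_mul (algebraMap F Ω) _ _)
  map_zero' := Subtype.ext (map_zero (algebraMap F Ω))
  map_add' _ _ := Subtype.ext (map_add (algebraMap F Ω) _ _)

/-- Proof: `g i = map (iRl L r l F) (f₀ i)`; `red`: `rdl` after `iRl` is `rdO`; `trd`: `trd_up` with `R = Rl L r l` (`hc`: a power of `π` times an element of `K` is integral: but `c` must be in `F`: `c = x⁻¹` if `x ≠ 0` is not integral, `c = 1` otherwise). -/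
theorem Gdv.gdr (h : Gdv L.V f d) : ∃ g : ι → MvPolynomial (Fin N) (Rl L r l),
    (∀ i, MvPolynomial.map (Rl L r l).subtype (g i) =
      MvPolynomial.map (algebraMap F Ω) (f i)) ∧ Gdr L.κ g d := by
  obtain ⟨f₀, hf₀, hred⟩ := h.red
  have hcomp : (Rl L r l).subtype.comp (iRl L r l F) =
      (algebraMap F Ω).comp (L.V.comap (algebraMap F Ω)).subtype := RingHom.ext fun _ => rfl
  have hg : ∀ i, MvPolynomial.map (Rl L r l).subtype (MvPolynomial.map (iRl L r l F) (f₀ i)) =
      MvPolynomial.map (algebraMap F Ω) (f i) := fun i => by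
    rw [← hf₀ i, MvPolynomial.map_map, MvPolynomial.map_map, hcomp]
  have hmem : ∀ y : F, L.nm (algebraMap F Ω y) ≤ 1 → algebraMap F Ω y ∈ Rl L r l := fun y hy =>
    (iRl L r l F ⟨y, hy⟩).2
  refine ⟨fun i => MvPolynomial.map (iRl L r l F) (f₀ i), hg, ?_, ?_, ?_⟩
  · intro i
    obtain ⟨e, he⟩ := h.hom i
    refine ⟨e, fun m hm => he fun h0 => hm ?_⟩
    rw [← hf₀ i, MvPolynomial.coeff_map] at h0
    have h1 : MvPolynomial.coeff m (f₀ i) = 0 := Subtype.ext h0
    rw [MvPolynomial.coeff_map, h1, map_zero]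
  · refine trd_up hg (fun x => ?_) h.dim
    by_cases hx : L.nm (algebraMap F Ω x) ≤ 1
    · refine ⟨1, one_ne_zero, ?_, ?_⟩
      · rw [map_one]
        exact one_mem _
      · rw [one_mul]
        exact hmem x hx
    · have hx0 : x ≠ 0 := by
        rintro rfl
        rw [map_zero, L.zero] at hx
        exact hx zero_le_one
      refine ⟨x⁻¹, inv_ne_zero hx0, ?_, ?_⟩
      · refine hmem _ ?_
        have h2 : algebraMap F Ω x * algebraMap F Ω x⁻¹ = 1 := by
          rw [← map_mul, mul_inv_cancel₀ hx0, map_one]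
        have h3 : L.nm (algebraMap F Ω x) * L.nm (algebraMap F Ω x⁻¹) = 1 := by
          rw [← L.mul, h2, L.one]
        by_contra h4
        rw [not_le] at hx h4
        exact absurd h3 (one_lt_mul_of_lt_of_le hx h4.le).ne'
      · rw [inv_mul_cancel₀ hx0, map_one]
        exact one_mem _
  · have h5 : fr L.κ (fun i => MvPolynomial.map (iRl L r l F) (f₀ i)) =
        fun i => MvPolynomial.map (rdO F L.V) (f₀ i) := funext fun i => by
      change MvPolynomial.map (algebraMap (Rl L r l) L.κ)
        (MvPolynomial.map (iRl L r l F) (f₀ i)) = _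
      rw [MvPolynomial.map_map]
      rfl
    rw [h5]
    exact hred

end GX
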