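import Pool.Agent.Lib.MP_f80667_ag.Ng.Q

/-! Descent of projections to a subring of a directed union. -/

open MvPolynomial

namespace GX

variable {S : Type} [CommRing S] {T : ℕ → Subring S} {N d m : ℕ} {ι : Type}

private theorem qb_inj (b : ℕ) {σ : Type} :
    Function.Injective (map (T b).subtype : MvPolynomial σ (T b) →+* MvPolynomial σ S) :=
  map_injective _ Subtype.coe_injective

private theorem qb_hom {b : ℕ} {σ : Type} {p : MvPolynomial σ (T b)} {n : ℕ}
    (h : (map (T b).subtype p).IsHomogeneous n) : p.IsHomogeneous n := by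
  intro e he
  refine h ?_
  rw [coeff_map]
  intro h0
  exact he (Subtype.coe_injective h0)

private theorem qb_aeval {R R' : Type} [CommRing R] [CommRing R'] (φ : R →+* R')
    (A : Fin N → Polynomial (MvPolynomial (Fin (d + 1)) R)) (F : MvPolynomial (Fin N) R) :
    (aeval A F).map (MvPolynomial.map φ) =
      aeval (fun j => (A j).map (MvPolynomial.map φ)) (MvPolynomial.map φ F) := by
  have h : (Polynomial.mapRingHom (MvPolynomial.map φ)).comp
        (aeval A : MvPolynomial (Fin N) R →ₐ[R]
          Polynomial (MvPolynomial (Fin (d + 1)) R)).toRingHom =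
      (aeval (fun j => (A j).map (MvPolynomial.map φ)) : MvPolynomial (Fin N) R' →ₐ[R']
          Polynomial (MvPolynomial (Fin (d + 1)) R')).toRingHom.comp (MvPolynomial.map φ) := by
    apply MvPolynomial.ringHom_ext
    · intro a
      change (aeval A (C a)).map (MvPolynomial.map φ) = aeval _ (MvPolynomial.map φ (C a))
      rw [MvPolynomial.map_C, MvPolynomial.aeval_C, MvPolynomial.aeval_C,
        Polynomial.algebraMap_apply, Polynomial.algebraMap_apply, Polynomial.map_C,
        MvPolynomial.algebraMap_eq, MvPolynomial.algebraMap_eq, MvPolynomial.map_C]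
    · intro j
      change (aeval A (X j)).map (MvPolynomial.map φ) = aeval _ (MvPolynomial.map φ (X j))
      rw [MvPolynomial.map_X, MvPolynomial.aeval_X, MvPolynomial.aeval_X]
  exact DFunLike.congr_fun h F

private theorem qb_ev {P : ℕ → Prop} (h : ∃ a, ∀ b, a ≤ b → P b) :
    ∀ᶠ b in Filter.atTop, P b := Filter.eventually_atTop.2 h

/-- **Descent of one projection.** Proof: `dir_prj`; `mon`, `homG`, `homD`: the maps are injective on coefficients; `bez`: `dir_pl` for `B`, `B'`; `onG`, `onA`: `dir_mem` (finitely many `k`, `j`); `inX`, `inu`, `iny`: divisibility by the monic polynomial `G` descends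
(`Polynomial.map_dvd_map` for monic polynomials and injective homomorphisms, or `Polynomial.modByMonic`). -/
theorem dir_ok (hT : Monotone T) (hU : ∀ x, ∃ a, x ∈ T a)
    {f : ∀ b, ι → MvPolynomial (Fin N) (T b)} {f' : ι → MvPolynomial (Fin N) S}
    (hf : ∀ b i, map (T b).subtype (f b i) = f' i) {ψ : Prj S N d} (h : ψ.Ok f') :
    ∃ a, ∀ b, a ≤ b → ∀ ψ' : Prj (T b) N d, ψ'.map (T b).subtype = ψ → ψ'.Ok (f b) := by
  obtain ⟨B, B', hB⟩ := h.bez
  obtain ⟨s, hs⟩ := h.onG
  obtain ⟨t, ht⟩ := h.onA
  have h1 := qb_ev (dir_pl hT hU B)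
  have h2 := qb_ev (dir_pl hT hU B')
  have h3 : ∀ᶠ b in Filter.atTop, ∀ k, ∀ q : MvPolynomial (Fin N) (T b),
      map (T b).subtype q = X k ^ s * ψ.cp ψ.G → q ∈ Ideal.span (Set.range (f b)) := by
    refine Filter.eventually_all.2 fun k => ?_
    obtain ⟨a, ha⟩ := dir_mem hT hU (a₀ := 0) (fun b _ i => hf b i) (hs k)
    exact qb_ev ⟨a, fun b hb => ha b hb (Nat.zero_le _)⟩
  have h4 : ∀ᶠ b in Filter.atTop, ∀ k j, ∀ q : MvPolynomial (Fin N) (T b),
      map (T b).subtype q = X k ^ t * (ψ.cp (ψ.A j) - ψ.cp (Polynomial.C ψ.D) * X j) →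
        q ∈ Ideal.span (Set.range (f b)) := by
    refine Filter.eventually_all.2 fun k => Filter.eventually_all.2 fun j => ?_
    obtain ⟨a, ha⟩ := dir_mem hT hU (a₀ := 0) (fun b _ i => hf b i) (ht k j)
    exact qb_ev ⟨a, fun b hb => ha b hb (Nat.zero_le _)⟩
  have h5 : ∀ᶠ b in Filter.atTop, ∀ ψ' : Prj (T b) N d, ψ'.map (T b).subtype = ψ →
      ψ'.Ok (f b) := by
    filter_upwards [h1, h2, h3, h4] with b h1 h2 h3 h4 ψ' hψ
    obtain ⟨Q, hQ⟩ := h1
    obtain ⟨Q', hQ'⟩ := h2
    have hinj := Polynomial.map_injective (map (T b).subtype) (qb_inj (σ := Fin (d + 1)) b)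
    have hG : ψ.G = ψ'.G.map (map (T b).subtype) := by rw [← hψ]; rfl
    have hD : ψ.D = map (T b).subtype ψ'.D := by rw [← hψ]; rfl
    have hA : ∀ j, ψ.A j = (ψ'.A j).map (map (T b).subtype) := fun j => by rw [← hψ]; rfl
    have hu : ∀ r j, ψ.u r j = (T b).subtype (ψ'.u r j) := fun r j => by rw [← hψ]; rfl
    have hy : ∀ j, ψ.y j = (T b).subtype (ψ'.y j) := fun j => by rw [← hψ]; rfl
    have hcp : ∀ P, ψ.cp (P.map (map (T b).subtype)) = map (T b).subtype (ψ'.cp P) := by
      intro P
      rw [← cp_map, hψ]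
    have hmon : ψ'.G.Monic :=
      ((qb_inj (σ := Fin (d + 1)) b).monic_map_iff).2 (hG ▸ h.mon)
    exact
      { mon := hmon
        homG := fun j => by
          refine qb_hom ?_
          have h6 := h.homG j
          rw [hG, Polynomial.natDegree_map_eq_of_injective (qb_inj b), Polynomial.coeff_map]
            at h6
          exact h6
        homD := by
          obtain ⟨e, he, h6⟩ := h.homD
          rw [hD] at h6
          exact ⟨e, he, qb_hom h6⟩
        bez := by
          refine ⟨Q, Q', hinj ?_⟩
          rw [Polynomial.map_add, Polynomial.map_mul, Polynomial.map_mul, Polynomial.map_C,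
            ← Polynomial.derivative_map, hQ, hQ', ← hG, ← hD]
          exact hB
        onG := by
          refine ⟨s, fun k => h3 k _ ?_⟩
          rw [map_mul, map_pow, map_X, ← hcp, ← hG]
        onA := by
          refine ⟨t, fun k j => h4 k j _ ?_⟩
          rw [map_mul, map_pow, map_X, map_sub, map_mul, map_X, ← hcp, ← hcp,
            Polynomial.map_C, ← hD, ← hA]
        inX := by
          obtain ⟨e, h6⟩ := h.inX
          refine ⟨e, fun i => ?_⟩
          rw [← Polynomial.map_dvd_map _ (qb_inj b) hmon, Polynomial.map_mul,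
            Polynomial.map_C, map_pow, qb_aeval, ← hG, ← hD, hf b i]
          have h7 : (fun j => (ψ'.A j).map (map (T b).subtype)) = ψ.A :=
            funext fun j => (hA j).symm
          rw [h7]
          exact h6 i
        inu := by
          intro r
          have h6 := h.inu r
          rw [← Polynomial.map_dvd_map _ (qb_inj b) hmon, Polynomial.map_sub,
            Polynomial.map_sum, Polynomial.map_C, map_mul, map_X, ← hG, ← hD]
          have h7 : ∀ j, Polynomial.map (map (T b).subtype)
              (Polynomial.C (C (ψ'.u r j)) * ψ'.A j) =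
                Polynomial.C (C (ψ.u r j)) * ψ.A j := by
            intro j
            rw [Polynomial.map_mul, Polynomial.map_C, map_C, hu, hA]
          rw [Finset.sum_congr rfl fun j _ => h7 j]
          exact h6
        iny := by
          have h6 := h.iny
          rw [← Polynomial.map_dvd_map _ (qb_inj b) hmon, Polynomial.map_sub,
            Polynomial.map_sum, Polynomial.map_mul, Polynomial.map_C, Polynomial.map_X, ← hG,
            ← hD]
          have h7 : ∀ j, Polynomial.map (map (T b).subtype)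
              (Polynomial.C (C (ψ'.y j)) * ψ'.A j) =
                Polynomial.C (C (ψ.y j)) * ψ.A j := by
            intro j
            rw [Polynomial.map_mul, Polynomial.map_C, map_C, hy, hA]
          rw [Finset.sum_congr rfl fun j _ => h7 j]
          exact h6 }
  exact Filter.eventually_atTop.1 h5

/-- **Descent of the covering.** Proof: `dir_mem` for the family `Sum.elim f ..`: the generators `(ψ i).cp (C D)` over `T b` map to those over `S` (`Prj.map_cp` or the definition). -/
theorem dir_cov (hT : Monotone T) (hU : ∀ x, ∃ a, x ∈ T a)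
    {f : ∀ b, ι → MvPolynomial (Fin N) (T b)} {f' : ι → MvPolynomial (Fin N) S}
    (hf : ∀ b i, map (T b).subtype (f b i) = f' i) {ψ : Fin m → Prj S N d} (h : Cov f' ψ) :
    ∃ a, ∀ b, a ≤ b → ∀ ψ' : Fin m → Prj (T b) N d, (∀ i, (ψ' i).map (T b).subtype = ψ i) →
      Cov (f b) ψ' := by
  obtain ⟨s, hs⟩ := h
  have h0 : ∀ᶠ b in Filter.atTop, ∀ i, ∃ ψ' : Prj (T b) N d, ψ'.map (T b).subtype = ψ i :=
    Filter.eventually_all.2 fun i => qb_ev (dir_prj hT hU (ψ i))
  obtain ⟨a₀, ha₀⟩ := Filter.eventually_atTop.1 h0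
  have hg0 : ∀ b, ∃ g : Fin m → MvPolynomial (Fin N) (T b), a₀ ≤ b →
      ∀ i, map (T b).subtype (g i) = (ψ i).cp (Polynomial.C (ψ i).D) := by
    intro b
    by_cases hb : a₀ ≤ b
    · choose ψ' hψ' using ha₀ b hb
      refine ⟨fun i => (ψ' i).cp (Polynomial.C (ψ' i).D), fun _ i => ?_⟩
      rw [← cp_map, Polynomial.map_C, hψ' i]
      have h1 : map (T b).subtype (ψ' i).D = (ψ i).D := by rw [← hψ' i]; rfl
      rw [h1]
    · exact ⟨fun _ => 0, fun h => absurd h hb⟩
  choose g hg using hg0
  have h1 : ∀ᶠ b in Filter.atTop, ∀ k, X k ^ s ∈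
      Ideal.span (Set.range (Sum.elim (f b) (g b))) := by
    refine Filter.eventually_all.2 fun k => ?_
    have h2 : (X k ^ s : MvPolynomial (Fin N) S) ∈ Ideal.span (Set.range
        (Sum.elim f' fun i => (ψ i).cp (Polynomial.C (ψ i).D))) := by
      rw [Set.Sum.elim_range, Ideal.span_union]
      exact hs k
    obtain ⟨a, ha⟩ := dir_mem hT hU (a₀ := a₀) (g := fun b => Sum.elim (f b) (g b))
      (fun b hb i => by
        rcases i with i | i
        · exact hf b i
        · exact hg b hb i) h2
    refine qb_ev ⟨max a a₀, fun b hb => ?_⟩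
    refine ha b ((le_max_left _ _).trans hb) ((le_max_right _ _).trans hb) _ ?_
    rw [map_pow, map_X]
  have h3 : ∀ᶠ b in Filter.atTop, ∀ ψ' : Fin m → Prj (T b) N d,
      (∀ i, (ψ' i).map (T b).subtype = ψ i) → Cov (f b) ψ' := by
    filter_upwards [h1, Filter.eventually_ge_atTop a₀] with b h1 hb ψ' hψ'
    refine ⟨s, fun k => ?_⟩
    have h4 : (fun i => (ψ' i).cp (Polynomial.C (ψ' i).D)) = g b := by
      funext i
      refine qb_inj b ?_
      rw [hg b hb i, ← cp_map, Polynomial.map_C, hψ' i]
      have h5 : map (T b).subtype (ψ' i).D = (ψ i).D := by rw [← hψ' i]; rfl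
      rw [h5]
    rw [h4, ← Ideal.span_union, ← Set.Sum.elim_range]
    exact h1 k
  exact Filter.eventually_atTop.1 h3

end GX
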