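import Pool.Agent.Lib.MP_f80667_ag.Ng.S
import Pool.Agent.Lib.MP_f80667_ag.Ng.Pb
import Pool.Agent.Lib.MP_f80667_ag.Ng.Pd
import Pool.Agent.Lib.MP_f80667_ag.Ng.Qb

/-! Projections over a finite unramified extension. -/

open ZC BE PE CV IntermediateField

namespace GX

variable {K Ω : Type} [Field K] [Field Ω] [Algebra K Ω] [CharZero K] [IsAlgClosure K Ω]
  {L : Ld K Ω} {r l : ℕ} {π : Ω} {F : Type} [Field F] [Algebra F K] [Algebra F Ω]
  [IsScalarTower F K Ω] {N d : ℕ} {ι : Type} {f : ι → MvPolynomial (Fin N) F}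

omit [CharZero K] [IsAlgClosure K Ω] in
/-- The elements in `Ur ⊥ (r * l ^ a)`. -/
private def ngTT (L : Ld K Ω) (r l a : ℕ) : Subring (Rl L r l) where
  carrier := {x | (x : Ω) ∈ L.Ur ⊥ (r * l ^ a)}
  mul_mem' := by
    intro x y hx hy
    exact (show (x : Ω) * (y : Ω) ∈ L.Ur ⊥ (r * l ^ a) from mul_mem hx hy)
  one_mem' := one_mem (L.Ur ⊥ (r * l ^ a))
  add_mem' := by
    intro x y hx hy
    exact (show (x : Ω) + (y : Ω) ∈ L.Ur ⊥ (r * l ^ a) from add_mem hx hy)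
  zero_mem' := zero_mem (L.Ur ⊥ (r * l ^ a))
  neg_mem' := by
    intro x hx
    exact (show -(x : Ω) ∈ L.Ur ⊥ (r * l ^ a) from neg_mem hx)

omit [CharZero K] [IsAlgClosure K Ω] in
private theorem ngT_mem (x : L.V.comap (algebraMap F Ω)) (a : ℕ) :
    iRl L r l F x ∈ ngTT L r l a := by
  change algebraMap F Ω (x : F) ∈ L.Ur ⊥ (r * l ^ a)
  rw [IsScalarTower.algebraMap_apply F K Ω]
  exact IntermediateField.algebraMap_mem _ _

/-- The homomorphism from the valuation ring of `F`. -/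
private def ngTr (L : Ld K Ω) (r l : ℕ) (F : Type) [Field F] [Algebra F K] [Algebra F Ω]
    [IsScalarTower F K Ω] (a : ℕ) : (L.V.comap (algebraMap F Ω)) →+* ngTT L r l a :=
  (iRl L r l F).codRestrict (ngTT L r l a) fun x => ngT_mem x a

/-- The homomorphism to the valuation ring of `Ur ⊥ (r * l ^ a)`. -/
private def ngTe (L : Ld K Ω) (r l a : ℕ) :
    ngTT L r l a →+* (L.V.comap (algebraMap (L.Ur ⊥ (r * l ^ a)) Ω)) where
  toFun x := ⟨⟨((x : Rl L r l) : Ω), x.2⟩, (x : Rl L r l).2.1⟩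
  map_one' := rfl
  map_mul' _ _ := rfl
  map_zero' := rfl
  map_add' _ _ := rfl

/-- **The data over a finite unramified extension.** Proof: `rl_dvr`, `rl_rk`, `Gdv.gdr`, `Gdr.exists_prj` (`Ld.κ_closed`): projections over `Rl L r l`; the subrings `T a` = the elements of `Rl L r l` in `Ur ⊥ (r * l ^ a)` (a monotone sequence with union everything);
`T a` is isomorphic to the valuation ring `L.V.comap ..` of the field `Ur ⊥ (r * l ^ a)`; `dir_prj`, `dir_ok`, `dir_cov`, transported by the isomorphism (`Prj.Ok.map`, `Cov.map`); `f₀` = the image of the model in `h.red`. -/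
theorem exists_datl' (hπ : Uf L π) (hr : r ≠ 0) (hl : 2 ≤ l) (h : Gdv L.V f d) :
    ∃ (a m : ℕ) (ψ : Fin m → Prj (L.Ur ⊥ (r * l ^ a)) N d)
      (f₀ : ι → MvPolynomial (Fin N) (L.V.comap (algebraMap (L.Ur ⊥ (r * l ^ a)) Ω)))
      (ψ₀ : Fin m → Prj (L.V.comap (algebraMap (L.Ur ⊥ (r * l ^ a)) Ω)) N d),
      Dat L.V (fun i => MvPolynomial.map (algebraMap F (L.Ur ⊥ (r * l ^ a))) (f i)) ψ f₀ ψ₀ ∧
        (Ideal.span (Set.range fun i =>
          MvPolynomial.map (rdO (L.Ur ⊥ (r * l ^ a)) L.V) (f₀ i))).IsPrime ∧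
        ∀ i, ∃ y : Fin N → L.κ,
          Zp (fun j => MvPolynomial.map (rdO (L.Ur ⊥ (r * l ^ a)) L.V) (f₀ j)) y ∧
          MvPolynomial.eval (((ψ₀ i).map (rdO (L.Ur ⊥ (r * l ^ a)) L.V)).uv y)
            ((ψ₀ i).map (rdO (L.Ur ⊥ (r * l ^ a)) L.V)).D ≠ 0 := by
  have hdvr : IsDiscreteValuationRing (Rl L r l) := rl_dvr hπ hr (by omega)
  have hac : IsAlgClosed Ω := IsAlgClosure.isAlgClosed K
  have hcl : IsAlgClosed L.κ := L.κ_closed
  have hR : Rk (Rl L r l) L.κ := rl_rk hr hl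
  obtain ⟨g, hg, hgd⟩ := h.gdr (r := r) (l := l)
  obtain ⟨m, ψS, hok, hcov, hdm⟩ := Gdr.exists_prj' hR hgd
  obtain ⟨f₀, hf₀, -⟩ := h.red
  have hgi : ∀ i, MvPolynomial.map (iRl L r l F) (f₀ i) = g i := by
    intro i
    refine MvPolynomial.map_injective (Rl L r l).subtype Subtype.val_injective ?_
    rw [hg i, ← hf₀ i, MvPolynomial.map_map, MvPolynomial.map_map]
    rfl
  have hT : Monotone (ngTT L r l) := fun a b hab x hx =>
    Ld.ur_dvd ⊥ (mul_dvd_mul_left r (pow_dvd_pow l hab)) hx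
  have hU : ∀ x : Rl L r l, ∃ a, x ∈ ngTT L r l a := fun x => x.2.2
  have hf : ∀ b i, MvPolynomial.map (ngTT L r l b).subtype
      (MvPolynomial.map (ngTr L r l F b) (f₀ i)) = g i := by
    intro b i
    rw [← hgi i, MvPolynomial.map_map]
    rfl
  have h1 := fun i => dir_prj hT hU (ψS i)
  have h2 := fun i => dir_ok hT hU hf (hok i)
  obtain ⟨a3, h3⟩ := dir_cov hT hU hf hcov
  choose a1 h1 using h1
  choose a2 h2 using h2
  obtain ⟨a, ha⟩ : ∃ a, a = (∑ i, a1 i) + (∑ i, a2 i) + a3 := ⟨_, rfl⟩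
  have ha1 : ∀ i, a1 i ≤ a := fun i => by
    have := Finset.single_le_sum (f := a1) (fun j _ => Nat.zero_le (a1 j)) (Finset.mem_univ i)
    omega
  have ha2 : ∀ i, a2 i ≤ a := fun i => by
    have := Finset.single_le_sum (f := a2) (fun j _ => Nat.zero_le (a2 j)) (Finset.mem_univ i)
    omega
  have h4 := fun i => h1 i a (ha1 i)
  choose ψ' hψ' using h4
  have h5 : ∀ i, (ψ' i).Ok fun j => MvPolynomial.map (ngTr L r l F a) (f₀ j) :=
    fun i => h2 i a (ha2 i) (ψ' i) (hψ' i)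
  have h6 : Cov (fun j => MvPolynomial.map (ngTr L r l F a) (f₀ j)) ψ' :=
    h3 a (by omega) ψ' hψ'
  have hmf : ∀ i, MvPolynomial.map (L.V.comap (algebraMap (L.Ur ⊥ (r * l ^ a)) Ω)).subtype
      (MvPolynomial.map (ngTe L r l a) (MvPolynomial.map (ngTr L r l F a) (f₀ i))) =
        MvPolynomial.map (algebraMap F (L.Ur ⊥ (r * l ^ a))) (f i) := by
    intro i
    rw [← hf₀ i, MvPolynomial.map_map, MvPolynomial.map_map, MvPolynomial.map_map]
    rfl
  have hrd : (rdO (L.Ur ⊥ (r * l ^ a)) L.V).comp (ngTe L r l a) =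
      (algebraMap (Rl L r l) L.κ).comp (ngTT L r l a).subtype := rfl
  have hfr : (fun i => MvPolynomial.map (rdO (L.Ur ⊥ (r * l ^ a)) L.V)
      (MvPolynomial.map (ngTe L r l a) (MvPolynomial.map (ngTr L r l F a) (f₀ i)))) =
        fr L.κ g := by
    funext i
    rw [MvPolynomial.map_map, hrd, ← MvPolynomial.map_map, hf a i]
  refine ⟨a, m, fun i => ((ψ' i).map (ngTe L r l a)).map
      (L.V.comap (algebraMap (L.Ur ⊥ (r * l ^ a)) Ω)).subtype,
    fun i => MvPolynomial.map (ngTe L r l a) (MvPolynomial.map (ngTr L r l F a) (f₀ i)),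
    fun i => (ψ' i).map (ngTe L r l a), ⟨hmf, fun i => rfl, fun i => ?_,
    fun i => (h5 i).map (ngTe L r l a), h6.map (ngTe L r l a)⟩, ?_, fun i => ?_⟩
  · obtain ⟨e, he⟩ := h.hom i
    refine ⟨e, MvPolynomial.IsHomogeneous.of_map
      (f := (L.V.comap (algebraMap (L.Ur ⊥ (r * l ^ a)) Ω)).subtype) Subtype.val_injective ?_⟩
    rw [hmf i]
    exact he.map _
  · rw [hfr]
    exact hgd.red.prime
  · obtain ⟨y, hy, hD⟩ := hdm i
    refine ⟨y, ?_, ?_⟩
    · rw [hfr]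
      exact hy
    · have e1 : ((ψ' i).map (ngTe L r l a)).map (rdO (L.Ur ⊥ (r * l ^ a)) L.V) =
          (ψS i).map (algebraMap (Rl L r l) L.κ) := by
        rw [Prj.map_map, hrd, ← Prj.map_map, hψ' i]
      rw [e1]
      have e2 : ((ψS i).map (algebraMap (Rl L r l) L.κ)).uv y = (ψS i).uv y := rfl
      rw [e2]
      change MvPolynomial.eval ((ψS i).uv y)
        (MvPolynomial.map (algebraMap (Rl L r l) L.κ) (ψS i).D) ≠ 0
      rw [MvPolynomial.eval_map]
      exact hD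

end GX
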