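import Pool.Agent.Lib.MP_f80667_ag.Ng.Uc
import Pool.Agent.Lib.MP_f80667_ag.Lc.Bx
import Pool.Agent.Lib.MP_f80667_ag.Gx.Dt

/-! The good points over the integers. -/

open ZC BE PE CV IntermediateField

namespace GX

variable {F : Type} [Field F] {N d m : ℕ} {ι : Type} {f : ι → MvPolynomial (Fin N) F}
  {K Ω : Type} [Field K] [CharZero K] [Field Ω] [Algebra K Ω] [Algebra F K] [Algebra F Ω]
  [IsScalarTower F K Ω] [IsAlgClosure K Ω] {L : Ld K Ω} {ψ : Fin m → Prj F N d}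
  {f₀ : ι → MvPolynomial (Fin N) (L.V.comap (algebraMap F Ω))}
  {ψ₀ : Fin m → Prj (L.V.comap (algebraMap F Ω)) N d}

omit [CharZero K] [IsAlgClosure K Ω] in
/-- The residues of the values of polynomials over the valuation ring. -/
private theorem ngUd_hv {c : Fin (d + 1) → Ω} {c' : Fin (d + 1) → L.κ}
    (hc : ∀ l, L.rs.Hv (c l) (c' l)) {w : Ω} {w' : L.κ} (hw : L.rs.Hv w w')
    (P : Polynomial (MvPolynomial (Fin (d + 1)) L.V)) :
    L.rs.Hv (pe c w P) (pe c' w' P) := by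
  have h1 := pe_hom (Algebra.ofId L.V Ω) (fun l => (⟨c l, (hc l).1⟩ : L.V)) (⟨w, hw.1⟩ : L.V) P
  have h2 := pe_hom (Algebra.ofId L.V L.κ) (fun l => (⟨c l, (hc l).1⟩ : L.V))
    (⟨w, hw.1⟩ : L.V) P
  have e1 : (fun l => (Algebra.ofId L.V Ω) (⟨c l, (hc l).1⟩ : L.V)) = c := rfl
  have e2 : (fun l => (Algebra.ofId L.V L.κ) (⟨c l, (hc l).1⟩ : L.V)) = c' :=
    funext fun l => (hc l).2
  have e3 : (Algebra.ofId L.V Ω) (⟨w, hw.1⟩ : L.V) = w := rfl
  have e4 : (Algebra.ofId L.V L.κ) (⟨w, hw.1⟩ : L.V) = w' := hw.2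
  rw [e1, e3] at h1
  rw [e2, e4] at h2
  rw [← h1, ← h2]
  exact ⟨(pe (fun l => (⟨c l, (hc l).1⟩ : L.V)) (⟨w, hw.1⟩ : L.V) P).2, rfl⟩

omit [CharZero K] [IsAlgClosure K Ω] in
private theorem ngUd_hvD {c : Fin (d + 1) → Ω} {c' : Fin (d + 1) → L.κ}
    (hc : ∀ l, L.rs.Hv (c l) (c' l)) (D : MvPolynomial (Fin (d + 1)) L.V) :
    L.rs.Hv (MvPolynomial.aeval c D) (MvPolynomial.aeval c' D) := by
  have h1 := ngUd_hv hc Rs.Hv.zero (Polynomial.C D)
  rwa [pe_C, pe_C] at h1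

omit [CharZero K] [IsAlgClosure K Ω] in
private theorem ngUd_hvl {x : Fin N → Ω} {x' : Fin N → L.κ}
    (hx : ∀ j, L.rs.Hv (x j) (x' j)) (a : Fin N → L.V) :
    L.rs.Hv (lv a x) (lv a x') := by
  have h1 : lv a x = ((∑ j, a j * (⟨x j, (hx j).1⟩ : L.V) : L.V) : Ω) := by
    have h := map_sum (algebraMap L.V Ω) (fun j => a j * (⟨x j, (hx j).1⟩ : L.V)) Finset.univ
    refine Eq.trans ?_ h.symm
    rw [lv]
    refine Finset.sum_congr rfl fun j _ => ?_
    rw [map_mul]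
    rfl
  have h2 : lv a x' = IsLocalRing.residue L.V (∑ j, a j * (⟨x j, (hx j).1⟩ : L.V)) := by
    rw [map_sum, lv]
    refine Finset.sum_congr rfl fun j _ => ?_
    rw [map_mul]
    have h3 : IsLocalRing.residue L.V (⟨x j, (hx j).1⟩ : L.V) = x' j := (hx j).2
    rw [h3]
    rfl
  rw [h1, h2]
  exact ⟨(∑ j, a j * (⟨x j, (hx j).1⟩ : L.V) : L.V).2, rfl⟩

omit [CharZero K] [IsAlgClosure K Ω] in
private theorem ngUd_K (h : Dat L.V f ψ f₀ ψ₀) (i : Fin m) :
    ((ψ₀ i).map (iO F L.V)).map (algebraMap L.V Ω) =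
      ((ψ i).map (algebraMap F K)).map (algebraMap K Ω) := by
  rw [← h.mp i, Prj.map_map, Prj.map_map, Prj.map_map]
  have e : (algebraMap L.V Ω).comp (iO F L.V) = (algebraMap K Ω).comp
      ((algebraMap F K).comp (L.V.comap (algebraMap F Ω)).subtype) := by
    refine RingHom.ext fun x => ?_
    exact IsScalarTower.algebraMap_apply F K Ω (x : F)
  rw [e]
  rfl

private theorem ngUd_κ {F Ω : Type} [Field F] [Field Ω] [Algebra F Ω] {V : ValuationSubring Ω}
    {N d : ℕ} (ρ : Prj (V.comap (algebraMap F Ω)) N d) :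
    (ρ.map (iO F V)).map (algebraMap V (IsLocalRing.ResidueField V)) = ρ.map (rdO F V) := by
  rw [Prj.map_map]
  rfl

private theorem ngUd_tw {R R' S : Type} [CommRing R] [CommRing R'] [CommRing S] [Algebra R S]
    [Algebra R' S] {a : Prj R N d} {b : Prj R' N d}
    (h : a.map (algebraMap R S) = b.map (algebraMap R' S)) :
    (∀ (c : Fin (d + 1) → S) (w : S), pe c w a.G = pe c w b.G) ∧
    (∀ (c : Fin (d + 1) → S) (w : S) j, pe c w (a.A j) = pe c w (b.A j)) ∧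
    (∀ c : Fin (d + 1) → S, MvPolynomial.aeval c a.D = MvPolynomial.aeval c b.D) ∧
    ∀ x : Fin N → S, a.uv x = b.uv x := by
  refine ⟨fun c w => ?_, fun c w j => ?_, fun c => ?_, fun x => ?_⟩
  · rw [← pe_map (R' := S) c w a.G, ← pe_map (R' := S) c w b.G]
    change pe c w (a.map (algebraMap R S)).G = pe c w (b.map (algebraMap R' S)).G
    rw [h]
  · rw [← pe_map (R' := S) c w (a.A j), ← pe_map (R' := S) c w (b.A j)]
    change pe c w ((a.map (algebraMap R S)).A j) = pe c w ((b.map (algebraMap R' S)).A j)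
    rw [h]
  · rw [← MvPolynomial.aeval_map_algebraMap S c a.D, ← MvPolynomial.aeval_map_algebraMap S c b.D]
    change MvPolynomial.aeval c (a.map (algebraMap R S)).D =
      MvPolynomial.aeval c (b.map (algebraMap R' S)).D
    rw [h]
  · rw [← uv_map (R' := S) a x, ← uv_map (R' := S) b x, h]

omit [CharZero K] [IsAlgClosure K Ω] in
private theorem ngUd_root {ρ : Prj K N d} (h : Pj f L ρ) {c : Fin (d + 1) → Ω}
    (hc : ∀ r, L.nm (c r) ≤ 1) {w : Ω} (hG : pe c w ρ.G = 0) : L.nm w ≤ 1 := by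
  refine L.root_le (f := ρ.G.map (MvPolynomial.aeval c :
    MvPolynomial (Fin (d + 1)) K →ₐ[K] Ω).toRingHom) (h.mon.map _) (fun j => ?_) ?_
  · rw [Polynomial.coeff_map]
    exact GM.ae_le (F := K) (K := K) (h.iG j) hc
  · rw [Polynomial.eval_map]
    exact hG

/-- **Generic points.** Proof: `gen_red` for the reduction (`Ok.map (rdO F L.V)`, `Ld.κ_closed`), `c` over `Ω` with the residues `c̄`; `D (c)` has the residue `D̄ (c̄) ≠ 0`; a root `w` of `G (c, .)` is integral (`G` is monic with integral coefficients) and its residue is a root of `Ḡ (c̄, .)`; the coordinates of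
`pt c w = A (c, w) / D (c)` are integral with the residues `pt c̄ w̄`. (Residues of values of integral polynomials: `L.rs.Hv`, `dt_hv` in `Gx/Dt` is private: copy.) -/
theorem Dat.gnr (h : Dat L.V f ψ f₀ ψ₀)
    (hp : (Ideal.span (Set.range fun i => MvPolynomial.map (rdO F L.V) (f₀ i))).IsPrime)
    (hD : ∀ i, ∃ y : Fin N → L.κ, Zp (fun j => MvPolynomial.map (rdO F L.V) (f₀ j)) y ∧
      MvPolynomial.eval (((ψ₀ i).map (rdO F L.V)).uv y) ((ψ₀ i).map (rdO F L.V)).D ≠ 0) :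
    Gnr L fun i => (ψ i).map (algebraMap F K) := by
  intro i
  have hcl : IsAlgClosed Ω := IsAlgClosure.isAlgClosed K
  have hκ : IsAlgClosed L.κ := L.κ_closed
  obtain ⟨c', hcD, hcw⟩ := gen_red (κ := L.κ)
    (f := fun i => MvPolynomial.map (rdO F L.V) (f₀ i))
    (ψ := fun i => (ψ₀ i).map (rdO F L.V))
    (fun j => by
      obtain ⟨e, he⟩ := h.hom j
      exact ⟨e, he.map _⟩)
    hp (fun i' => (h.ok i').map (rdO F L.V)) hD i
  choose c hc using fun l => L.hv_surj (c' l)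
  -- the data over the valuation ring
  obtain ⟨a, ha⟩ : ∃ a : Fin m → Prj K N d, a = fun i => (ψ i).map (algebraMap F K) := ⟨_, rfl⟩
  obtain ⟨b, hb⟩ : ∃ b : Fin m → Prj L.V N d, b = fun i => (ψ₀ i).map (iO F L.V) := ⟨_, rfl⟩
  obtain ⟨g, hg⟩ : ∃ g : Fin m → Prj L.κ N d, g = fun i => (ψ₀ i).map (rdO F L.V) := ⟨_, rfl⟩
  have hab : ∀ i', (a i').map (algebraMap K Ω) = (b i').map (algebraMap L.V Ω) := by
    intro i'
    rw [ha, hb]
    exact (ngUd_K h i').symm
  have hbg : ∀ i', (b i').map (algebraMap L.V L.κ) = g i' := by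
    intro i'
    rw [hb, hg]
    exact ngUd_κ (ψ₀ i')
  have hpj : Pj f L (a i) := by
    rw [ha]
    exact h.pj i
  change MvPolynomial.eval c' ((fun i => (ψ₀ i).map (rdO F L.V)) i).D ≠ 0 at hcD
  rw [← hg] at hcD
  have hcw' : ∀ w : L.κ, pe c' w (g i).G = 0 → ∀ i',
      MvPolynomial.eval ((g i').uv ((g i).pt c' w)) (g i').D ≠ 0 := by
    rw [hg]
    exact hcw
  have hGg : ∀ w : L.κ, pe c' w (g i).G = pe c' w (b i).G := by
    intro w
    rw [← hbg i]
    exact pe_map c' w (b i).G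
  have hAg : ∀ (w : L.κ) j, pe c' w ((g i).A j) = pe c' w ((b i).A j) := by
    intro w j
    rw [← hbg i]
    exact pe_map c' w ((b i).A j)
  have hDg : ∀ i' (y : Fin (d + 1) → L.κ),
      MvPolynomial.eval y (g i').D = MvPolynomial.aeval y (b i').D := by
    intro i' y
    rw [← hbg i', ← MvPolynomial.aeval_map_algebraMap L.κ y (b i').D]
    rfl
  have hug : ∀ i' (x : Fin N → L.κ), (g i').uv x = (b i').uv x := by
    intro i' x
    rw [← hbg i']
    exact uv_map (b i') x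
  have hcD1 : L.rs.Hv (MvPolynomial.aeval c (a i).D) (MvPolynomial.eval c' (g i).D) := by
    rw [(ngUd_tw (hab i)).2.2.1 c, hDg i c']
    exact ngUd_hvD hc (b i).D
  change ∃ c : Fin (d + 1) → Ω, (∀ l, L.nm (c l) ≤ 1) ∧
    L.nm (MvPolynomial.aeval c ((fun i => (ψ i).map (algebraMap F K)) i).D) = 1 ∧
    ∀ w, pe c w ((fun i => (ψ i).map (algebraMap F K)) i).G = 0 →
      ∀ i', L.nm (MvPolynomial.aeval (((fun i => (ψ i).map (algebraMap F K)) i').uv
        ((((fun i => (ψ i).map (algebraMap F K)) i).om Ω).pt c w))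
        ((fun i => (ψ i).map (algebraMap F K)) i').D) = 1
  rw [← ha]
  refine ⟨c, fun l => L.hv_int (hc l), (L.hv_ne hcD1).1 hcD, fun w hw i' => ?_⟩
  have hw1 : L.nm w ≤ 1 := ngUd_root hpj (fun l => L.hv_int (hc l)) hw
  obtain ⟨w', hww⟩ := L.hv_of hw1
  have hw0 : pe c' w' (g i).G = 0 := by
    rw [hGg w']
    have h1 := ngUd_hv hc hww (b i).G
    rw [← (ngUd_tw (hab i)).1 c w, hw] at h1
    exact h1.uniq Rs.Hv.zero
  have h2 := hcw' w' hw0 i'
  have hx : ∀ j, L.rs.Hv (((a i).om Ω).pt c w j) ((g i).pt c' w' j) := by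
    intro j
    rw [om_pt]
    change L.rs.Hv _ (pe c' w' ((g i).A j) / MvPolynomial.eval c' (g i).D)
    refine Rs.Hv.div ?_ hcD1 hcD
    rw [(ngUd_tw (hab i)).2.1 c w j, hAg w' j]
    exact ngUd_hv hc hww ((b i).A j)
  have h3 : L.rs.Hv (MvPolynomial.aeval ((a i').uv (((a i).om Ω).pt c w)) (a i').D)
      (MvPolynomial.eval ((g i').uv ((g i).pt c' w')) (g i').D) := by
    rw [(ngUd_tw (hab i')).2.2.1, (ngUd_tw (hab i')).2.2.2, hDg i', hug i']
    exact ngUd_hvD (fun r => ngUd_hvl hx ((b i').u r)) (b i').D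
  exact (L.hv_ne h3).1 h2

end GX
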