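import Pool.Agent.Lib.MP_f80667_ag.Ng.W
import Pool.Agent.Lib.MP_f80667_ag.Ng.T
import Pool.Agent.Lib.MP_f80667_ag.Ng.Rb
import Pool.Agent.Lib.MP_f80667_ag.Ng.Ud
import Pool.Agent.Lib.MP_f80667_ag.Lc.Z
import Pool.Agent.Lib.MP_f80667_ag.Lv.De
import Pool.Agent.Lib.MP_f80667_ag.Lv.Kk3
import Pool.Agent.Lib.MP_f80667_ag.Lv.Fz

/-!
The cycles over a local field with reduction `0` (good reduction in the sense of `Gdv`).

* `Gdv.ctv`: the cycles with reduction `0` and sum `0` are divisible + finite modulo rational equivalence.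
* `Gdv.cbk`: finitely many classes modulo `n`.
-/

open ZC BE PE CV IntermediateField

namespace GX

section fld

variable {K Ω : Type} [Field K] [CharZero K] [Field Ω] [Algebra K Ω] [IsAlgClosure K Ω]
  {L : Ld K Ω}

theorem exists_rf0 (L : Ld K Ω) : ∃ r, L.Rf ⊥ r := by
  have hac : IsAlgClosed Ω := IsAlgClosure.isAlgClosed K
  obtain ⟨φ, q, hφ⟩ := exists_frob L.toLf (⊥ : IntermediateField K Ω)
  obtain ⟨k, hk, hq, -⟩ := Ld.frob_q hφ
  rw [hq] at hφ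
  obtain ⟨h3, h4⟩ := Ld.frob_te hφ
  exact ⟨k, hk, sup_le le_rfl (adjoin_le_iff.2 fun z hz => h4 z hz), h3⟩

/-- The degrees of the unramified extensions of degree a power of `l`. -/
theorem ur_deg {r : ℕ} (hr : L.Rf ⊥ r) {l : ℕ} (hl : l ≠ 0) (a : ℕ) :
    Module.finrank K (L.Ur ⊥ (r * l ^ a)) = l ^ a := by
  have h1 : L.Ur ⊥ r = ⊥ := le_antisymm hr.le bot_le
  have h2 := ur_rank (k := l ^ a) hr hr.ne (dvd_refl r) (pow_ne_zero a hl)
  rw [h2, h1, IntermediateField.finrank_bot, mul_one]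

end fld

private theorem prj_id {K : Type} [Field K] {N d : ℕ} (ψ : Prj K N d) :
    ψ.map (algebraMap K K) = ψ := by
  have e : (MvPolynomial.map (algebraMap K K) : MvPolynomial (Fin (d + 1)) K →+* _) =
      RingHom.id _ := RingHom.ext fun p => MvPolynomial.map_id p
  obtain ⟨u, y, G, D, A⟩ := ψ
  unfold Prj.map
  rw [e]
  simp only [Polynomial.map_id]
  rfl

section loc

variable {F : Type} [Field F] {N N' k k' d : ℕ} {ι ι' : Type} {f : ι → MvPolynomial (Fin N) F}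
  {K Ω : Type} [Field K] [CharZero K] [Field Ω] [Algebra K Ω] [Algebra F K] [Algebra F Ω]
  [IsScalarTower F K Ω] [IsAlgClosure K Ω] {L : Ld K Ω} {A : Gv F N' k' ι'} {M : Mf f A k}

/-- With projections over `K`. -/
private theorem loc_dat (hf : Hm f) (hD : PL.DnK L) (h2 : 2 < L.p) {m : ℕ}
    {ψ : Fin m → Prj K N d} {f₀ : ι → MvPolynomial (Fin N) (L.V.comap (algebraMap K Ω))}
    {ψ₀ : Fin m → Prj (L.V.comap (algebraMap K Ω)) N d}
    (h : Dat L.V (fun i => MvPolynomial.map (algebraMap F K) (f i)) ψ f₀ ψ₀)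
    (hp : (Ideal.span (Set.range fun i => MvPolynomial.map (rdO K L.V) (f₀ i))).IsPrime)
    (hDn : ∀ i, ∃ y : Fin N → L.κ, Zp (fun j => MvPolynomial.map (rdO K L.V) (f₀ j)) y ∧
      MvPolynomial.eval (((ψ₀ i).map (rdO K L.V)).uv y) ((ψ₀ i).map (rdO K L.V)).D ≠ 0) :
    (∀ n : ℕ, n ≠ 0 → ∃ b, Cbk f L.V K n b) ∧
      ∀ {N' k' k : ℕ} {ι' : Type} {A : Gv F N' k' ι'} {M : Mf f A k}, A.Ok → M.Ok →
        Gav L.V A → Gmv L.V M → M.Alb Ω → Ctv L.V M K L.p := by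
  have hch : CharZero Ω := charZero_of_injective_algebraMap (algebraMap K Ω).injective
  obtain ⟨π, hπ⟩ := exists_uf L
  obtain ⟨e, he0, he⟩ := hπ.pow
  obtain ⟨hψ, hc⟩ := Dat.pj_of hf h L rfl
  have hG := h.gnr (K := K) hp hDn
  have hG' : Gnr L ψ := by
    have h1 : (fun i => (ψ i).map (algebraMap K K)) = ψ := by
      funext i
      exact prj_id (ψ i)
    rwa [h1] at hG
  have hfin : ∀ n, 1 ≤ n → (Vl f L π (n + 1)).relIndex (Vl f L π n) ≠ 0 := fun n hn =>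
    gr_fin' hf hπ h2 hψ hc (Nat.one_le_iff_ne_zero.1 hn)
  refine ⟨fun n hn => zr_cbk h2 hπ hf hψ hc hfin hn, fun hA hM hL hLm hAl => ?_⟩
  exact ctx_ctv hπ hf hψ hc hA hM (lga_of hL) (lmf_of hLm) (vl_stb h2 hπ hf hψ hc he0 he hfin)
    (lst_of hπ hf h2 hψ hc hD hG' hA hM (lga_of hL) (lmf_of hLm) hAl he)

/-- Over an unramified extension of degree a power of `l`. -/
private theorem loc_l (h : Gdv L.V f d) (hD : PL.DnK L) (h2 : 2 < L.p) {r l : ℕ}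
    (hr : r ≠ 0) (hl : 2 ≤ l) : ∃ a : ℕ,
      (∀ n : ℕ, n ≠ 0 → ∃ b, Cbk f L.V (L.Ur ⊥ (r * l ^ a)) n b) ∧
      ∀ {N' k' k : ℕ} {ι' : Type} {A : Gv F N' k' ι'} {M : Mf f A k}, A.Ok → M.Ok →
        Gav L.V A → Gmv L.V M → M.Alb Ω → Ctv L.V M (L.Ur ⊥ (r * l ^ a)) L.p := by
  have hch : CharZero Ω := charZero_of_injective_algebraMap (algebraMap K Ω).injective
  obtain ⟨π, hπ⟩ := exists_uf L
  obtain ⟨a, m, ψ, f₀, ψ₀, hdat, hpr, hDn⟩ := exists_datl' hπ hr hl h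
  have hn : r * l ^ a ≠ 0 := mul_ne_zero hr (pow_ne_zero a (by omega))
  have hfd : FiniteDimensional K (L.Ur ⊥ (r * l ^ a)) := Ld.ur_fin ⊥ _ hn
  have hcl : IsAlgClosure (L.Ur ⊥ (r * l ^ a)) Ω :=
    ⟨IsAlgClosure.isAlgClosed K, Algebra.IsAlgebraic.tower_top (K := K) _⟩
  exact ⟨a, loc_dat (L := xt L (L.Ur ⊥ (r * l ^ a))) h.hom (xt_dn hD _) h2 hdat hpr hDn⟩

/-- **The cycles with reduction `0` and sum `0`** are divisible + finite modulo rational equivalence. -/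
theorem Gdv.ctv (h : Gdv L.V f d) (hD : PL.DnK L) (h2 : 2 < L.p) (hA : A.Ok) (hM : M.Ok)
    (hG : Gav L.V A) (hGm : Gmv L.V M) (hAl : M.Alb Ω) : Ctv L.V M K L.p := by
  obtain ⟨r, hr⟩ := exists_rf0 L
  obtain ⟨a, -, ha⟩ := loc_l h hD h2 hr.ne (le_refl 2)
  obtain ⟨b, -, hb⟩ := loc_l h hD h2 (l := 3) hr.ne (by norm_num)
  have hfa : FiniteDimensional K (L.Ur ⊥ (r * 2 ^ a)) :=
    Ld.ur_fin ⊥ _ (mul_ne_zero hr.ne (pow_ne_zero a two_ne_zero))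
  have hfb : FiniteDimensional K (L.Ur ⊥ (r * 3 ^ b)) :=
    Ld.ur_fin ⊥ _ (mul_ne_zero hr.ne (pow_ne_zero b three_ne_zero))
  refine ctv_cop hM (inv_V L) ?_ (ha hA hM hG hGm hAl) (hb hA hM hG hGm hAl)
  rw [ur_deg hr two_ne_zero, ur_deg hr three_ne_zero]
  exact Nat.Coprime.pow _ _ (by norm_num)

/-- **The classes modulo `n`.** -/
theorem Gdv.cbk (h : Gdv L.V f d) (hD : PL.DnK L) (h2 : 2 < L.p) {n : ℕ} (hn : n ≠ 0) :
    ∃ b, Cbk f L.V K n b := by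
  obtain ⟨r, hr⟩ := exists_rf0 L
  obtain ⟨a, ha, -⟩ := loc_l h hD h2 hr.ne (le_refl 2)
  obtain ⟨b, hb, -⟩ := loc_l h hD h2 (l := 3) hr.ne (by norm_num)
  have hfa : FiniteDimensional K (L.Ur ⊥ (r * 2 ^ a)) :=
    Ld.ur_fin ⊥ _ (mul_ne_zero hr.ne (pow_ne_zero a two_ne_zero))
  have hfb : FiniteDimensional K (L.Ur ⊥ (r * 3 ^ b)) :=
    Ld.ur_fin ⊥ _ (mul_ne_zero hr.ne (pow_ne_zero b three_ne_zero))
  obtain ⟨b₁, h₁⟩ := ha n hn
  obtain ⟨b₂, h₂⟩ := hb n hn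
  refine ⟨b₁ * b₂, cbk_cop (inv_V L) ?_ h₁ h₂⟩
  rw [ur_deg hr two_ne_zero, ur_deg hr three_ne_zero]
  exact Nat.Coprime.pow _ _ (by norm_num)

end loc

end GX
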