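import Mathlib

/-! Coprime polynomials over the field of fractions. -/

namespace GX

private theorem ub_den {A : Type} [CommRing A] [IsDomain A]
    (p : Polynomial (FractionRing A)) : ∃ (c : A) (q : Polynomial A), c ≠ 0 ∧
      q.map (algebraMap A (FractionRing A)) = Polynomial.C (algebraMap A (FractionRing A) c) * p := by
  obtain ⟨b, hbM, hb⟩ := IsLocalization.integerNormalization_spec (nonZeroDivisors A) p
  refine ⟨b, _, nonZeroDivisors.ne_zero hbM, hb.trans ?_⟩
  refine Polynomial.ext fun n => ?_
  rw [Polynomial.coeff_smul, Polynomial.coeff_C_mul, Algebra.smul_def]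

/-- Proof: `G = 1`: `n = 1`. Let `E` be the field of fractions of `A`. If the images of `G` and `Q` in `E[Y]` are not coprime, they have a common factor `g` of positive degree, `G = g G'`; a multiple `T ≠ 0` of `G'` is over `A` (`IsLocalization.integerNormalization`), `deg T < deg G`, and `G ∣ T Q` over `E`, so over
`A` because `G` is monic: contradiction. If they are coprime, `a Q + b G = 1` over `E`; clear the denominators. -/
theorem res_ne {A : Type} [CommRing A] [IsDomain A] {G Q : Polynomial A} (hG : G.Monic)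
    (h : ∀ T : Polynomial A, T.degree < G.degree → G ∣ T * Q → T = 0) :
    ∃ (n : A) (a b : Polynomial A), n ≠ 0 ∧ a * Q + b * G = Polynomial.C n := by
  classical
  set φ : A →+* FractionRing A := algebraMap A (FractionRing A) with hφ
  have hinj : Function.Injective φ := IsFractionRing.injective A (FractionRing A)
  have hG0 : G.map φ ≠ 0 := (hG.map φ).ne_zero
  have hcop : IsCoprime (Q.map φ) (G.map φ) := by
    refine EuclideanDomain.isCoprime_of_dvd (fun h0 => hG0 h0.2) fun g hg hg0 hgQ hgG => ?_
    obtain ⟨q1, hq1⟩ := hgQ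
    obtain ⟨G1, hG1⟩ := hgG
    obtain ⟨c, T, hc, hT⟩ := ub_den G1
    have hG10 : G1 ≠ 0 := by
      rintro rfl
      exact hG0 (by rw [hG1, mul_zero])
    have hc' : φ c ≠ 0 := fun h0 => hc (hinj (h0.trans (map_zero φ).symm))
    have hdeg : T.degree < G.degree := by
      rw [← Polynomial.degree_map_eq_of_injective hinj T,
        ← Polynomial.degree_map_eq_of_injective hinj G, hT, hG1, Polynomial.degree_mul,
        Polynomial.degree_mul, Polynomial.degree_C hc', zero_add]
      have hgd : 0 < g.degree := by
        refine Polynomial.degree_pos_of_ne_zero_of_nonunit hg0 hg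
      have h1 : G1.degree ≠ ⊥ := fun h0 => hG10 (Polynomial.degree_eq_bot.1 h0)
      have h2 : g.degree ≠ ⊥ := fun h0 => hg0 (Polynomial.degree_eq_bot.1 h0)
      rw [Polynomial.degree_eq_natDegree hG10, Polynomial.degree_eq_natDegree hg0] at *
      rw [← Nat.cast_add]
      have h3 : 0 < g.natDegree := by exact_mod_cast hgd
      exact_mod_cast (by omega : G1.natDegree < g.natDegree + G1.natDegree)
    have hdvd : G ∣ T * Q := by
      rw [← Polynomial.map_dvd_map φ hinj hG, Polynomial.map_mul, hT]
      refine ⟨Polynomial.C (φ c) * q1, ?_⟩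
      rw [hG1, hq1]
      ring
    have hT0 := h T hdeg hdvd
    rw [hT0, Polynomial.map_zero] at hT
    rcases mul_eq_zero.1 hT.symm with h0 | h0
    · exact hc' (Polynomial.C_eq_zero.1 h0)
    · exact hG10 h0
  obtain ⟨u, v, huv⟩ := hcop
  obtain ⟨c1, u0, hc1, hu⟩ := ub_den u
  obtain ⟨c2, v0, hc2, hv⟩ := ub_den v
  refine ⟨c1 * c2, Polynomial.C c2 * u0, Polynomial.C c1 * v0, mul_ne_zero hc1 hc2, ?_⟩
  refine Polynomial.map_injective φ hinj ?_
  rw [Polynomial.map_add, Polynomial.map_mul, Polynomial.map_mul, Polynomial.map_mul,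
    Polynomial.map_mul, Polynomial.map_C, Polynomial.map_C, Polynomial.map_C, hu, hv, map_mul,
    Polynomial.C_mul]
  calc Polynomial.C (φ c2) * (Polynomial.C (φ c1) * u) * Q.map φ +
      Polynomial.C (φ c1) * (Polynomial.C (φ c2) * v) * G.map φ
      = Polynomial.C (φ c1) * Polynomial.C (φ c2) * (u * Q.map φ + v * G.map φ) := by ring
    _ = Polynomial.C (φ c1) * Polynomial.C (φ c2) := by rw [huv, mul_one]

end GX
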