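import Pool.Agent.Lib.MP_f80667_ag.Ng.A

/-! Nondegenerate linear forms: linear algebra. -/

open MvPolynomial

namespace GX

variable {κ : Type} [Field κ] {N d n : ℕ} {ι : Type} {f : ι → MvPolynomial (Fin N) κ}

/-- The rows `∂ f_i (x)` and `U_r`. -/
noncomputable def rwm (f : ι → MvPolynomial (Fin N) κ) (x : Fin N → κ) (U : Fin n → Fin N → κ) :
    ι ⊕ Fin n → Fin N → κ := Sum.elim (fun i j => eval x (pderiv j (f i))) U

/-- Proof: the rows span the dual space: otherwise there is `t ≠ 0` orthogonal to all of them (`Submodule.exists_le_ker_of_notMem` or the dual annihilator), `t ∈ tgs f x`; choose a basis of `κ ^ N` among the rows (see `exists_rows` in `Gx/PjGb`). -/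
theorem ndg_rows {x : Fin N → κ} {U : Fin n → Fin N → κ} (h : Ndg f U x) :
    ∃ e : Fin N → ι ⊕ Fin n, (Matrix.of fun k => rwm f x U (e k)).det ≠ 0 := by
  classical
  set V : Submodule κ (Fin N → κ) := Submodule.span κ (Set.range (rwm f x U)) with hV
  have h0 : V.dualAnnihilator = ⊥ := by
    rw [Submodule.eq_bot_iff]
    intro φ hφ
    rw [Submodule.mem_dualAnnihilator] at hφ
    obtain ⟨t, ht⟩ := (dotProductEquiv κ (Fin N)).surjective φ
    have h1 : ∀ w ∈ V, ∑ j, w j * t j = 0 := by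
      intro w hw
      have h2 := hφ w hw
      rw [← ht] at h2
      simp only [dotProductEquiv_apply_apply, dotProduct] at h2
      rw [← h2]
      exact Finset.sum_congr rfl fun j _ => mul_comm _ _
    have h3 : t = 0 := h t (mem_tgs.2 fun i => h1 (rwm f x U (Sum.inl i))
      (Submodule.subset_span ⟨_, rfl⟩)) fun r => h1 (rwm f x U (Sum.inr r))
      (Submodule.subset_span ⟨_, rfl⟩)
    rw [← ht, h3, map_zero]
  have h2 : V = ⊤ := by
    have e3 := Subspace.finrank_add_finrank_dualAnnihilator_eq V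
    rw [h0, finrank_bot, add_zero] at e3
    exact Submodule.eq_top_of_finrank_eq e3
  obtain ⟨K, a, ha, hspan, hli⟩ := exists_linearIndependent' κ (rwm f x U)
  rw [← hV, h2] at hspan
  set B := Module.Basis.mk hli hspan.ge
  set c : K ≃ Fin N := B.indexEquiv (Pi.basisFun κ (Fin N))
  refine ⟨fun k => a (c.symm k), ?_⟩
  have h5 : LinearIndependent κ fun k : Fin N => rwm f x U (a (c.symm k)) :=
    hli.comp _ c.symm.injective
  have h6 := (Matrix.linearIndependent_rows_iff_isUnit
    (A := Matrix.of fun k : Fin N => rwm f x U (a (c.symm k)))).1 h5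
  exact ((Matrix.isUnit_iff_isUnit_det _).1 h6).ne_zero

/-- The converse. Proof: `Matrix.eq_zero_of_mulVec_eq_zero`. -/
theorem ndg_of {x : Fin N → κ} {U : Fin n → Fin N → κ} {e : Fin N → ι ⊕ Fin n}
    (h : (Matrix.of fun k => rwm f x U (e k)).det ≠ 0) : Ndg f U x := by
  intro t ht hU
  refine Matrix.eq_zero_of_mulVec_eq_zero h ?_
  funext k
  change ∑ j, rwm f x U (e k) j * t j = 0
  rcases e k with i | r
  · exact mem_tgs.1 ht i
  · exact hU r

/-- Euler. Proof: `∑ x_j ∂_j f = e f` for `f` homogeneous of degree `e` (`MvPolynomial.IsHomogeneous.sum_X_mul_pderiv`). -/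
theorem self_tgs (hf : ∀ i, ∃ e, (f i).IsHomogeneous e) {x : Fin N → κ}
    (hx : ∀ i, eval x (f i) = 0) : x ∈ tgs f x := by
  rw [mem_tgs]
  intro i
  obtain ⟨e, he⟩ := hf i
  have h1 := congrArg (eval x) he.sum_X_mul_pderiv
  rw [map_sum, map_nsmul, hx i, nsmul_zero] at h1
  rw [← h1]
  exact Finset.sum_congr rfl fun j _ => by rw [map_mul, eval_X, mul_comm]

private theorem exists_inj (T : Submodule κ (Fin N → κ)) {m : ℕ} (hm : Module.finrank κ T ≤ m) :
    ∃ g : T →ₗ[κ] (Fin m → κ), Function.Injective g := by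
  classical
  set b := Module.finBasis κ T
  refine ⟨LinearMap.pi fun r : Fin m => if h : (r : ℕ) < Module.finrank κ T then
    (Finsupp.lapply (⟨r, h⟩ : Fin (Module.finrank κ T))).comp b.repr.toLinearMap else 0, ?_⟩
  rw [← LinearMap.ker_eq_bot, Submodule.eq_bot_iff]
  intro t ht
  rw [LinearMap.mem_ker] at ht
  have h1 : b.repr t = 0 := by
    ext k
    have h2 := congrFun ht ⟨k, k.2.trans_le hm⟩
    rw [LinearMap.pi_apply, dif_pos (show ((⟨k, k.2.trans_le hm⟩ : Fin m) : ℕ) <
      Module.finrank κ T from k.2)] at h2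
    exact h2
  exact (LinearEquiv.map_eq_zero_iff b.repr).1 h1

private theorem exists_UW {x : Fin N → κ} {W : Submodule κ (Fin N → κ)}
    (hx : Module.finrank κ (tgs f x) ≤ d + 1) (hW : IsCompl (tgs f x) W) :
    ∃ U : Fin (d + 1) → Fin N → κ, (∀ w ∈ W, ∀ r, ∑ j, U r j * w j = 0) ∧ Ndg f U x := by
  classical
  obtain ⟨g, hg⟩ := exists_inj (tgs f x) hx
  set L : (Fin N → κ) →ₗ[κ] (Fin (d + 1) → κ) := g.comp (Submodule.projectionOnto _ _ hW)
    with hL
  have h1 : ∀ t r, ∑ j, LinearMap.toMatrix' L r j * t j = L t r := fun t r =>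
    congrFun (LinearMap.toMatrix'_mulVec L t) r
  refine ⟨fun r j => LinearMap.toMatrix' L r j, fun w hw r => ?_, fun t ht h => ?_⟩
  · rw [h1, hL, LinearMap.comp_apply, Submodule.projectionOnto_apply_of_mem_right hW hw, map_zero]
    rfl
  · have h2 : L t = 0 := funext fun r => by
      rw [← h1]
      exact h r
    have h3 : L t = g ⟨t, ht⟩ := by
      rw [hL, LinearMap.comp_apply]
      exact congrArg g (Submodule.projectionOnto_apply_left hW ⟨t, ht⟩)
    rw [h3] at h2
    have h4 := hg (h2.trans (map_zero g).symm)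
    exact congrArg Subtype.val h4

/-- Linear forms which are `0` on a vector outside of the tangent space. Proof: `T = tgs f x`, `finrank T ≤ d + 1`, `T ⊓ span {v} = ⊥`; a linear map `κ ^ N → κ ^ (d + 1)` injective on `T` and `0` on `v` (a complement of `T` which contains `v`: `Submodule.exists_isCompl`; `T` embeds into `κ ^ (d + 1)`); its
matrix. -/
theorem exists_U0 {x v : Fin N → κ} (hx : Module.finrank κ (tgs f x) ≤ d + 1)
    (hv : v ∉ tgs f x) :
    ∃ U : Fin (d + 1) → Fin N → κ, (∀ r, ∑ j, U r j * v j = 0) ∧ Ndg f U x := by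
  have h0 : Disjoint (Submodule.span κ {v}) (tgs f x) := by
    rw [Submodule.disjoint_def]
    intro w hw hw'
    obtain ⟨c, rfl⟩ := Submodule.mem_span_singleton.1 hw
    rcases eq_or_ne c 0 with hc | hc
    · rw [hc, zero_smul]
    · refine absurd ?_ hv
      have h1 := (tgs f x).smul_mem c⁻¹ hw'
      rwa [smul_smul, inv_mul_cancel₀ hc, one_smul] at h1
  obtain ⟨W, hW1, hW2⟩ := h0.exists_isCompl
  obtain ⟨U, hU1, hU2⟩ := exists_UW hx hW2.symm
  exact ⟨U, hU1 v (hW1 (Submodule.mem_span_singleton_self v)), hU2⟩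

/-- The same without a vector. -/
theorem exists_U1 {x : Fin N → κ} (hx : Module.finrank κ (tgs f x) ≤ d + 1) :
    ∃ U : Fin (d + 1) → Fin N → κ, Ndg f U x := by
  obtain ⟨W, hW⟩ := exists_isCompl (tgs f x)
  obtain ⟨U, -, hU⟩ := exists_UW hx hW
  exact ⟨U, hU⟩

end GX
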