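import Pool.Agent.Lib.MP_f80667_ag.Gx.PjL
import Pool.Agent.Lib.MP_f80667_ag.Gx.PjB

/-!
Nonsingular models over a discrete valuation ring: definitions.

* `Rk R κ`: `κ` is a field over the residue field of the discrete valuation ring `R`, algebraic over it; the residue field is infinite.
* `fr κ f`: the polynomials `f_i` modulo the maximal ideal.
* `Gdk f d`: over an (algebraically closed) field: `f = 0` is nonsingular of dimension `d`, and no point of the variety is in all of its tangent spaces.
* `Gdr κ f d`: a model over `R` whose reduction is nonsingular; the generic fibre has dimension at least `d`.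
* `Ndg f U x`: the linear forms `U_r` have no common zero in the tangent space at `x`.
-/

open MvPolynomial

namespace GX

/-- `κ` is a field over the infinite residue field of the discrete valuation ring `R`, algebraic over it. -/
structure Rk (R κ : Type) [CommRing R] [IsDomain R] [IsDiscreteValuationRing R] [Field κ]
    [Algebra R κ] : Prop where
  ker : ∀ r : R, algebraMap R κ r = 0 ↔ r ∈ IsLocalRing.maximalIdeal R
  inf : (Set.range (algebraMap R κ)).Infinite
  int : Algebra.IsIntegral R κ

/-- Modulo the maximal ideal. -/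
noncomputable abbrev fr {R : Type} (κ : Type) [CommRing R] [Field κ] [Algebra R κ] {N : ℕ}
    {ι : Type} (f : ι → MvPolynomial (Fin N) R) : ι → MvPolynomial (Fin N) κ :=
  fun i => map (algebraMap R κ) (f i)

/-- The variety `f = 0` over an algebraically closed field is nonsingular of dimension `d`, and no point of it is in all tangent spaces. -/
structure Gdk {κ : Type} [Field κ] {N : ℕ} {ι : Type} (f : ι → MvPolynomial (Fin N) κ) (d : ℕ) :
    Prop where
  hom : ∀ i, ∃ e, (f i).IsHomogeneous e
  prime : (Ideal.span (Set.range f)).IsPrime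
  dim : Algebra.trdeg κ (MvPolynomial (Fin N) κ ⧸ Ideal.span (Set.range f)) = (d + 1 : ℕ)
  nsg : ∀ x, Zp f x → Module.finrank κ (tgs f x) ≤ d + 1
  ns : ∀ y, Zp f y → ∃ x, Zp f x ∧ y ∉ tgs f x

/-- A model over a discrete valuation ring with nonsingular reduction. -/
structure Gdr {R : Type} (κ : Type) [CommRing R] [Field κ] [Algebra R κ] {N : ℕ} {ι : Type}
    (f : ι → MvPolynomial (Fin N) R) (d : ℕ) : Prop where
  hom : ∀ i, ∃ e, (f i).IsHomogeneous e
  trd : ((d + 1 : ℕ) : Cardinal) ≤
    Algebra.trdeg R (MvPolynomial (Fin N) R ⧸ Ideal.span (Set.range f))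
  red : Gdk (fr κ f) d

/-- The linear forms `U_r` have no common zero in the tangent space at `x`. -/
def Ndg {κ : Type} [Field κ] {N n : ℕ} {ι : Type} (f : ι → MvPolynomial (Fin N) κ)
    (U : Fin n → Fin N → κ) (x : Fin N → κ) : Prop :=
  ∀ t ∈ tgs f x, (∀ r, ∑ j, U r j * t j = 0) → t = 0

/-- A nonzero polynomial is not `0` at a point with coordinates in an infinite subring. -/
theorem exists_ptR {R κ : Type} [CommRing R] [Field κ] [Algebra R κ]
    (h : (Set.range (algebraMap R κ)).Infinite) {σ : Type} [Finite σ]
    {p : MvPolynomial σ κ} (hp : p ≠ 0) :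
    ∃ x : σ → R, eval (fun i => algebraMap R κ (x i)) p ≠ 0 := by
  by_contra hcon
  push Not at hcon
  refine hp (MvPolynomial.funext_set (fun _ => Set.range (algebraMap R κ))
    (fun _ => h) fun x hx => ?_)
  have hx' : ∀ i, ∃ y : R, algebraMap R κ y = x i := fun i => (Set.mem_univ_pi.mp hx) i
  choose y hy using hx'
  have hxy : x = fun i => algebraMap R κ (y i) := funext fun i => (hy i).symm
  rw [hxy, hcon y, map_zero]

attribute [local instance] MvPolynomial.gradedAlgebra in
/-- The components of a member of an ideal generated by homogeneous polynomials. -/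
theorem comp_memR {R : Type} [CommRing R] {N : ℕ} {ι : Type} {f : ι → MvPolynomial (Fin N) R}
    (hf : ∀ i, ∃ e, (f i).IsHomogeneous e) {a : MvPolynomial (Fin N) R}
    (ha : a ∈ Ideal.span (Set.range f)) (n : ℕ) :
    homogeneousComponent n a ∈ Ideal.span (Set.range f) := by
  refine homogeneousComponent_mem_of_mem (Ideal.homogeneous_span _ _ ?_) ha n
  rintro _ ⟨i, rfl⟩
  obtain ⟨e, he⟩ := hf i
  exact ⟨e, he⟩

end GX
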