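import Pool.Agent.Lib.MP_f80667_ag.Ng.A

/-! Transcendence degree of an algebra. -/

open MvPolynomial

namespace GX

variable {F : Type} [Field F]

/-- Proof: `Algebra.trdeg` is the supremum of the cardinalities of the algebraically independent sets; a set with more than `e` elements contains a finite subset with `e + 1` elements. -/
theorem trd_le {A : Type} [CommRing A] [Algebra F A] {e : ℕ}
    (h : ∀ (s : ℕ) (z : Fin s → A), AlgebraicIndependent F z → s ≤ e) :
    Algebra.trdeg F A ≤ (e : ℕ) := by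
  rw [Algebra.trdeg]
  refine ciSup_le' fun ι => ?_
  by_contra hlt
  rw [not_le] at hlt
  have h1 : ((e + 1 : ℕ) : Cardinal) ≤ Cardinal.mk ι.1 := by
    rw [← Nat.succ_eq_add_one, Cardinal.nat_succ]
    exact Order.succ_le_of_lt hlt
  rw [← Cardinal.mk_fin (e + 1), Cardinal.le_def] at h1
  obtain ⟨f⟩ := h1
  have h2 : AlgebraicIndependent F (fun i : Fin (e + 1) => ((f i : ι.1) : A)) :=
    AlgebraicIndependent.comp (x := ((↑) : ι.1 → A)) ι.2 f f.injective
  have := h (e + 1) _ h2
  omega

/-- The converse. Proof: `AlgebraicIndependent.cardinalMk_le_trdeg`. -/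
theorem le_trd {A : Type} [CommRing A] [Algebra F A] {e : ℕ} (h : Algebra.trdeg F A ≤ (e : ℕ))
    {s : ℕ} {z : Fin s → A} (hz : AlgebraicIndependent F z) : s ≤ e := by
  have h1 := hz.cardinalMk_le_trdeg.trans h
  rw [Cardinal.mk_fin] at h1
  exact_mod_cast h1

theorem trd_quotR {A : Type} [CommRing A] [IsDomain A] [Algebra F A] {n : ℕ}
    (hA : Algebra.trdeg F A ≤ (n + 1 : ℕ)) {g : A} (hg : g ≠ 0) :
    Algebra.trdeg F (A ⧸ Ideal.span {g}) ≤ (n : ℕ) :=
  trd_le fun _ _ hz => trd_quot hA hg hz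

end GX
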