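import Pool.Agent.Lib.MP_f80667_ag.Ng.Ab

/-! Transcendence degree and minimal prime ideals. -/

open MvPolynomial

namespace GX

variable {F : Type} [Field F]

/-- The dimension is the maximum of the dimensions of the components. Proof: `trd_le`: if `z : Fin s → A ⧸ J` is algebraically independent, then `MvPolynomial (Fin s) F → A ⧸ J` is injective, so there is a prime ideal of `A ⧸ J`
with intersection `0` with the image (`Ideal.exists_comap_eq_of_mem_minimalPrimes_of_injective`); its preimage in `A` contains a minimal prime ideal `P` of `J` (`Ideal.exists_minimalPrimes_le`); the images of `z` in the quotient are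
algebraically independent, they are images of elements of `A ⧸ P` (`AlgebraicIndependent.of_comp`); `le_trd`. -/
theorem trd_min {A : Type} [CommRing A] [Algebra F A] {J : Ideal A} {e : ℕ}
    (h : ∀ P ∈ J.minimalPrimes, Algebra.trdeg F (A ⧸ P) ≤ (e : ℕ)) :
    Algebra.trdeg F (A ⧸ J) ≤ (e : ℕ) := by
  refine trd_le fun s z hz => ?_
  have hinj : Function.Injective (aeval z : MvPolynomial (Fin s) F →ₐ[F] A ⧸ J).toRingHom := hz
  obtain ⟨q, hq, hqc⟩ := Ideal.exists_comap_eq_of_mem_minimalPrimes_of_injective hinj ⊥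
    (by rw [IsDomain.minimalPrimes_eq_singleton_bot]; exact Set.mem_singleton _)
  have hle : J ≤ q.comap (Ideal.Quotient.mk J) := by
    intro a ha
    rw [Ideal.mem_comap, Ideal.Quotient.eq_zero_iff_mem.mpr ha]
    exact q.zero_mem
  obtain ⟨P, hP, hPq⟩ := Ideal.exists_minimalPrimes_le hle
  choose w hw using fun i => Ideal.Quotient.mk_surjective (z i)
  let g : A ⧸ P →ₐ[F] (A ⧸ J) ⧸ q := Ideal.Quotient.liftₐ P
    ((Ideal.Quotient.mkₐ F q).comp (Ideal.Quotient.mkₐ F J)) (fun a ha =>
      Ideal.Quotient.eq_zero_iff_mem.mpr (hPq ha))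
  have h1 : (g ∘ fun i => Ideal.Quotient.mk P (w i)) = (Ideal.Quotient.mkₐ F q) ∘ z := by
    funext i
    change g (Ideal.Quotient.mk P (w i)) = Ideal.Quotient.mk q (z i)
    rw [← hw i]
    rfl
  have h2 : AlgebraicIndependent F ((Ideal.Quotient.mkₐ F q) ∘ z) := by
    have h3 : (aeval ((Ideal.Quotient.mkₐ F q) ∘ z) :
        MvPolynomial (Fin s) F →ₐ[F] (A ⧸ J) ⧸ q) =
        (Ideal.Quotient.mkₐ F q).comp (aeval z) := by
      ext i
      simp
    change Function.Injective (aeval ((Ideal.Quotient.mkₐ F q) ∘ z) :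
        MvPolynomial (Fin s) F →ₐ[F] (A ⧸ J) ⧸ q)
    rw [h3, injective_iff_map_eq_zero]
    intro p hp
    have h4 : aeval z p ∈ q := Ideal.Quotient.eq_zero_iff_mem.mp hp
    have h5 : p ∈ q.comap (aeval z : MvPolynomial (Fin s) F →ₐ[F] A ⧸ J).toRingHom := h4
    rw [hqc] at h5
    exact h5
  rw [← h1] at h2
  exact le_trd (h P hP) (AlgebraicIndependent.of_comp g h2)

end GX
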