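import Pool.Agent.Lib.MP_f80667_ag.Ng.A

/-! Linear forms outside of finitely many ideals. -/

open MvPolynomial

namespace GX

/-- A linear form with coefficients in `R` outside of finitely many ideals none of which contains all variables. Proof: for an ideal `P` with `X j₀ ∉ P` the vectors `a` with `lf a ∈ P` are a proper subspace of `κ ^ N`; so there is a functional
`ℓ ≠ 0` of `κ ^ N` which is `0` on it (`Submodule.exists_le_ker_of_notMem`), `ℓ a = ∑ c_j a_j`, that is a polynomial `∑ c_j X_j ≠ 0` in `N` variables; `exists_ptR` for the product of these polynomials. -/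
theorem exists_lfR {R κ : Type} [CommRing R] [Field κ] [Algebra R κ]
    (h : (Set.range (algebraMap R κ)).Infinite) {N : ℕ}
    {S : Set (Ideal (MvPolynomial (Fin N) κ))} (hS : S.Finite)
    (hP : ∀ P ∈ S, ∃ j, (X j : MvPolynomial (Fin N) κ) ∉ P) :
    ∃ u : Fin N → R, ∀ P ∈ S, lf (fun j => algebraMap R κ (u j)) ∉ P := by
  classical
  have key : ∀ P ∈ S, ∃ l : (Fin N → κ) →ₗ[κ] κ, l ≠ 0 ∧ ∀ a : Fin N → κ, lf a ∈ P → l a = 0 := by
    intro P hPS
    obtain ⟨j, hj⟩ := hP P hPS
    let W : Submodule κ (Fin N → κ) :=
      { carrier := {a | lf a ∈ P}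
        add_mem' := by
          intro a b ha hb
          have : lf (a + b) = lf a + lf b := by
            simp only [lf, Pi.add_apply, C_add, add_mul, Finset.sum_add_distrib]
          show lf (a + b) ∈ P
          rw [this]
          exact P.add_mem ha hb
        zero_mem' := by
          have : lf (0 : Fin N → κ) = 0 := by
            simp only [lf, Pi.zero_apply, C_0, zero_mul, Finset.sum_const_zero]
          show lf (0 : Fin N → κ) ∈ P
          rw [this]
          exact P.zero_mem
        smul_mem' := by
          intro c a ha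
          have : lf (c • a) = C c * lf a := by
            simp only [lf, Pi.smul_apply, smul_eq_mul, C_mul, Finset.mul_sum, mul_assoc]
          show lf (c • a) ∈ P
          rw [this]
          exact P.mul_mem_left _ ha }
    have hW : Pi.single j (1 : κ) ∉ W := by
      intro hc
      apply hj
      have h1 : lf (Pi.single j (1 : κ)) = X j := by
        unfold lf
        rw [Finset.sum_eq_single j]
        · rw [Pi.single_eq_same, C_1, one_mul]
        · intro b _ hb
          rw [Pi.single_eq_of_ne hb, C_0, zero_mul]
        · intro hb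
          exact absurd (Finset.mem_univ j) hb
      rw [← h1]
      exact hc
    obtain ⟨l, hl, hl2⟩ := Submodule.exists_le_ker_of_notMem hW
    refine ⟨l, fun h0 => hl (by rw [h0]; rfl), fun a ha => ?_⟩
    exact LinearMap.mem_ker.mp (hl2 ha)
  choose! l hl hl2 using key
  let q : Ideal (MvPolynomial (Fin N) κ) → MvPolynomial (Fin N) κ :=
    fun P => ∑ j, C (l P (Pi.single j 1)) * X j
  have hev : ∀ P (x : Fin N → κ), eval x (q P) = l P x := by
    intro P x
    have h1 : x = ∑ j, x j • Pi.single j (1 : κ) := by
      ext i
      rw [Finset.sum_apply, Finset.sum_eq_single i]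
      · simp
      · intro b _ hb
        simp [Pi.single_eq_of_ne hb.symm]
      · intro hb
        exact absurd (Finset.mem_univ i) hb
    conv_rhs => rw [h1, map_sum]
    simp only [q, map_sum, map_mul, eval_C, eval_X, map_smul, smul_eq_mul]
    exact Finset.sum_congr rfl fun j _ => mul_comm _ _
  have hq : ∀ P ∈ S, q P ≠ 0 := by
    intro P hPS h0
    apply hl P hPS
    ext1 x
    have := hev P (fun i => (LinearMap.single κ (fun _ : Fin N => κ) x 1 : Fin N → κ) i)
    rw [h0, map_zero] at this
    ext
    simpa using this.symm
  obtain ⟨u, hu⟩ := exists_ptR h (p := ∏ P ∈ hS.toFinset, q P)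
    (Finset.prod_ne_zero_iff.mpr fun P hPm => hq P (hS.mem_toFinset.mp hPm))
  refine ⟨u, fun P hPS hmem => hu ?_⟩
  rw [map_prod]
  apply Finset.prod_eq_zero (hS.mem_toFinset.mpr hPS)
  rw [hev]
  exact hl2 P hPS _ hmem

end GX
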