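import Pool.Agent.Lib.MP_f80667_ag.Ng.Ac
import Pool.Agent.Lib.MP_f80667_ag.Ng.B

/-! Homogeneous Noether normalization with linear forms over a subring. -/

open MvPolynomial

namespace GX

variable {R κ : Type} [CommRing R] [Field κ] [Algebra R κ] {N : ℕ}

/-- Dimension `0`. Proof: the class of `X k` is not transcendental over `κ` (`le_trd` for `Fin 1`): `aeval (X k) p ∈ J` for a polynomial `p ≠ 0` in one variable; the components of `aeval (X k) p` are the `a_n X_k ^ n`, one of the `a_n` is not `0`. -/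
theorem hn_zero {J : Ideal (MvPolynomial (Fin N) κ)}
    (hJ : ∀ g ∈ J, ∀ n, homogeneousComponent n g ∈ J)
    (ht : Algebra.trdeg κ (MvPolynomial (Fin N) κ ⧸ J) ≤ (0 : ℕ)) (k : Fin N) :
    ∃ s, (X k : MvPolynomial (Fin N) κ) ^ s ∈ J := by
  have h0 : Algebra.trdeg κ (MvPolynomial (Fin N) κ ⧸ J) = 0 := by
    refine le_antisymm ?_ bot_le
    simpa using ht
  have halg := _root_.trdeg_eq_zero_iff.1 h0
  obtain ⟨p, hp0, hp⟩ := halg.isAlgebraic (Ideal.Quotient.mkₐ κ J (X k))
  rw [Polynomial.aeval_algHom_apply] at hp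
  have hpJ : Polynomial.aeval (X k : MvPolynomial (Fin N) κ) p ∈ J :=
    Ideal.Quotient.eq_zero_iff_mem.1 hp
  have hc := hJ _ hpJ p.natDegree
  rw [Polynomial.aeval_eq_sum_range, map_sum] at hc
  have h1 : ∀ i ∈ Finset.range (p.natDegree + 1),
      homogeneousComponent p.natDegree (p.coeff i • (X k : MvPolynomial (Fin N) κ) ^ i) =
        if i = p.natDegree then p.coeff i • (X k : MvPolynomial (Fin N) κ) ^ i else 0 := by
    intro i _
    rw [map_smul]
    have h2 : (X k : MvPolynomial (Fin N) κ) ^ i ∈ homogeneousSubmodule (Fin N) κ i := by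
      have h3 := (isHomogeneous_X κ k).pow i
      rw [one_mul] at h3
      exact h3
    rw [homogeneousComponent_of_mem h2]
    by_cases hi : i = p.natDegree
    · rw [if_pos hi, if_pos hi.symm]
    · rw [if_neg hi, if_neg (Ne.symm hi), smul_zero]
  rw [Finset.sum_congr rfl h1, Finset.sum_ite_eq', if_pos (by simp)] at hc
  refine ⟨p.natDegree, ?_⟩
  have hl : p.coeff p.natDegree ≠ 0 := by
    rw [Polynomial.coeff_natDegree]
    exact Polynomial.leadingCoeff_ne_zero.2 hp0
  have h4 := J.mul_mem_left (C (p.coeff p.natDegree)⁻¹) hc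
  rw [MvPolynomial.smul_eq_C_mul, ← mul_assoc, ← C_mul, inv_mul_cancel₀ hl, C_1, one_mul] at h4
  exact h4

private theorem trd_zero {P : Ideal (MvPolynomial (Fin N) κ)} (hP : ∀ j, (X j) ∈ P) :
    Algebra.trdeg κ (MvPolynomial (Fin N) κ ⧸ P) = 0 := by
  rw [_root_.trdeg_eq_zero_iff]
  constructor
  intro x
  obtain ⟨g, rfl⟩ := Ideal.Quotient.mk_surjective x
  have h : Ideal.Quotient.mk P g = algebraMap κ (MvPolynomial (Fin N) κ ⧸ P) (constantCoeff g) := by
    rw [← sub_eq_zero]
    have h2 : algebraMap κ (MvPolynomial (Fin N) κ ⧸ P) (constantCoeff g) =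
        Ideal.Quotient.mk P (C (constantCoeff g)) := rfl
    rw [h2, ← map_sub, Ideal.Quotient.eq_zero_iff_mem]
    clear h2
    induction g using MvPolynomial.induction_on with
    | C a => simp
    | add p q hp hq =>
      have h3 : p + q - C (constantCoeff (p + q)) =
          (p - C (constantCoeff p)) + (q - C (constantCoeff q)) := by
        rw [map_add, C_add]
        ring
      rw [h3]
      exact P.add_mem hp hq
    | mul_X p j _ =>
      rw [map_mul, constantCoeff_X, mul_zero, C_0, sub_zero]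
      exact P.mul_mem_left _ (hP j)
  rw [h]
  exact isAlgebraic_algebraMap _

/-- A linear form which cuts all components down. Proof: the minimal prime ideals `P` of `J` are finitely many (`Ideal.finite_minimalPrimes_of_isNoetherianRing`); `exists_lfR` for those which do not contain all `X j`. Let `u` be the linear form over `κ`, `J' = J ⊔ span {u}`.
`trd_min`: a minimal prime ideal `P'` of `J'` contains a minimal prime ideal `P` of `J`. If `P` contains all `X j`, the homomorphism from `κ` to the quotient modulo `P'` is surjective: the transcendence degree is `0`. Otherwise `u ∉ P`, and the quotient modulo `P'` is an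
image of `(A ⧸ P) ⧸ (u)`, `A ⧸ P` is an image of `A ⧸ J` (`Algebra.trdeg_le_of_surjective`); `trd_quotR`. -/
theorem hn_step (h : (Set.range (algebraMap R κ)).Infinite) {e : ℕ}
    {J : Ideal (MvPolynomial (Fin N) κ)}
    (ht : Algebra.trdeg κ (MvPolynomial (Fin N) κ ⧸ J) ≤ (e + 1 : ℕ)) :
    ∃ u : Fin N → R, Algebra.trdeg κ (MvPolynomial (Fin N) κ ⧸
      (J ⊔ Ideal.span {lf fun j => algebraMap R κ (u j)})) ≤ (e : ℕ) := by
  have hfin : {P ∈ J.minimalPrimes | ∃ j, (X j : MvPolynomial (Fin N) κ) ∉ P}.Finite :=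
    (Ideal.finite_minimalPrimes_of_isNoetherianRing _ J).subset fun P hP => hP.1
  obtain ⟨u, hu⟩ := exists_lfR h hfin fun P hP => hP.2
  refine ⟨u, trd_min fun P' hP' => ?_⟩
  have hP'p : P'.IsPrime := hP'.1.1
  have hJ' : J ⊔ Ideal.span {lf fun j => algebraMap R κ (u j)} ≤ P' := hP'.1.2
  have hJ1 : J ≤ P' := le_sup_left.trans hJ'
  have hg : lf (fun j => algebraMap R κ (u j)) ∈ P' :=
    hJ' (le_sup_right (a := J) (Ideal.subset_span rfl))
  obtain ⟨P, hP, hPP'⟩ := Ideal.exists_minimalPrimes_le hJ1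
  have hPp : P.IsPrime := hP.1.1
  by_cases hX : ∃ j, (X j : MvPolynomial (Fin N) κ) ∉ P
  · have hgP := hu P ⟨hP, hX⟩
    have h1 : Algebra.trdeg κ (MvPolynomial (Fin N) κ ⧸ P) ≤ (e + 1 : ℕ) :=
      (_root_.trdeg_le_of_surjective (Ideal.Quotient.factorₐ κ hP.1.2)
        (Ideal.Quotient.factor_surjective hP.1.2)).trans ht
    have hg0 : Ideal.Quotient.mk P (lf (fun j => algebraMap R κ (u j))) ≠ 0 := fun h0 =>
      hgP (Ideal.Quotient.eq_zero_iff_mem.1 h0)
    have h2 := trd_quotR h1 hg0
    let φ : (MvPolynomial (Fin N) κ ⧸ P) →ₐ[κ] (MvPolynomial (Fin N) κ ⧸ P') :=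
      Ideal.Quotient.factorₐ κ hPP'
    have hφ : ∀ a ∈ Ideal.span {Ideal.Quotient.mk P (lf (fun j => algebraMap R κ (u j)))},
        φ a = 0 := by
      intro a ha
      obtain ⟨b, rfl⟩ := Ideal.mem_span_singleton'.1 ha
      have h3 : φ (Ideal.Quotient.mk P (lf (fun j => algebraMap R κ (u j)))) = 0 :=
        Ideal.Quotient.eq_zero_iff_mem.2 hg
      rw [map_mul, h3, mul_zero]
    refine (_root_.trdeg_le_of_surjective (Ideal.Quotient.liftₐ _ φ hφ) ?_).trans h2
    intro y
    obtain ⟨x, hx⟩ := Ideal.Quotient.factor_surjective hPP' y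
    exact ⟨Ideal.Quotient.mk _ x, hx⟩
  · push Not at hX
    rw [trd_zero fun j => hPP' (hX j)]
    exact bot_le

end GX
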