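import Pool.Agent.Lib.MP_f80667_ag.Ng.Bb

/-! Homogeneous Noether normalization with linear forms over a subring. -/

open MvPolynomial

namespace GX

variable {R κ : Type} [CommRing R] [Field κ] [Algebra R κ] {N : ℕ}

private theorem hn_lf (a : Fin N → κ) : (lf a).IsHomogeneous 1 := by
  unfold lf
  exact IsHomogeneous.sum _ _ _ fun j _ => isHomogeneous_C_mul_X _ _

private theorem hn_hom {J : Ideal (MvPolynomial (Fin N) κ)}
    (hJ : ∀ g ∈ J, ∀ n, homogeneousComponent n g ∈ J) {l : MvPolynomial (Fin N) κ}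
    (hl : l.IsHomogeneous 1) :
    ∀ g ∈ J ⊔ Ideal.span {l}, ∀ n, homogeneousComponent n g ∈ J ⊔ Ideal.span {l} := by
  intro g hg n
  obtain ⟨a, ha, b, hb, rfl⟩ := Submodule.mem_sup.mp hg
  rw [map_add]
  have e : Ideal.span (Set.range fun _ : Unit => l) = Ideal.span {l} := by
    rw [Set.range_const]
  refine add_mem (Ideal.mem_sup_left (hJ a ha n)) (Ideal.mem_sup_right ?_)
  rw [← e] at hb ⊢
  exact comp_memR (fun _ => ⟨1, hl⟩) hb n

/-- **Homogeneous Noether normalization.** Proof: induction on `e` (for all `J`): `hn_zero`, `hn_step`; the ideal `J ⊔ span {u}` is homogeneous too: the component of degree `n` of `a + b u` is (component of `a`) + (component of degree `n - 1` of `b`) `u`; `Fin.cons`. -/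
theorem exists_hn (h : (Set.range (algebraMap R κ)).Infinite) (e : ℕ)
    {J : Ideal (MvPolynomial (Fin N) κ)} (hJ : ∀ g ∈ J, ∀ n, homogeneousComponent n g ∈ J)
    (ht : Algebra.trdeg κ (MvPolynomial (Fin N) κ ⧸ J) ≤ (e : ℕ)) :
    ∃ U : Fin e → Fin N → R, ∀ k, ∃ s, (X k : MvPolynomial (Fin N) κ) ^ s ∈
      J ⊔ Ideal.span (Set.range fun r => lf fun j => algebraMap R κ (U r j)) := by
  induction e generalizing J with
  | zero =>
    refine ⟨fun r => r.elim0, fun k => ?_⟩
    obtain ⟨s, hs⟩ := hn_zero hJ ht k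
    exact ⟨s, Ideal.mem_sup_left hs⟩
  | succ e ih =>
    obtain ⟨u, hu⟩ := hn_step (R := R) h ht
    obtain ⟨U, hU⟩ := ih (hn_hom hJ (hn_lf _)) hu
    refine ⟨Fin.cons u U, fun k => ?_⟩
    obtain ⟨s, hs⟩ := hU k
    refine ⟨s, ?_⟩
    refine (show (J ⊔ Ideal.span {lf fun j => algebraMap R κ (u j)}) ⊔
      Ideal.span (Set.range fun r => lf fun j => algebraMap R κ (U r j)) ≤ _ from ?_) hs
    refine sup_le (sup_le le_sup_left (le_sup_of_le_right ?_)) (le_sup_of_le_right ?_)
    · rw [Ideal.span_singleton_le_iff_mem]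
      exact Ideal.subset_span ⟨0, rfl⟩
    · rw [Ideal.span_le]
      rintro _ ⟨r, rfl⟩
      exact Ideal.subset_span ⟨r.succ, rfl⟩

end GX
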