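import Pool.Agent.Lib.MP_f80667_ag.Ng.A
import Pool.Agent.Lib.MP_f80667_ag.Gx.PjE

/-! Membership modulo the maximal ideal. -/

open MvPolynomial

namespace GX

variable {R κ : Type} [CommRing R] [IsDomain R] [IsDiscreteValuationRing R] [Field κ]
  [Algebra R κ] {N : ℕ} {ι : Type}

/-- Descent from `κ` to the residue field. Proof: `k = IsLocalRing.ResidueField R`, `κ` is an algebra over `k` (`Ideal.Quotient.lift`, `hR.ker`), `l : κ → k` a `k`-linear map with `l 1 = 1` (`exists_leftInverse..`, `LinearMap.exists_leftInverse_of_injective`).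
Let `a = ∑ h_i f_i` over `κ`; the coefficientwise image under `l` (`pje_mul`, `exists_lc`, `jf_coeff` of `Gx/PjE`, used with `F = k`): `a mod 𝔪` is in the ideal of the `f_i mod 𝔪` in `k[x]`; lift the coefficients to `R`: the difference has coefficients in
the maximal ideal (`MvPolynomial.mem_map_C_iff`). -/
theorem red_mem (hR : Rk R κ) {f : ι → MvPolynomial (Fin N) R} {a : MvPolynomial (Fin N) R}
    (ha : map (algebraMap R κ) a ∈ Ideal.span (Set.range (fr κ f))) :
    a ∈ Ideal.span (Set.range f) ⊔
      (IsLocalRing.maximalIdeal R).map (C : R →+* MvPolynomial (Fin N) R) := by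
  classical
  let j : IsLocalRing.ResidueField R →+* κ :=
    Ideal.Quotient.lift (IsLocalRing.maximalIdeal R) (algebraMap R κ)
      (fun r hr => (hR.ker r).2 hr)
  have hj : ∀ r : R, j (IsLocalRing.residue R r) = algebraMap R κ r := fun r =>
    Ideal.Quotient.lift_mk _ _ _
  letI : Algebra (IsLocalRing.ResidueField R) κ := j.toAlgebra
  have hjj : ∀ r : R, algebraMap (IsLocalRing.ResidueField R) κ (IsLocalRing.residue R r)
      = algebraMap R κ r := hj
  have hcomp : (algebraMap (IsLocalRing.ResidueField R) κ).comp (IsLocalRing.residue R)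
      = algebraMap R κ := RingHom.ext hjj
  obtain ⟨l, hl⟩ := LinearMap.exists_leftInverse_of_injective
    (Algebra.linearMap (IsLocalRing.ResidueField R) κ)
    (LinearMap.ker_eq_bot.2 (algebraMap (IsLocalRing.ResidueField R) κ).injective)
  have hl' : ∀ c : IsLocalRing.ResidueField R,
      l (algebraMap (IsLocalRing.ResidueField R) κ c) = c := fun c => by
    have := LinearMap.congr_fun hl c
    simpa using this
  have hmap : ∀ p : MvPolynomial (Fin N) R,
      map (algebraMap (IsLocalRing.ResidueField R) κ) (map (IsLocalRing.residue R) p)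
        = map (algebraMap R κ) p := fun p => by
    rw [MvPolynomial.map_map, hcomp]
  have h1 : map (IsLocalRing.residue R) a
      ∈ Ideal.span (Set.range fun i => map (IsLocalRing.residue R) (f i)) := by
    refine jf_coeff (κ := κ) l (g := map (algebraMap R κ) a) ?_ ?_
    · have : (fun i => map (algebraMap (IsLocalRing.ResidueField R) κ)
          ((fun i => map (IsLocalRing.residue R) (f i)) i)) = fr κ f := by
        funext i
        exact hmap (f i)
      change _ ∈ Ideal.span (Set.range fun i => map (algebraMap (IsLocalRing.ResidueField R) κ)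
          ((fun i => map (IsLocalRing.residue R) (f i)) i))
      rw [this]
      exact ha
    · intro m
      rw [coeff_map, coeff_map, ← hjj, hl']
  have h2 : Ideal.span (Set.range fun i => map (IsLocalRing.residue R) (f i))
      = (Ideal.span (Set.range f)).map (map (IsLocalRing.residue R)) := by
    rw [Ideal.map_span, ← Set.range_comp]
    rfl
  rw [h2, Ideal.mem_map_iff_of_surjective _
    (MvPolynomial.map_surjective _ IsLocalRing.residue_surjective)] at h1
  obtain ⟨b, hb, hba⟩ := h1
  have h3 : a - b ∈ (IsLocalRing.maximalIdeal R).map (C : R →+* MvPolynomial (Fin N) R) := by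
    rw [MvPolynomial.mem_map_C_iff]
    intro m
    have h4 : coeff m (map (IsLocalRing.residue R) (a - b)) = 0 := by
      rw [map_sub, hba, sub_self, coeff_zero]
    rw [coeff_map] at h4
    exact (IsLocalRing.residue_eq_zero_iff _).1 h4
  have h5 : a = b + (a - b) := by ring
  rw [h5]
  exact Submodule.add_mem_sup hb h3

end GX
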