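import Pool.Agent.Lib.MP_f80667_ag.Ng.C

/-! Graded Nakayama. -/

open MvPolynomial

namespace GX

variable {R κ : Type} [CommRing R] [IsDomain R] [IsDiscreteValuationRing R] [Field κ]
  [Algebra R κ] {N : ℕ} {ι : Type}

/-- Nakayama in one degree. Proof: `homogeneousSubmodule (Fin N) R n` is a finite `R`-module (spanned by the monomials of degree `n`), `M₀` = the homogeneous polynomials of degree `n` in the ideal, a submodule of `M`; for `a ∈ M`: `red_mem` and the component of degree `n` (`comp_memR`): `a ∈ M₀ + 𝔪 M`. `Submodule.le_of_le_smul_of_le_jacobson_bot` for `M` and `M₀`. (`a = b + c`, `b` in the ideal, `c = π c'`, `c ∈ M` by `hfM`, `c' ∈ M` by `hs`; `M` is finitely generated because it is contained in the Noetherian module `homogeneousSubmodule (Fin N) R n`.) -/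
theorem nak_deg (hR : Rk R κ) {f : ι → MvPolynomial (Fin N) R}
    (hf : ∀ i, ∃ e, (f i).IsHomogeneous e) {n : ℕ}
    {M : Submodule R (MvPolynomial (Fin N) R)} (hM : ∀ a ∈ M, a.IsHomogeneous n)
    (hs : ∀ (r : R) (a : MvPolynomial (Fin N) R), r ≠ 0 → r • a ∈ M → a ∈ M)
    (h : ∀ a ∈ M, map (algebraMap R κ) a ∈ Ideal.span (Set.range (fr κ f)))
    (hfM : ∀ a ∈ Ideal.span (Set.range f), a.IsHomogeneous n → a ∈ M) :
    ∀ a ∈ M, a ∈ Ideal.span (Set.range f) := by
  obtain ⟨π, hπ⟩ := IsDiscreteValuationRing.exists_irreducible R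
  have hπ0 : π ≠ 0 := hπ.ne_zero
  have hπm : IsLocalRing.maximalIdeal R = Ideal.span {π} := hπ.maximalIdeal_eq
  have hMle : M ≤ homogeneousSubmodule (Fin N) R n := fun a ha =>
    (mem_homogeneousSubmodule n a).mpr (hM a ha)
  have hfg : M.FG := (homogeneousSubmodule_fg (Fin N) R n).of_le hMle
  let M₀ : Submodule R (MvPolynomial (Fin N) R) :=
    (Ideal.span (Set.range f)).restrictScalars R ⊓ M
  have key : M ≤ M₀ := by
    refine Submodule.le_of_le_smul_of_le_jacobson_bot (I := IsLocalRing.maximalIdeal R) hfg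
      (IsLocalRing.maximalIdeal_le_jacobson ⊥) ?_
    intro a ha
    have h1 := red_mem hR (h a ha)
    obtain ⟨b, hb, c, hc, hbc⟩ := Submodule.mem_sup.mp h1
    have ha' : homogeneousComponent n a = a := homogeneousComponent_of_mem (hM a ha) |>.trans (if_pos rfl)
    have hb1 : homogeneousComponent n b ∈ Ideal.span (Set.range f) := comp_memR hf hb n
    have hb2 : homogeneousComponent n b ∈ M :=
      hfM _ hb1 (homogeneousComponent_isHomogeneous n b)
    have hc1 : (C π : MvPolynomial (Fin N) R) ∣ homogeneousComponent n c := by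
      rw [C_dvd_iff_dvd_coeff]
      intro i
      rw [coeff_homogeneousComponent]
      split_ifs
      · have := mem_map_C_iff.mp hc i
        rw [hπm] at this
        exact Ideal.mem_span_singleton.mp this
      · exact dvd_zero _
    obtain ⟨d, hd⟩ := hc1
    have hsum : homogeneousComponent n b + homogeneousComponent n c = a := by
      rw [← map_add, hbc, ha']
    have hc2 : homogeneousComponent n c ∈ M := by
      have : homogeneousComponent n c = a - homogeneousComponent n b := by
        rw [← hsum, add_sub_cancel_left]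
      rw [this]
      exact M.sub_mem ha hb2
    have hd2 : d ∈ M := by
      refine hs π d hπ0 ?_
      rw [smul_eq_C_mul, ← hd]
      exact hc2
    rw [← hsum]
    refine Submodule.add_mem_sup ⟨hb1, hb2⟩ ?_
    rw [hd, ← smul_eq_C_mul]
    refine Submodule.smul_mem_smul ?_ hd2
    rw [hπm]
    exact Ideal.mem_span_singleton_self π
  exact fun a ha => (key ha).1

/-- **Graded Nakayama.** Proof: let `X k ^ s k` be in the ideal over `κ`, `n = N * (max of the s k) + 1`; every monomial of degree `n` is over `κ` a multiple of one of the `X k ^ s k`; `nak_deg` for `M = homogeneousSubmodule (Fin N) R n`: `X k ^ n` is in the ideal. -/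
theorem nakR (hR : Rk R κ) {f : ι → MvPolynomial (Fin N) R}
    (hf : ∀ i, ∃ e, (f i).IsHomogeneous e)
    (h : ∀ k, ∃ s, (X k : MvPolynomial (Fin N) κ) ^ s ∈ Ideal.span (Set.range (fr κ f))) :
    ∃ s, ∀ k, (X k : MvPolynomial (Fin N) R) ^ s ∈ Ideal.span (Set.range f) := by
  choose s hs using h
  let S : ℕ := ∑ k, s k
  have hS : ∀ k, s k ≤ S := fun k => Finset.single_le_sum (f := s) (fun _ _ => Nat.zero_le _)
    (Finset.mem_univ k)
  refine ⟨N * S + 1, fun k => ?_⟩
  refine nak_deg hR hf (n := N * S + 1) (M := homogeneousSubmodule (Fin N) R (N * S + 1))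
    (fun a ha => (mem_homogeneousSubmodule _ a).mp ha) ?_ ?_ ?_ _ ?_
  · intro r a hr ha
    rw [mem_homogeneousSubmodule] at ha ⊢
    intro d hd
    refine ha ?_
    rw [coeff_smul, smul_eq_mul]
    exact mul_ne_zero hr hd
  · intro a ha
    have hh : (map (algebraMap R κ) a).IsHomogeneous (N * S + 1) :=
      ((mem_homogeneousSubmodule _ a).mp ha).map _
    rw [(map (algebraMap R κ) a).as_sum]
    refine Ideal.sum_mem _ (fun d hd => ?_)
    have hdeg : ∑ i, d i = N * S + 1 := by
      have h1 := hh (mem_support_iff.mp hd)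
      rw [Finsupp.weight_apply, Finsupp.sum_fintype] at h1
      · simpa using h1
      · intro i
        simp
    obtain ⟨k, hk⟩ : ∃ k, S ≤ d k := by
      by_contra hcon
      push Not at hcon
      have h2 : ∑ i, d i ≤ ∑ _i : Fin N, S := Finset.sum_le_sum (fun i _ => (hcon i).le)
      rw [Finset.sum_const, Finset.card_univ, Fintype.card_fin, smul_eq_mul] at h2
      omega
    have hk' : s k ≤ d k := (hS k).trans hk
    have hdvd : (X k : MvPolynomial (Fin N) κ) ^ s k ∣
        monomial d (coeff d (map (algebraMap R κ) a)) := by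
      rw [X_pow_eq_monomial, monomial_dvd_monomial]
      refine ⟨Or.inr ?_, one_dvd _⟩
      rw [Finsupp.single_le_iff]
      exact hk'
    exact Ideal.mem_of_dvd _ hdvd (hs k)
  · intro a _ ha
    exact (mem_homogeneousSubmodule _ a).mpr ha
  · rw [mem_homogeneousSubmodule]
    exact isHomogeneous_X_pow k (N * S + 1)

end GX
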