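import Pool.Agent.Lib.MP_f80667_ag.Ng.D

/-! The dimension is at most the number of the forms. -/

open MvPolynomial

namespace GX

private theorem db_aux {R A D : Type} [CommRing R] [CommRing A] [CommRing D] [IsDomain D]
    [Algebra R A] [Algebra R D] {e : ℕ} (ψ : MvPolynomial (Fin e) R →ₐ[R] A)
    (hψ : ψ.toRingHom.IsIntegral) (π : A →ₐ[R] D) (hπ : Function.Surjective π) :
    Algebra.trdeg R D ≤ (e : ℕ) := by
  set S := Algebra.adjoin R (Set.range fun r : Fin e => π (ψ (X r))) with hS
  have hmem : ∀ j : Fin e, π (ψ (X j)) ∈ S := fun j => Algebra.subset_adjoin ⟨j, rfl⟩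
  let g' : MvPolynomial (Fin e) R →ₐ[R] S := aeval fun r => (⟨π (ψ (X r)), hmem r⟩ : S)
  have hg' : S.val.comp g' = π.comp ψ := by
    apply MvPolynomial.algHom_ext
    intro i
    rw [AlgHom.comp_apply, aeval_X]
    rfl
  have hint : ∀ b : A, IsIntegral S (π b) := by
    intro b
    obtain ⟨p, hp1, hp2⟩ := hψ b
    refine ⟨p.map g'.toRingHom, hp1.map _, ?_⟩
    rw [Polynomial.eval₂_map]
    have h1 : (algebraMap S D).comp g'.toRingHom = (π.toRingHom).comp ψ.toRingHom := by
      ext r
      · exact RingHom.congr_fun (congrArg AlgHom.toRingHom hg') (C r)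
      · exact RingHom.congr_fun (congrArg AlgHom.toRingHom hg') (X r)
    rw [h1]
    have h2 : π b = π.toRingHom b := rfl
    rw [h2, ← Polynomial.hom_eval₂]
    have h3 : Polynomial.eval₂ ψ.toRingHom b p = 0 := hp2
    rw [h3, map_zero]
  have halg : Algebra.IsAlgebraic S D := by
    constructor
    intro d
    obtain ⟨b, rfl⟩ := hπ d
    exact (hint b).isAlgebraic
  have htr : Algebra.trdeg R D ≤ Cardinal.mk (Set.range fun r : Fin e => π (ψ (X r))) :=
    Algebra.IsAlgebraic.trdeg_le_cardinalMk R (Set.range fun r : Fin e => π (ψ (X r)))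
  refine htr.trans (Cardinal.mk_range_le.trans ?_)
  rw [Cardinal.mk_fintype, Fintype.card_fin]

private theorem db_main {R A : Type} [CommRing R] [IsDomain R] [CommRing A] [Algebra R A] {e : ℕ}
    (ψ : MvPolynomial (Fin e) R →ₐ[R] A) (hψ : ψ.toRingHom.IsIntegral) :
    Algebra.trdeg R A ≤ (e : ℕ) := by
  refine ciSup_le' fun s => ?_
  obtain ⟨s, hs⟩ := s
  have hs' : AlgebraicIndependent R (fun x : s => (x : A)) := hs
  obtain ⟨φ, hφe⟩ : ∃ φ : MvPolynomial s R →ₐ[R] A,
    φ = aeval (fun x : s => (x : A)) := ⟨_, rfl⟩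
  have hφ : Function.Injective φ := by
    rw [hφe]
    exact hs'
  have hbot : (⊥ : Ideal (MvPolynomial s R)) ∈ minimalPrimes (MvPolynomial s R) := by
    rw [IsDomain.minimalPrimes_eq_singleton_bot]
    exact Set.mem_singleton _
  obtain ⟨q, hq, hqc⟩ := Ideal.exists_comap_eq_of_mem_minimalPrimes_of_injective
    (f := φ.toRingHom) hφ ⊥ hbot
  have hdom : IsDomain (A ⧸ q) := Ideal.Quotient.isDomain q
  have htr := db_aux ψ hψ (Ideal.Quotient.mkₐ R q) (Ideal.Quotient.mkₐ_surjective R q)
  have hy : AlgebraicIndependent R fun i : s => Ideal.Quotient.mkₐ R q (φ (X i)) := by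
    have h1 : aeval (R := R) (fun i : s => Ideal.Quotient.mkₐ R q (φ (X i))) =
        (Ideal.Quotient.mkₐ R q).comp φ := by
      apply MvPolynomial.algHom_ext
      intro i
      rw [aeval_X]
      rfl
    unfold AlgebraicIndependent
    rw [h1, injective_iff_map_eq_zero]
    intro p hp
    have h2 : φ p ∈ q := Ideal.Quotient.eq_zero_iff_mem.mp hp
    have h3 : p ∈ q.comap φ.toRingHom := h2
    rw [hqc] at h3
    exact (Submodule.mem_bot _).mp h3
  exact hy.cardinalMk_le_trdeg.trans htr

/-- Proof: `A = R[x] / (f)` is finite over `R[c_1, .., c_e]` (`fin_lowe`). Let `z : Fin s → A` be algebraically independent over `R` (`s` any natural number; enough: a set of `e + 1` elements): `MvPolynomial (Fin s) R → A` is injective, so there is a prime ideal `q` of `A` with intersection `0`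
with the image (`Ideal.exists_comap_eq_of_mem_minimalPrimes_of_injective`); in the domain `A / q` the images of `z` are algebraically independent, and `A / q` is integral over the subalgebra generated by the `e` images of the `U_r x`: `Algebra.IsAlgebraic.trdeg_le_cardinalMk` (see the proof of `not_inj` in `Gx/PjBb`). -/
theorem trd_low {R : Type} [CommRing R] [IsDomain R] {N e : ℕ} {ι : Type}
    {f : ι → MvPolynomial (Fin N) R} (hf : ∀ i, ∃ e, (f i).IsHomogeneous e)
    {U : Fin e → Fin N → R} (hU : ∀ k, ∃ s, (X k : MvPolynomial (Fin N) R) ^ s ∈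
      Ideal.span (Set.range f) ⊔ Ideal.span (Set.range fun r => lf (U r))) :
    Algebra.trdeg R (MvPolynomial (Fin N) R ⧸ Ideal.span (Set.range f)) ≤ (e : ℕ) := by
  have hfin := fin_lowe hf hU
  exact db_main ((Ideal.Quotient.mkₐ R (Ideal.span (Set.range f))).comp (cue U))
    hfin.to_isIntegral

end GX
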