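import Pool.Agent.Lib.MP_f80667_ag.Ng.Bc
import Pool.Agent.Lib.MP_f80667_ag.Ng.Cb
import Pool.Agent.Lib.MP_f80667_ag.Ng.Db

/-! The model is saturated. -/

open MvPolynomial

namespace GX

variable {R κ : Type} [CommRing R] [IsDomain R] [IsDiscreteValuationRing R] [Field κ]
  [Algebra R κ] {N d : ℕ} {ι : Type} {f : ι → MvPolynomial (Fin N) R}

private theorem e_up {f : ι → MvPolynomial (Fin N) R} {r : R} (hr : r ≠ 0)
    {g : MvPolynomial (Fin N) R} (hg : C r * g ∈ Ideal.span (Set.range f)) :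
    Algebra.trdeg R (MvPolynomial (Fin N) R ⧸ Ideal.span (Set.range f)) ≤
      Algebra.trdeg R (MvPolynomial (Fin N) R ⧸
        Ideal.span (Set.range (Sum.elim f fun _ : Unit => g))) := by
  obtain ⟨I, hI⟩ : ∃ I, I = Ideal.span (Set.range f) := ⟨_, rfl⟩
  obtain ⟨J, hJ⟩ : ∃ J, J = Ideal.span (Set.range (Sum.elim f fun _ : Unit => g)) := ⟨_, rfl⟩
  have hJ' : J = I ⊔ Ideal.span {g} := by
    rw [hJ, hI, Set.Sum.elim_range, Ideal.span_union, Set.range_const]
  rw [← hI] at hg ⊢
  rw [← hJ]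
  have hle : I ≤ J := by
    rw [hJ']
    exact le_sup_left
  have hkey : ∀ (s : Set (MvPolynomial (Fin N) R ⧸ I)), AlgebraicIndepOn R id s →
      AlgebraicIndependent R fun i : s => Ideal.Quotient.factorₐ R hle (i : MvPolynomial (Fin N) R ⧸ I) := by
    intro s hs
    have hs' : Function.Injective (aeval (R := R) fun i : s => (i : MvPolynomial (Fin N) R ⧸ I)) := hs
    refine (injective_iff_map_eq_zero _).2 fun P hP => ?_
    have h1 : (aeval (R := R) fun i : s => Ideal.Quotient.factorₐ R hle (i : MvPolynomial (Fin N) R ⧸ I)) =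
        (Ideal.Quotient.factorₐ R hle).comp
          (aeval (R := R) fun i : s => (i : MvPolynomial (Fin N) R ⧸ I)) := by
      rw [comp_aeval]
    rw [h1, AlgHom.comp_apply] at hP
    obtain ⟨q, hq⟩ := Ideal.Quotient.mk_surjective
      ((aeval (R := R) fun i : s => (i : MvPolynomial (Fin N) R ⧸ I)) P)
    rw [← hq] at hP
    have h2 : q ∈ J := Ideal.Quotient.eq_zero_iff_mem.1 hP
    rw [hJ'] at h2
    obtain ⟨a, ha, b, hb, hab⟩ := Submodule.mem_sup.1 h2
    obtain ⟨c, hc⟩ := Ideal.mem_span_singleton'.1 hb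
    have h3 : C r * q ∈ I := by
      rw [← hab, ← hc, mul_add]
      refine I.add_mem (I.mul_mem_left _ ha) ?_
      rw [mul_left_comm]
      exact I.mul_mem_left _ hg
    have h4 : (aeval (R := R) fun i : s => (i : MvPolynomial (Fin N) R ⧸ I)) (C r * P) = 0 := by
      rw [map_mul, ← hq]
      have h5 : (aeval (R := R) fun i : s => (i : MvPolynomial (Fin N) R ⧸ I)) (C r) =
          Ideal.Quotient.mk I (C r) := by
        rw [aeval_C]
        rfl
      rw [h5, ← map_mul]
      exact Ideal.Quotient.eq_zero_iff_mem.2 h3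
    have h6 : C r * P = 0 := hs' (by rw [h4, map_zero])
    rcases mul_eq_zero.1 h6 with h7 | h7
    · exact absurd (C_eq_zero.1 h7) hr
    · exact h7
  rw [Algebra.trdeg]
  exact ciSup_le' fun i => (hkey i.1 i.2).cardinalMk_le_trdeg

private theorem e_range {α β : Type} (f : ι → α) (a : α) (u : β → α) :
    Set.range (Sum.elim (Sum.elim f fun _ : Unit => a) u) =
      (Set.range f ∪ {a}) ∪ Set.range u := by
  rw [Set.Sum.elim_range, Set.Sum.elim_range, Set.range_const]

private theorem e_fr (f : ι → MvPolynomial (Fin N) R) (g : MvPolynomial (Fin N) R)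
    (U : Fin d → Fin N → R) :
    fr κ (Sum.elim (Sum.elim f fun _ : Unit => g) fun r => lf (U r)) =
      Sum.elim (Sum.elim (fr κ f) fun _ : Unit => map (algebraMap R κ) g)
        fun r => lf fun j => algebraMap R κ (U r j) := by
  funext x
  rcases x with (x | x) | x
  · rfl
  · rfl
  · change map (algebraMap R κ) (lf (U x)) = lf fun j => algebraMap R κ (U x j)
    unfold lf
    rw [map_sum]
    refine Finset.sum_congr rfl fun j _ => ?_
    rw [map_mul, map_C, map_X]

private theorem e_lf (a : Fin N → R) : (lf a).IsHomogeneous 1 := by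
  unfold lf
  refine IsHomogeneous.sum _ _ _ fun j _ => ?_
  have h := (isHomogeneous_C (Fin N) (a j)).mul (isHomogeneous_X R j)
  rwa [zero_add] at h

/-- A homogeneous `g` with `r g ∈ (f)` is in `(f)` modulo the maximal ideal. Proof: if not, then `(f̄, ḡ)` has dimension `≤ d` (`trd_quotR` for the domain `κ[x] / (f̄)`; the double quotient), `exists_hn` with `e = d`: `d` linear forms `U` over `R` with `X k ^ s ∈ (f̄, ḡ, Ū x)`;
`nakR` for the family `f, g, U x` (index set `(ι ⊕ Unit) ⊕ Fin d`): `X k ^ s ∈ (f, g, U x)`; `trd_low` for the family `f, g` (index set `ι ⊕ Unit`): the transcendence degree of `R[x] / (f, g)` is `≤ d`. But it is `≥ d + 1`: if `z` is algebraically independent in `R[x] / (f)`, its image in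
`R[x] / (f, g)` is algebraically independent: `P (z) ∈ (f, g)` gives `r P (z) ∈ (f)`, so `r P = 0`, `P = 0`. -/
theorem Gdr.sat_mod (hR : Rk R κ) (hf : Gdr κ f d) {r : R} (hr : r ≠ 0)
    {g : MvPolynomial (Fin N) R} {n : ℕ} (hgn : g.IsHomogeneous n)
    (hg : C r * g ∈ Ideal.span (Set.range f)) :
    map (algebraMap R κ) g ∈ Ideal.span (Set.range (fr κ f)) := by
  by_contra hcon
  have hfd := hf.red
  obtain ⟨gb, hgb⟩ : ∃ gb, gb = map (algebraMap R κ) g := ⟨_, rfl⟩
  rw [← hgb] at hcon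
  have hgbn : gb.IsHomogeneous n := by
    rw [hgb]
    exact hgn.map _
  have hprime := hfd.prime
  have h1 : Algebra.trdeg κ ((MvPolynomial (Fin N) κ ⧸ Ideal.span (Set.range (fr κ f))) ⧸
      Ideal.span {Ideal.Quotient.mk (Ideal.span (Set.range (fr κ f))) gb}) ≤ (d : ℕ) := by
    refine trd_quotR hfd.dim.le ?_
    intro h
    exact hcon (Ideal.Quotient.eq_zero_iff_mem.1 h)
  have h2 : Algebra.trdeg κ (MvPolynomial (Fin N) κ ⧸
      (Ideal.span (Set.range (fr κ f)) ⊔ Ideal.span {gb})) ≤ (d : ℕ) := by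
    refine le_trans ?_ h1
    have hmap : Ideal.span {Ideal.Quotient.mk (Ideal.span (Set.range (fr κ f))) gb} =
        (Ideal.span {gb}).map (Ideal.Quotient.mkₐ κ (Ideal.span (Set.range (fr κ f)))) := by
      rw [Ideal.map_span, Set.image_singleton]
      rfl
    rw [hmap]
    exact ((DoubleQuot.quotQuotEquivQuotSupₐ κ (Ideal.span (Set.range (fr κ f)))
      (Ideal.span {gb})).symm.trdeg_eq).le
  have h3 : Ideal.span (Set.range (Sum.elim (fr κ f) fun _ : Unit => gb)) =
      Ideal.span (Set.range (fr κ f)) ⊔ Ideal.span {gb} := by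
    rw [Set.Sum.elim_range, Ideal.span_union, Set.range_const]
  rw [← h3] at h2
  have hhom : ∀ i, ∃ e, ((Sum.elim (fr κ f) fun _ : Unit => gb) i).IsHomogeneous e := by
    rintro (i | i)
    · exact hfd.hom i
    · exact ⟨n, hgbn⟩
  obtain ⟨U, hU⟩ := exists_hn hR.inf d (fun a ha m => comp_memR hhom ha m) h2
  have hhomR : ∀ i, ∃ e, ((Sum.elim f fun _ : Unit => g) i).IsHomogeneous e := by
    rintro (i | i)
    · exact hf.hom i
    · exact ⟨n, hgn⟩
  have hhom2 : ∀ i, ∃ e, ((Sum.elim (Sum.elim f fun _ : Unit => g) fun r => lf (U r)) i).IsHomogeneous e := by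
    rintro (i | i)
    · exact hhomR i
    · exact ⟨1, e_lf _⟩
  obtain ⟨s, hs⟩ := nakR hR hhom2 (fun k => by
    obtain ⟨s, hs⟩ := hU k
    refine ⟨s, ?_⟩
    rw [e_fr, ← hgb, e_range, Ideal.span_union]
    rwa [h3, ← Ideal.span_union] at hs)
  have h4 : Algebra.trdeg R (MvPolynomial (Fin N) R ⧸
      Ideal.span (Set.range (Sum.elim f fun _ : Unit => g))) ≤ (d : ℕ) := by
    refine trd_low hhomR (U := U) fun k => ⟨s, ?_⟩
    have h5 := hs k
    rwa [Set.Sum.elim_range, Ideal.span_union] at h5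
  have h6 := (hf.trd.trans (e_up hr hg)).trans h4
  have h7 : d + 1 ≤ d := by exact_mod_cast h6
  omega

end GX
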