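import Pool.Agent.Lib.MP_f80667_ag.Ng.E

/-! The model is saturated; the ideal of the model is prime. -/

open MvPolynomial

namespace GX

variable {R κ : Type} [CommRing R] [IsDomain R] [IsDiscreteValuationRing R] [Field κ]
  [Algebra R κ] {N d : ℕ} {ι : Type} {f : ι → MvPolynomial (Fin N) R}

/-- The homogeneous polynomials of degree `n` with a multiple in the ideal. -/
private def satM (f : ι → MvPolynomial (Fin N) R) (n : ℕ) :
    Submodule R (MvPolynomial (Fin N) R) where
  carrier := {a | a.IsHomogeneous n ∧ ∃ s : R, s ≠ 0 ∧ C s * a ∈ Ideal.span (Set.range f)}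
  zero_mem' := ⟨isHomogeneous_zero _ _ _, 1, one_ne_zero, by simp⟩
  add_mem' := by
    rintro a b ⟨ha, s, hs, hsa⟩ ⟨hb, s', hs', hsb⟩
    refine ⟨ha.add hb, s * s', mul_ne_zero hs hs', ?_⟩
    have h1 : C (s * s') * (a + b) = C s' * (C s * a) + C s * (C s' * b) := by
      rw [C_mul]
      ring
    rw [h1]
    exact Ideal.add_mem _ (Ideal.mul_mem_left _ _ hsa) (Ideal.mul_mem_left _ _ hsb)
  smul_mem' := by
    rintro c a ⟨ha, s, hs, hsa⟩
    refine ⟨?_, s, hs, ?_⟩
    · rw [smul_eq_C_mul]
      have h1 := (isHomogeneous_C (Fin N) c).mul ha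
      rwa [zero_add] at h1
    · have h1 : C s * (c • a) = C c * (C s * a) := by
        rw [smul_eq_C_mul]
        ring
      rw [h1]
      exact Ideal.mul_mem_left _ _ hsa

/-- **Saturation.** Proof: the components of `g` have the same property (`comp_memR`), so let `g` be homogeneous of degree `n`; `nak_deg` for `M` = the homogeneous polynomials `a` of degree `n` with `C r * a ∈ (f)` for some `r ≠ 0` (a submodule, `R` is a domain), `Gdr.sat_mod`. -/
theorem Gdr.sat (hR : Rk R κ) (hf : Gdr κ f d) {r : R} (hr : r ≠ 0)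
    {g : MvPolynomial (Fin N) R} (hg : C r * g ∈ Ideal.span (Set.range f)) :
    g ∈ Ideal.span (Set.range f) := by
  rw [← sum_homogeneousComponent g]
  refine Ideal.sum_mem _ fun n _ => ?_
  have h1 : C r * homogeneousComponent n g ∈ Ideal.span (Set.range f) := by
    have h2 := comp_memR hf.hom hg n
    rwa [homogeneousComponent_C_mul] at h2
  refine nak_deg hR hf.hom (M := satM f n) (fun a ha => ha.1) ?_ ?_ ?_ _
    ⟨homogeneousComponent_isHomogeneous n g, r, hr, h1⟩
  · rintro s a hs ⟨ha, s', hs', hsa⟩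
    refine ⟨?_, s' * s, mul_ne_zero hs' hs, ?_⟩
    · intro m hm
      refine ha ?_
      rw [coeff_smul, smul_eq_mul]
      exact mul_ne_zero hs hm
    · have h2 : C (s' * s) * a = C s' * (s • a) := by
        rw [smul_eq_C_mul, C_mul]
        ring
      rw [h2]
      exact hsa
  · rintro a ⟨ha, s, hs, hsa⟩
    exact Gdr.sat_mod hR hf hs ha hsa
  · intro a ha hn
    exact ⟨hn, 1, one_ne_zero, by simpa using ha⟩

end GX
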