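import Pool.Agent.Lib.MP_f80667_ag.Ng.Eb

/-! The ideal of the model is prime. -/

open MvPolynomial

namespace GX

variable {R κ : Type} [CommRing R] [IsDomain R] [IsDiscreteValuationRing R] [Field κ]
  [Algebra R κ] {N d : ℕ} {ι : Type} {f : ι → MvPolynomial (Fin N) R}

private theorem ec_map {b : MvPolynomial (Fin N) R} (hb : b ∈ Ideal.span (Set.range f)) :
    map (algebraMap R κ) b ∈ Ideal.span (Set.range (fr κ f)) := by
  have h := Ideal.mem_map_of_mem (map (algebraMap R κ)) hb
  rw [Ideal.map_span, ← Set.range_comp] at h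
  exact h

/-- A homogeneous polynomial outside of `(f)` is modulo `(f)` a multiple `π ^ i g` with `g` homogeneous, `ḡ ∉ (f̄)`. Proof: otherwise (`red_mem` and the component of degree `n`, `Gdr.sat`, induction on `i`) `a ∈ (f) + (π ^ i)` for all `i`; the module `homogeneousSubmodule n / (f)_n` is
finite over the Noetherian local ring `R`, so `a ∈ (f)` (Krull: `Ideal.iInf_pow_smul_eq_bot_of_isLocalRing`, or `nak_deg`-like: the set `M` of all `a` homogeneous of degree `n` such that for every `i` there is `b` homogeneous of degree `n` with `a - π ^ i b ∈ (f)` satisfies `M = (f)_n + π M`). -/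
theorem Gdr.exists_prim (hR : Rk R κ) (hf : Gdr κ f d) {a : MvPolynomial (Fin N) R} {n : ℕ}
    (ha : a.IsHomogeneous n) (h : a ∉ Ideal.span (Set.range f)) :
    ∃ (r : R) (g : MvPolynomial (Fin N) R), r ≠ 0 ∧ g.IsHomogeneous n ∧
      a - C r * g ∈ Ideal.span (Set.range f) ∧
        map (algebraMap R κ) g ∉ Ideal.span (Set.range (fr κ f)) := by
  by_contra hcon
  push Not at hcon
  let M : Submodule R (MvPolynomial (Fin N) R) :=
    { carrier := {b | b.IsHomogeneous n ∧ ∃ r s : R, r ≠ 0 ∧
        C r * b - C s * a ∈ Ideal.span (Set.range f)}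
      add_mem' := by
        rintro b c ⟨hb, r, s, hr, hrs⟩ ⟨hc, r', s', hr', hrs'⟩
        refine ⟨hb.add hc, r * r', r' * s + r * s', mul_ne_zero hr hr', ?_⟩
        have e : C (r * r') * (b + c) - C (r' * s + r * s') * a
            = C r' * (C r * b - C s * a) + C r * (C r' * c - C s' * a) := by
          simp only [map_mul, map_add]
          ring
        rw [e]
        exact Ideal.add_mem _ (Ideal.mul_mem_left _ _ hrs) (Ideal.mul_mem_left _ _ hrs')
      zero_mem' := by
        refine ⟨isHomogeneous_zero _ _ _, 1, 0, one_ne_zero, ?_⟩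
        simp
      smul_mem' := by
        rintro c b ⟨hb, r, s, hr, hrs⟩
        refine ⟨?_, r, c * s, hr, ?_⟩
        · rw [smul_eq_C_mul]
          have h1 := (isHomogeneous_C (Fin N) c).mul hb
          rwa [zero_add] at h1
        · have e : C r * (c • b) - C (c * s) * a = C c * (C r * b - C s * a) := by
            rw [smul_eq_C_mul, map_mul]
            ring
          rw [e]
          exact Ideal.mul_mem_left _ _ hrs }
  have hM : ∀ b, b ∈ M ↔ (b.IsHomogeneous n ∧ ∃ r s : R, r ≠ 0 ∧
        C r * b - C s * a ∈ Ideal.span (Set.range f)) := fun b => Iff.rfl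
  refine h (nak_deg hR hf.hom (n := n) (M := M) (fun b hb => ((hM b).1 hb).1) ?_ ?_ ?_ a ?_)
  · intro t b ht hb
    obtain ⟨h1, r, s, hr, hrs⟩ := (hM _).1 hb
    refine (hM b).2 ⟨?_, r * t, s, mul_ne_zero hr ht, ?_⟩
    · intro m hm
      refine h1 ?_
      rw [coeff_smul, smul_eq_mul]
      exact mul_ne_zero ht hm
    · have e : C (r * t) * b - C s * a = C r * (t • b) - C s * a := by
        rw [smul_eq_C_mul, map_mul]
        ring
      rw [e]
      exact hrs
  · intro b hb
    obtain ⟨h1, r, s, hr, hrs⟩ := (hM _).1 hb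
    rcases ValuationRing.dvd_total r s with ⟨t, rfl⟩ | ⟨t, rfl⟩
    · have h2 : C r * (b - C t * a) ∈ Ideal.span (Set.range f) := by
        have e : C r * (b - C t * a) = C r * b - C (r * t) * a := by
          rw [map_mul]
          ring
        rw [e]
        exact hrs
      have h3 := ec_map (κ := κ) (hf.sat hR hr h2)
      have h4 : map (algebraMap R κ) a ∈ Ideal.span (Set.range (fr κ f)) := by
        refine hcon 1 a one_ne_zero ha ?_
        rw [map_one, one_mul, sub_self]
        exact Ideal.zero_mem _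
      have h5 := Ideal.add_mem _ h3
        (Ideal.mul_mem_left _ (map (algebraMap R κ) (C t)) h4)
      rwa [← map_mul, ← map_add, sub_add_cancel] at h5
    · have hs : s ≠ 0 := left_ne_zero_of_mul hr
      have ht : t ≠ 0 := right_ne_zero_of_mul hr
      have h2 : C s * (a - C t * b) ∈ Ideal.span (Set.range f) := by
        have e : C s * (a - C t * b) = -(C (s * t) * b - C s * a) := by
          rw [map_mul]
          ring
        rw [e]
        exact neg_mem hrs
      exact hcon t b ht h1 (hf.sat hR hs h2)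
  · intro b hb h1
    refine (hM b).2 ⟨h1, 1, 0, one_ne_zero, ?_⟩
    rw [map_one, map_zero, one_mul, zero_mul, sub_zero]
    exact hb
  · refine (hM a).2 ⟨ha, 1, 1, one_ne_zero, ?_⟩
    rw [sub_self]
    exact Ideal.zero_mem _

attribute [local instance] MvPolynomial.gradedAlgebra in
/-- **The ideal is prime.** Proof: the ideal is homogeneous (`Ideal.IsHomogeneous.isPrime_of_homogeneous_mem_or_mem`), it is not the whole ring (modulo the maximal ideal); for homogeneous `a`, `b` outside of `(f)`: `Gdr.exists_prim`: `a = r g`, `b = r' g'` modulo `(f)`; `a b ∈ (f)` gives `r r' g g' ∈ (f)`,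
`g g' ∈ (f)` (`Gdr.sat`), and `ḡ ḡ' ∈ (f̄)`, which is prime. -/
theorem Gdr.prime (hR : Rk R κ) (hf : Gdr κ f d) : (Ideal.span (Set.range f)).IsPrime := by
  have hhom : (Ideal.span (Set.range f)).IsHomogeneous (homogeneousSubmodule (Fin N) R) := by
    refine Ideal.homogeneous_span _ _ ?_
    rintro _ ⟨i, rfl⟩
    obtain ⟨e, he⟩ := hf.hom i
    exact ⟨e, he⟩
  refine hhom.isPrime_of_homogeneous_mem_or_mem ?_ ?_
  · intro htop
    have h1 : (1 : MvPolynomial (Fin N) R) ∈ Ideal.span (Set.range f) := by
      rw [htop]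
      trivial
    have h2 := ec_map (κ := κ) h1
    rw [map_one] at h2
    exact hf.red.prime.ne_top ((Ideal.eq_top_iff_one _).2 h2)
  · rintro a b ⟨m, ha⟩ ⟨n, hb⟩ hab
    by_contra hcon
    push Not at hcon
    obtain ⟨r, g, hr, -, h1, h2⟩ := hf.exists_prim hR ha hcon.1
    obtain ⟨s, g', hs, -, h3, h4⟩ := hf.exists_prim hR hb hcon.2
    have h5 : C (r * s) * (g * g') ∈ Ideal.span (Set.range f) := by
      have e : C (r * s) * (g * g') = a * b - (a - C r * g) * b
          - C r * g * (b - C s * g') := by
        rw [map_mul]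
        ring
      rw [e]
      exact sub_mem (sub_mem hab (Ideal.mul_mem_right _ _ h1)) (Ideal.mul_mem_left _ _ h3)
    have h6 := ec_map (κ := κ) (hf.sat hR (mul_ne_zero hr hs) h5)
    rw [map_mul] at h6
    rcases hf.red.prime.mem_or_mem h6 with h7 | h7
    · exact h2 h7
    · exact h4 h7

end GX
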