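import Pool.Agent.Lib.MP_f80667_ag.Ng.F

/-! The fibre at the point itself. -/

open MvPolynomial

namespace GX

variable {κ : Type} [Field κ] {N d : ℕ} {ι : Type} {f : ι → MvPolynomial (Fin N) κ}

/-- The rows with variables in the place of `U`. -/
private noncomputable def fbM (f : ι → MvPolynomial (Fin N) κ) (y : Fin N → κ)
    (e : Fin N → ι ⊕ Fin (d + 1)) : Matrix (Fin N) (Fin N) (MvPolynomial (Fin (d + 1) × Fin N) κ) :=
  Matrix.of fun k j => Sum.elim (fun i => C (eval y (pderiv j (f i)))) (fun r => X (r, j)) (e k)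

private theorem fb_eval (f : ι → MvPolynomial (Fin N) κ) (y : Fin N → κ)
    (e : Fin N → ι ⊕ Fin (d + 1)) (U : Fin (d + 1) → Fin N → κ) :
    eval (fun q : Fin (d + 1) × Fin N => U q.1 q.2) (fbM f y e).det
      = (Matrix.of fun k => rwm f y U (e k)).det := by
  rw [RingHom.map_det]
  congr 1
  ext k j
  simp only [RingHom.mapMatrix_apply, Matrix.map_apply, fbM, Matrix.of_apply, rwm]
  cases e k with
  | inl i => simp
  | inr r => simp

/-- Proof: `exists_U1`, `ndg_rows`: rows `e` with `det ≠ 0` for one matrix `U`; `h` = the determinant of the matrix over `MvPolynomial (Fin (d + 1) × Fin N) κ` with the rows `C (∂_j f_i (y))` and `X (r, j)`; `eval U h` is the determinant for `U` (`RingHom.map_det`); `ndg_of`. -/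
theorem exists_hy {y : Fin N → κ} (hy : Module.finrank κ (tgs f y) ≤ d + 1) :
    ∃ h : MvPolynomial (Fin (d + 1) × Fin N) κ, h ≠ 0 ∧ ∀ U : Fin (d + 1) → Fin N → κ,
      eval (fun q => U q.1 q.2) h ≠ 0 → Ndg f U y := by
  obtain ⟨U, hU⟩ := exists_U1 hy
  obtain ⟨e, he⟩ := ndg_rows hU
  refine ⟨(fbM f y e).det, ?_, ?_⟩
  · intro h0
    apply he
    rw [← fb_eval, h0, map_zero]
  · intro U' hU'
    rw [fb_eval] at hU'
    exact ndg_of hU'

end GX
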