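import Pool.Agent.Lib.MP_f80667_ag.Ng.F

/-! A point whose tangent space does not contain `y`. -/

open MvPolynomial

namespace GX

variable {κ : Type} [Field κ] {N d : ℕ} {ι : Type} {f : ι → MvPolynomial (Fin N) κ}

/-- Proof: `hf.ns` gives a point `x'` and an index `i` with `∑ ∂_j f_i (x') y_j ≠ 0`: the polynomial `m = ∑ C (y_j) * pderiv j (f i)` is not in `(f)`. `X k - C (y k) ∉ (f)` (its component of degree `1` is `X k`, `comp_memR`), and `X j₀ ∉ (f)` if `y j₀ ≠ 0`.
The ideal is prime, so the product `g` of the three is not in it; `(f)` is the vanishing ideal of its zeros (`MvPolynomial.vanishingIdeal_zeroLocus_eq_radical`), so there is a zero `x` with `g (x) ≠ 0`. -/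
theorem Gdk.exists_pt0 [IsAlgClosed κ] (hf : Gdk f d) {y : Fin N → κ} (hy : Zp f y) {k : Fin N}
    (hk : (X k : MvPolynomial (Fin N) κ) ∉ Ideal.span (Set.range f)) :
    ∃ x, Zp f x ∧ x k ≠ y k ∧ y ∉ tgs f x := by
  classical
  have hpr := hf.prime
  have hz : ∀ {x : Fin N → κ}, (∀ i, eval x (f i) = 0) → ∀ p ∈ Ideal.span (Set.range f),
      eval x p = 0 := by
    intro x hx p hp
    have h1 : Ideal.span (Set.range f) ≤ RingHom.ker (eval x) := by
      rw [Ideal.span_le]
      rintro _ ⟨i, rfl⟩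
      exact hx i
    exact h1 hp
  obtain ⟨x', hx', hy'⟩ := hf.ns y hy
  rw [mem_tgs] at hy'
  push Not at hy'
  obtain ⟨i, hi⟩ := hy'
  obtain ⟨j₀, hj₀⟩ : ∃ j, y j ≠ 0 := by
    by_contra hcon
    push Not at hcon
    exact hy.1 (funext hcon)
  have hm : (∑ j, pderiv j (f i) * C (y j)) ∉ Ideal.span (Set.range f) := by
    intro h
    apply hi
    have h2 := hz hx'.2 _ h
    rw [map_sum] at h2
    rw [← h2]
    refine Finset.sum_congr rfl fun j _ => ?_
    rw [map_mul, eval_C]
  have hX : (X j₀ : MvPolynomial (Fin N) κ) ∉ Ideal.span (Set.range f) := by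
    intro h
    have h2 := hz hy.2 _ h
    rw [eval_X] at h2
    exact hj₀ h2
  have hk' : (X k - C (y k) : MvPolynomial (Fin N) κ) ∉ Ideal.span (Set.range f) := by
    intro h
    apply hk
    have h2 := comp_memR hf.hom h 1
    have e1 : homogeneousComponent 1 (X k : MvPolynomial (Fin N) κ) = X k := by
      rw [homogeneousComponent_of_mem ((mem_homogeneousSubmodule 1 _).2 (isHomogeneous_X κ k)),
        if_pos rfl]
    have e2 : homogeneousComponent 1 (C (y k) : MvPolynomial (Fin N) κ) = 0 := by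
      rw [homogeneousComponent_of_mem ((mem_homogeneousSubmodule 0 _).2 (isHomogeneous_C _ (y k))),
        if_neg one_ne_zero]
    rw [map_sub, e1, e2, sub_zero] at h2
    exact h2
  have hg : (∑ j, pderiv j (f i) * C (y j)) * (X k - C (y k)) * X j₀ ∉
      Ideal.span (Set.range f) := by
    intro h
    rcases hpr.mem_or_mem h with h1 | h1
    · rcases hpr.mem_or_mem h1 with h2 | h2
      · exact hm h2
      · exact hk' h2
    · exact hX h1
  rw [← IsPrime.vanishingIdeal_zeroLocus (K := κ) (Ideal.span (Set.range f)),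
    mem_vanishingIdeal_iff] at hg
  push Not at hg
  obtain ⟨x, hx, hgx⟩ := hg
  rw [zeroLocus_span] at hx
  have hae : ∀ p : MvPolynomial (Fin N) κ, aeval x p = eval x p := fun p =>
    DFunLike.congr_fun (coe_aeval_eq_eval x) p
  have hxf : ∀ i, eval x (f i) = 0 := by
    intro i
    rw [← hae]
    exact hx (f i) ⟨i, rfl⟩
  rw [hae] at hgx
  rw [map_mul, map_mul, map_sub, eval_X, eval_X, eval_C, map_sum] at hgx
  have h1 := mul_ne_zero_iff.1 hgx
  have h2 := mul_ne_zero_iff.1 h1.1
  refine ⟨x, ⟨fun h0 => h1.2 (by rw [h0, Pi.zero_apply]), hxf⟩, sub_ne_zero.1 h2.2, ?_⟩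
  intro ht
  rw [mem_tgs] at ht
  apply h2.1
  rw [← ht i]
  refine Finset.sum_congr rfl fun j _ => ?_
  rw [map_mul, eval_C]

end GX
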