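import Pool.Agent.Lib.MP_f80667_ag.Ng.Ab

/-! Polynomials over a domain: transcendence degree, a hypersurface does not dominate. -/

open MvPolynomial

namespace GX

variable {F : Type} [Field F]

/-- Proof: `MvPolynomial.trdeg_of_isDomain` and `Algebra.trdeg_add_eq` (or a transcendence basis of `A` and the variables). -/
theorem trd_poly {A : Type} [CommRing A] [IsDomain A] [Algebra F A] {n : ℕ}
    (hA : Algebra.trdeg F A ≤ (n : ℕ)) (τ : Type) [Fintype τ] :
    Algebra.trdeg F (MvPolynomial τ A) ≤ ((n + Fintype.card τ : ℕ) : Cardinal) := by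
  have i1 : FaithfulSMul F A :=
    (faithfulSMul_iff_algebraMap_injective F A).2 (algebraMap F A).injective
  have i2 : FaithfulSMul A (MvPolynomial τ A) :=
    (faithfulSMul_iff_algebraMap_injective A (MvPolynomial τ A)).2 (MvPolynomial.C_injective τ A)
  have h1 := trdeg_add_eq F A (A := MvPolynomial τ A)
  rw [← h1, MvPolynomial.trdeg_of_isDomain, Cardinal.lift_id, Cardinal.mk_fintype]
  push_cast
  exact add_le_add hA le_rfl

/-- Proof: `E = MvPolynomial τ A`: `trd_poly`, `trd_quotR`: the transcendence degree of `E / (q)` is less than `card σ` (`card σ = m + 1`), so the images of the variables `σ` in `E / (q)` are not algebraically independent. -/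
theorem exists_dvd {A : Type} [CommRing A] [IsDomain A] [Algebra F A] {n : ℕ}
    (hA : Algebra.trdeg F A ≤ (n : ℕ)) {σ τ : Type} [Fintype σ] [Fintype τ]
    (hc : n + Fintype.card τ ≤ Fintype.card σ) (hσ : 0 < Fintype.card σ)
    (φ : MvPolynomial σ F →ₐ[F] MvPolynomial τ A) {q : MvPolynomial τ A} (hq : q ≠ 0) :
    ∃ h : MvPolynomial σ F, h ≠ 0 ∧ q ∣ φ h := by
  by_contra hcon
  push Not at hcon
  obtain ⟨m, hm⟩ : ∃ m, Fintype.card σ = m + 1 := ⟨Fintype.card σ - 1, by omega⟩
  have h1 : Algebra.trdeg F (MvPolynomial τ A) ≤ ((m + 1 : ℕ) : Cardinal) := by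
    refine (trd_poly hA τ).trans ?_
    rw [← hm]
    exact_mod_cast hc
  have h2 : Algebra.trdeg F (MvPolynomial τ A ⧸ Ideal.span {q}) ≤ (m : ℕ) := trd_quotR h1 hq
  obtain ⟨z, hz⟩ : ∃ z : σ → MvPolynomial τ A ⧸ Ideal.span {q},
    z = fun i => Ideal.Quotient.mk (Ideal.span {q}) (φ (X i)) := ⟨_, rfl⟩
  have h3 : (aeval z : MvPolynomial σ F →ₐ[F] MvPolynomial τ A ⧸ Ideal.span {q}) =
      (Ideal.Quotient.mkₐ F (Ideal.span {q})).comp φ := by
    refine MvPolynomial.algHom_ext fun i => ?_
    rw [aeval_X, hz]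
    rfl
  have h4 : AlgebraicIndependent F z := by
    rw [algebraicIndependent_iff]
    intro p hp
    by_contra hp0
    refine hcon p hp0 ?_
    rw [h3] at hp
    have h5 : Ideal.Quotient.mk (Ideal.span {q}) (φ p) = 0 := hp
    rw [Ideal.Quotient.eq_zero_iff_mem, Ideal.mem_span_singleton] at h5
    exact h5
  have h5 := le_trd h2 (h4.comp _ (Fintype.equivFin σ).symm.injective)
  omega

end GX
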