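import Pool.Agent.Lib.MP_f80667_ag.Ng.Fc
import Pool.Agent.Lib.MP_f80667_ag.Ng.Fd

/-! The fibre at the points with a different coordinate. -/

open MvPolynomial

namespace GX

variable {κ : Type} [Field κ] {N d : ℕ} {ι : Type} {f : ι → MvPolynomial (Fin N) κ}

/-- The homomorphism `U_rj ↦ z_k W_rj` (`j ≠ k`), `U_rk ↦ - ∑ z_j W_rj` (`j ≠ k`). -/
noncomputable def wk {B : Type} [CommRing B] [Algebra κ B] (d : ℕ) (k : Fin N) (z : Fin N → B) :
    MvPolynomial (Fin (d + 1) × Fin N) κ →ₐ[κ]
      MvPolynomial (Fin (d + 1) × {j : Fin N // j ≠ k}) B :=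
  aeval fun p => if hp : p.2 = k then -∑ j : {j : Fin N // j ≠ k}, C (z j.1) * X (p.1, j)
    else C (z k) * X (p.1, ⟨p.2, hp⟩)

/-- Evaluation: if `∑ U_rj z_j = 0` and `z_k ≠ 0` in a field `κ`, then `W_rj = U_rj / z_k` gives back `U`. Proof: on the variables (`MvPolynomial.algHom_ext`); `φ : B →ₐ[κ] κ` is the evaluation of `B`. -/
theorem wk_ev {B : Type} [CommRing B] [Algebra κ B] {k : Fin N} {z : Fin N → B}
    (φ : B →ₐ[κ] κ) {U : Fin (d + 1) → Fin N → κ} (hU : ∀ r, ∑ j, U r j * φ (z j) = 0)
    (hk : φ (z k) ≠ 0) (h : MvPolynomial (Fin (d + 1) × Fin N) κ) :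
    eval₂ φ.toRingHom (fun p : Fin (d + 1) × {j : Fin N // j ≠ k} => U p.1 p.2.1 / φ (z k))
      (wk d k z h) = eval (fun q => U q.1 q.2) h := by
  have key : (eval₂Hom φ.toRingHom
      (fun p : Fin (d + 1) × {j : Fin N // j ≠ k} => U p.1 p.2.1 / φ (z k))).comp
      (wk d k z : MvPolynomial (Fin (d + 1) × Fin N) κ →ₐ[κ]
        MvPolynomial (Fin (d + 1) × {j : Fin N // j ≠ k}) B).toRingHom =
      eval (fun q : Fin (d + 1) × Fin N => U q.1 q.2) := by
    apply MvPolynomial.ringHom_ext
    · intro c
      have h1 : (wk d k z : MvPolynomial (Fin (d + 1) × Fin N) κ →ₐ[κ]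
          MvPolynomial (Fin (d + 1) × {j : Fin N // j ≠ k}) B) (C c) = C (algebraMap κ B c) := by
        rw [← algebraMap_eq, AlgHom.commutes]
        rfl
      have h2 : ((wk d k z : MvPolynomial (Fin (d + 1) × Fin N) κ →ₐ[κ]
          MvPolynomial (Fin (d + 1) × {j : Fin N // j ≠ k}) B).toRingHom) (C c) =
          C (algebraMap κ B c) := h1
      rw [RingHom.comp_apply, h2, eval_C, coe_eval₂Hom, eval₂_C]
      exact φ.commutes c
    · rintro ⟨r, j⟩
      have h1 : ((wk d k z : MvPolynomial (Fin (d + 1) × Fin N) κ →ₐ[κ]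
          MvPolynomial (Fin (d + 1) × {j : Fin N // j ≠ k}) B).toRingHom) (X (r, j)) =
          (if hp : j = k then -∑ j : {j : Fin N // j ≠ k}, C (z j.1) * X (r, j)
            else C (z k) * X (r, ⟨j, hp⟩)) := by
        change wk d k z (X (r, j)) = _
        unfold wk
        rw [aeval_X]
      rw [RingHom.comp_apply, h1, eval_X]
      by_cases hj : j = k
      · subst hj
        rw [dif_pos rfl, map_neg, map_sum]
        simp only [map_mul, coe_eval₂Hom, eval₂_C, eval₂_X]
        have hs : ∑ i : {i : Fin N // i ≠ j}, φ (z i.1) * (U r i.1 / φ (z j)) =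
            (∑ i : {i : Fin N // i ≠ j}, U r i.1 * φ (z i.1)) / φ (z j) := by
          rw [Finset.sum_div]
          refine Finset.sum_congr rfl fun i _ => ?_
          ring
        have hsum : (∑ i : {i : Fin N // i ≠ j}, U r i.1 * φ (z i.1)) =
            - (U r j * φ (z j)) := by
          have h3 := hU r
          rw [← Fintype.sum_subtype_add_sum_subtype (fun i : Fin N => i ≠ j)
            (fun i => U r i * φ (z i))] at h3
          have h4 : (∑ i : {i : Fin N // ¬ i ≠ j}, U r i.1 * φ (z i.1)) = U r j * φ (z j) := by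
            have : Unique {i : Fin N // ¬ i ≠ j} :=
              { default := ⟨j, by simp⟩
                uniq := fun a => Subtype.ext (by simpa using a.2) }
            rw [Fintype.sum_unique]
            have h5 : (default : {i : Fin N // ¬ i ≠ j}).1 = j := by
              simpa using (default : {i : Fin N // ¬ i ≠ j}).2
            rw [h5]
          rw [h4] at h3
          linear_combination h3
        change -(∑ i : {i : Fin N // i ≠ j}, φ (z i.1) * (U r i.1 / φ (z j))) = U r j
        rw [hs, hsum]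
        field_simp
      · rw [dif_neg hj, map_mul]
        simp only [coe_eval₂Hom, eval₂_C, eval₂_X]
        change φ (z k) * (U r j / φ (z k)) = U r j
        field_simp
  have := RingHom.congr_fun key h
  exact this

end GX
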