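import Pool.Agent.Lib.MP_f80667_ag.Ng.Fe

/-! The fibre at the points with a different coordinate. -/

open MvPolynomial

namespace GX

variable {κ : Type} [Field κ] {N d : ℕ} {ι : Type} {f : ι → MvPolynomial (Fin N) κ}

/-- The differences `x_j - y_j` in the coordinate ring. -/
private noncomputable def zff (f : ι → MvPolynomial (Fin N) κ) (y : Fin N → κ) :
    Fin N → MvPolynomial (Fin N) κ ⧸ Ideal.span (Set.range f) :=
  fun j => Ideal.Quotient.mk _ (X j - C (y j))

/-- The matrix with the rows `∂ f_i` and `U_r`. -/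
private noncomputable def mff (f : ι → MvPolynomial (Fin N) κ) (d : ℕ) (y : Fin N → κ)
    (k : Fin N) (e : Fin N → ι ⊕ Fin (d + 1)) :
    Matrix (Fin N) (Fin N) (MvPolynomial (Fin (d + 1) × {j : Fin N // j ≠ k})
      (MvPolynomial (Fin N) κ ⧸ Ideal.span (Set.range f))) :=
  Matrix.of fun l j => Sum.elim
    (fun i : ι => (C (Ideal.Quotient.mk (Ideal.span (Set.range f)) (pderiv j (f i))) :
      MvPolynomial (Fin (d + 1) × {j : Fin N // j ≠ k})
        (MvPolynomial (Fin N) κ ⧸ Ideal.span (Set.range f))))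
    (fun r : Fin (d + 1) => wk d k (zff f y)
      (X (r, j) : MvPolynomial (Fin (d + 1) × Fin N) κ)) (e l)

private theorem ff_key {y : Fin N → κ} {k : Fin N} (e : Fin N → ι ⊕ Fin (d + 1))
    {U : Fin (d + 1) → Fin N → κ} {x : Fin N → κ} (hx : ∀ i, eval x (f i) = 0)
    (hU : ∀ r, ∑ j, U r j * (x j - y j) = 0) (hk : x k ≠ y k) :
    ∃ ψ : MvPolynomial (Fin (d + 1) × {j : Fin N // j ≠ k})
        (MvPolynomial (Fin N) κ ⧸ Ideal.span (Set.range f)) →+* κ,
      ψ (mff f d y k e).det = (Matrix.of fun l => rwm f x U (e l)).det ∧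
      ∀ h, ψ (wk d k (zff f y) h) = eval (fun q => U q.1 q.2) h := by
  have hav : ∀ p, (aeval x : MvPolynomial (Fin N) κ →ₐ[κ] κ) p = eval x p := by
    intro p
    rw [aeval_def, Algebra.algebraMap_self]
    rfl
  have hker : ∀ a ∈ Ideal.span (Set.range f),
      (aeval x : MvPolynomial (Fin N) κ →ₐ[κ] κ) a = 0 := by
    intro a ha
    have h1 : Ideal.span (Set.range f) ≤ RingHom.ker (eval x) := by
      rw [Ideal.span_le]
      rintro _ ⟨i, rfl⟩
      exact hx i
    rw [hav]
    exact h1 ha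
  set φ : (MvPolynomial (Fin N) κ ⧸ Ideal.span (Set.range f)) →ₐ[κ] κ :=
    Ideal.Quotient.liftₐ _ (aeval x) hker with hφ
  have hφmk : ∀ p, φ (Ideal.Quotient.mk _ p) = eval x p := fun p => hav p
  have hz : ∀ j, φ (zff f y j) = x j - y j := by
    intro j
    unfold zff
    rw [hφmk, map_sub, eval_X, eval_C]
  have hU' : ∀ r, ∑ j, U r j * φ (zff f y j) = 0 := by
    intro r
    rw [← hU r]
    exact Finset.sum_congr rfl fun j _ => by rw [hz]
  have hk' : φ (zff f y k) ≠ 0 := by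
    rw [hz]
    exact sub_ne_zero.2 hk
  refine ⟨eval₂Hom φ.toRingHom
    (fun p : Fin (d + 1) × {j : Fin N // j ≠ k} => U p.1 p.2.1 / φ (zff f y k)), ?_, ?_⟩
  · refine (RingHom.map_det (eval₂Hom φ.toRingHom
      (fun p : Fin (d + 1) × {j : Fin N // j ≠ k} => U p.1 p.2.1 / φ (zff f y k)))
      (mff f d y k e)).trans ?_
    congr 1
    ext l j
    rw [RingHom.mapMatrix_apply, Matrix.map_apply, mff, Matrix.of_apply, Matrix.of_apply, rwm]
    rcases e l with i | r
    · simp only [Sum.elim_inl, coe_eval₂Hom, eval₂_C]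
      exact hφmk _
    · simp only [Sum.elim_inr, coe_eval₂Hom]
      rw [wk_ev φ hU' hk', eval_X]
  · intro h
    exact wk_ev φ hU' hk' h

/-- **The points with a different coordinate.** Proof: if `X k ∈ (f)`, then `x k = 0 = y k`: `h = 1`. Otherwise `Gdk.exists_pt0`: `x₀`; `v = x₀ - y` is not in `tgs f x₀` (`self_tgs`); `exists_U0`: `U₀` with `U₀ (x₀ - y) = 0`, `ndg_rows`: rows `e` with a determinant `≠ 0` at `(x₀, U₀)`.
`A = κ[x] / (f)` (a domain), `z_j = x_j - y_j` in `A`, `q` = the determinant of the matrix over `MvPolynomial (Fin (d + 1) × {j // j ≠ k}) A` with the rows `C (∂_j f_i)` and `wk d k z (X (r, j))`; its value at `x₀`, `W = U₀ / z_k (x₀)` is the determinant at `(x₀, U₀)` (`wk_ev`), so `q ≠ 0`.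
`exists_dvd` with `n = d + 1` (`(d + 1) + (d + 1) (N - 1) = (d + 1) N`): `h ≠ 0` with `q ∣ wk d k z h`. For `U` and `x` as in the statement with `h (U) ≠ 0`: the value of `q` at `x`, `W = U / z_k (x)` divides `h (U)` (`wk_ev`), so it is not `0`; it is the determinant at `(x, U)`; `ndg_of`. -/
theorem Gdk.exists_hx [IsAlgClosed κ] (hf : Gdk f d) {y : Fin N → κ} (hy : Zp f y) (k : Fin N) :
    ∃ h : MvPolynomial (Fin (d + 1) × Fin N) κ, h ≠ 0 ∧ ∀ U : Fin (d + 1) → Fin N → κ,
      eval (fun q => U q.1 q.2) h ≠ 0 → ∀ x, (∀ i, eval x (f i) = 0) →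
        (∀ r, ∑ j, U r j * (x j - y j) = 0) → x k ≠ y k → Ndg f U x := by
  by_cases hk : (X k : MvPolynomial (Fin N) κ) ∈ Ideal.span (Set.range f)
  · have h0 : ∀ x : Fin N → κ, (∀ i, eval x (f i) = 0) → x k = 0 := by
      intro x hx
      have h1 : Ideal.span (Set.range f) ≤ RingHom.ker (eval x) := by
        rw [Ideal.span_le]
        rintro _ ⟨i, rfl⟩
        exact hx i
      have h2 : eval x (X k) = 0 := h1 hk
      rwa [eval_X] at h2
    exact ⟨1, one_ne_zero, fun U _ x hx _ hxk => absurd ((h0 x hx).trans (h0 y hy.2).symm) hxk⟩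
  · obtain ⟨x₀, hx₀, hxk, hyt⟩ := hf.exists_pt0 hy hk
    have hv : (fun j => x₀ j - y j) ∉ tgs f x₀ := by
      intro hmem
      have h1 := (tgs f x₀).sub_mem (self_tgs hf.hom hx₀.2) hmem
      have h2 : x₀ - (fun j => x₀ j - y j) = y := by
        funext j
        simp
      rw [h2] at h1
      exact hyt h1
    obtain ⟨U₀, hU₀, hN₀⟩ := exists_U0 (hf.nsg x₀ hx₀) hv
    obtain ⟨e, he⟩ := ndg_rows hN₀
    have := hf.prime
    have hq : (mff f d y k e).det ≠ 0 := by
      intro h0
      obtain ⟨ψ, h1, -⟩ := ff_key e hx₀.2 hU₀ hxk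
      rw [h0, map_zero] at h1
      exact he h1.symm
    have hN : 0 < N := k.pos
    have hcard : (d + 1) + Fintype.card (Fin (d + 1) × {j : Fin N // j ≠ k}) ≤
        Fintype.card (Fin (d + 1) × Fin N) := by
      have h1 : Fintype.card {j : Fin N // j ≠ k} = N - 1 := by
        rw [Fintype.card_subtype_compl, Fintype.card_fin, Fintype.card_subtype_eq]
      rw [Fintype.card_prod, Fintype.card_prod, Fintype.card_fin, Fintype.card_fin, h1]
      obtain ⟨M, rfl⟩ : ∃ M, N = M + 1 := ⟨N - 1, by omega⟩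
      rw [Nat.add_sub_cancel]
      nlinarith
    have hpos : 0 < Fintype.card (Fin (d + 1) × Fin N) := by
      rw [Fintype.card_prod, Fintype.card_fin, Fintype.card_fin]
      positivity
    obtain ⟨h, hh, hdvd⟩ := exists_dvd (F := κ) (n := d + 1) hf.dim.le hcard hpos
      (wk d k (zff f y)) hq
    refine ⟨h, hh, fun U hUh x hx hU hxk' => ?_⟩
    obtain ⟨ψ, h1, h2⟩ := ff_key e hx hU hxk'
    have h3 := map_dvd ψ hdvd
    rw [h1, h2] at h3
    refine ndg_of (e := e) fun h4 => hUh ?_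
    rw [h4] at h3
    exact zero_dvd_iff.1 h3

end GX
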