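import Pool.Agent.Lib.MP_f80667_ag.Ng.Ff
import Pool.Agent.Lib.MP_f80667_ag.Ng.Fb

/-! All points of the fibre are nondegenerate. -/

open MvPolynomial

namespace GX

variable {κ : Type} [Field κ] {N d : ℕ} {ι : Type} {f : ι → MvPolynomial (Fin N) κ}

/-- **All points of a general fibre through `y` are nondegenerate.** -/
theorem Gdk.exists_hd [IsAlgClosed κ] (hf : Gdk f d) {y : Fin N → κ} (hy : Zp f y) :
    ∃ h : MvPolynomial (Fin (d + 1) × Fin N) κ, h ≠ 0 ∧ ∀ U : Fin (d + 1) → Fin N → κ,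
      eval (fun q => U q.1 q.2) h ≠ 0 → ∀ x, (∀ i, eval x (f i) = 0) →
        (∀ r, ∑ j, U r j * (x j - y j) = 0) → Ndg f U x := by
  obtain ⟨h0, h00, h01⟩ := exists_hy (d := d) (f := f) (hf.nsg y hy)
  choose h hh0 hh1 using fun k : Fin N => hf.exists_hx hy k
  refine ⟨h0 * ∏ k, h k, mul_ne_zero h00 (Finset.prod_ne_zero_iff.2 fun k _ => hh0 k),
    fun U hU x hx hUx => ?_⟩
  rw [map_mul, map_prod] at hU
  by_cases hxy : x = y
  · rw [hxy]
    exact h01 U (left_ne_zero_of_mul hU)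
  · obtain ⟨k, hk⟩ := Function.ne_iff.1 hxy
    exact hh1 k U (Finset.prod_ne_zero_iff.1 (right_ne_zero_of_mul hU) k (Finset.mem_univ k)) x hx
      hUx hk

end GX
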