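import Pool.Agent.Lib.MP_f80667_ag.Ng.A
import Pool.Agent.Lib.MP_f80667_ag.Gx.PjGb

/-! Nondegenerate fibres are reduced. -/

open MvPolynomial

namespace GX

variable {κ : Type} [Field κ] {N d n : ℕ} {ι : Type} {f : ι → MvPolynomial (Fin N) κ}

private theorem g_sub_mem (x : Fin N → κ) (p : MvPolynomial (Fin N) κ) :
    p - C (eval x p) ∈
      Ideal.span (Set.range fun j : Fin N => (X j - C (x j) : MvPolynomial (Fin N) κ)) := by
  induction p using MvPolynomial.induction_on with
  | C a => simp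
  | add p q hp hq =>
    have h := Ideal.add_mem _ hp hq
    have e : p + q - C (eval x (p + q)) = p - C (eval x p) + (q - C (eval x q)) := by
      rw [map_add, map_add]
      ring
    rw [e]
    exact h
  | mul_X p j hp =>
    have e : p * X j - C (eval x (p * X j)) =
        X j * (p - C (eval x p)) + C (eval x p) * (X j - C (x j)) := by
      rw [map_mul, eval_X, map_mul]
      ring
    rw [e]
    exact Ideal.add_mem _ (Ideal.mul_mem_left _ _ hp)
      (Ideal.mul_mem_left _ _ (Ideal.subset_span ⟨j, rfl⟩))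

/-- Proof: let `g ^ n ∈ J`. If `g ∉ J`, the ideal `{a | a g ∈ J}` is in a maximal ideal; over an algebraically closed field this is the ideal of a point `x` (`MvPolynomial.isMaximal_iff_eq_vanishingIdeal_singleton` or Nullstellensatz), `x` is a zero of `J`; let `𝔪 = (X j - C (x j))`. `𝔪 ≤ J ⊔ 𝔪 ^ 2`, so
there is `e` with `e - 1 ∈ 𝔪`, `e 𝔪 ⊆ J` (`Submodule.exists_sub_one_mem_and_smul_le_of_fg_of_le_sup`). `g ∈ 𝔪` because `g ^ n ∈ J ≤ 𝔪`; so `e g ∈ J`, `e ∈ 𝔪`: contradiction. -/
theorem rad_of_nd [IsAlgClosed κ] {J : Ideal (MvPolynomial (Fin N) κ)}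
    (h : ∀ x : Fin N → κ, (∀ g ∈ J, eval x g = 0) → ∀ j, X j - C (x j) ∈
      J ⊔ Ideal.span (Set.range fun j : Fin N => (X j - C (x j) : MvPolynomial (Fin N) κ)) ^ 2) :
    J.IsRadical := by
  rintro g ⟨k, hk⟩
  by_contra hg
  set K : Ideal (MvPolynomial (Fin N) κ) := J.colon {g} with hK
  have hmem : ∀ a, a ∈ K ↔ a * g ∈ J := by
    intro a
    rw [hK, Submodule.mem_colon_singleton, smul_eq_mul]
  have hKt : K ≠ ⊤ := by
    intro ht
    apply hg
    have h1 : (1 : MvPolynomial (Fin N) κ) ∈ K := by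
      rw [ht]
      trivial
    rw [hmem, one_mul] at h1
    exact h1
  obtain ⟨M, hM, hKM⟩ := Ideal.exists_le_maximal K hKt
  obtain ⟨x, hx⟩ := (isMaximal_iff_eq_vanishingIdeal_singleton (K := κ)).1 hM
  have hMx : ∀ p, p ∈ M ↔ eval x p = 0 := by
    intro p
    rw [hx, mem_vanishingIdeal_singleton_iff, aeval_eq_eval]
  have hJK : J ≤ K := by
    intro a ha
    rw [hmem]
    exact Ideal.mul_mem_right _ _ ha
  have hJ0 : ∀ a ∈ J, eval x a = 0 := fun a ha => (hMx a).1 (hKM (hJK ha))
  have h1 := h x hJ0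
  set m : Ideal (MvPolynomial (Fin N) κ) :=
    Ideal.span (Set.range fun j : Fin N => (X j - C (x j) : MvPolynomial (Fin N) κ)) with hm
  have hmle : m ≤ J ⊔ m • m := by
    rw [smul_eq_mul, ← pow_two]
    conv_lhs => rw [hm]
    rw [Ideal.span_le]
    rintro _ ⟨j, rfl⟩
    exact h1 j
  have hfg : m.FG := by
    rw [hm]
    exact Submodule.fg_span (Set.finite_range _)
  obtain ⟨e, he1, he2⟩ :=
    Submodule.exists_sub_one_mem_and_smul_le_of_fg_of_le_sup hfg le_rfl hmle
  have hm0 : ∀ p ∈ m, eval x p = 0 := by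
    intro p hp
    have : m ≤ RingHom.ker (eval x) := by
      rw [hm, Ideal.span_le]
      rintro _ ⟨j, rfl⟩
      simp
    exact this hp
  have hgm : g ∈ m := by
    have h2 : eval x g = 0 := by
      have h3 := hJ0 _ hk
      rw [map_pow] at h3
      exact eq_zero_of_pow_eq_zero h3
    have h3 := g_sub_mem x g
    rw [h2, C_0, sub_zero] at h3
    exact h3
  have heg : e * g ∈ J := by
    have := he2 (Submodule.smul_mem_pointwise_smul g e m hgm)
    simpa [smul_eq_mul] using this
  have hee : e ∈ K := (hmem e).2 heg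
  have h5 : eval x e = 0 := (hMx e).1 (hKM hee)
  have h6 := hm0 _ he1
  rw [map_sub, h5, map_one, zero_sub] at h6
  exact one_ne_zero (neg_eq_zero.1 h6)

end GX
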