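import Pool.Agent.Lib.MP_f80667_ag.Ng.A

/-! The fibres are finite. -/

open MvPolynomial

namespace GX

variable {κ : Type} [Field κ] {N d n : ℕ} {ι : Type} {f : ι → MvPolynomial (Fin N) κ}

/-- Proof: the class of `X j` modulo `(f)` is integral over `κ[c]` (`RingHom.Finite.to_isIntegral`): there is a monic `p` over `κ[c]` with `∑ cu U (p_i) X j ^ i ∈ (f)`; at a point `x` of the set: the monic polynomial `p` with the coefficients evaluated at `c = U y` has the root `x j`.
So `x j` is in a finite set for every `j`. -/
theorem fib_fin {U : Fin (d + 1) → Fin N → κ} {y : Fin N → κ}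
    (hfin : ((Ideal.Quotient.mk (Ideal.span (Set.range f))).comp (cu U).toRingHom).Finite) :
    {x : Fin N → κ | ∀ g ∈ Ideal.span (Set.range f) ⊔ ju U y, eval x g = 0}.Finite := by
  choose p hp hp0 using fun j : Fin N =>
    hfin.to_isIntegral (Ideal.Quotient.mk (Ideal.span (Set.range f)) (X j))
  refine (Set.Finite.pi' (t := fun j =>
    {z : κ | ((p j).map (eval fun r => ∑ j, U r j * y j)).IsRoot z}) fun j => ?_).subset
    fun x hx j => ?_
  · exact Polynomial.finite_setOfPred_isRoot ((hp j).map _).ne_zero
  · have hxI : ∀ a ∈ Ideal.span (Set.range f), eval x a = 0 := fun a ha =>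
      hx a (Ideal.mem_sup_left ha)
    have hxu : ∀ r, ∑ j, U r j * x j = ∑ j, U r j * y j := by
      intro r
      have h := hx _ (Ideal.mem_sup_right (Ideal.subset_span ⟨r, rfl⟩) :
        ∑ j, C (U r j) * (X j - C (y j)) ∈ Ideal.span (Set.range f) ⊔ ju U y)
      rw [map_sum] at h
      simp only [map_mul, map_sub, eval_C, eval_X, mul_sub, Finset.sum_sub_distrib] at h
      exact sub_eq_zero.1 h
    have hcomp : (Ideal.Quotient.lift (Ideal.span (Set.range f)) (eval x) hxI).comp
        ((Ideal.Quotient.mk (Ideal.span (Set.range f))).comp (cu U).toRingHom) =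
        eval fun r => ∑ j, U r j * y j := by
      refine MvPolynomial.ringHom_ext (fun a => ?_) fun r => ?_
      · change eval x (cu U (C a)) = _
        rw [show cu U (C a) = C a from (cu U).commutes a, eval_C, eval_C]
      · change eval x (cu U (X r)) = _
        rw [cu, aeval_X, eval_X, ← hxu r, lf, map_sum]
        exact Finset.sum_congr rfl fun j _ => by rw [map_mul, eval_C, eval_X]
    have h2 := congrArg (Ideal.Quotient.lift (Ideal.span (Set.range f)) (eval x) hxI) (hp0 j)
    rw [Polynomial.hom_eval₂, hcomp, map_zero, Ideal.Quotient.lift_mk, eval_X] at h2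
    change Polynomial.IsRoot _ _
    rw [Polynomial.IsRoot, Polynomial.eval_map]
    exact h2

end GX
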