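import Pool.Agent.Lib.MP_f80667_ag.Ng.F
import Pool.Agent.Lib.MP_f80667_ag.Gx.PjGb

/-! The maximal ideal of a nondegenerate point. -/

open MvPolynomial

namespace GX

variable {κ : Type} [Field κ] {N d n : ℕ} {ι : Type} {f : ι → MvPolynomial (Fin N) κ}

private theorem gc_taylor (x : Fin N → κ) (g : MvPolynomial (Fin N) κ) :
    g - C (eval x g) - ∑ j, C (eval x (pderiv j g)) * (X j - C (x j)) ∈
      Ideal.span (Set.range fun j : Fin N => (X j - C (x j) : MvPolynomial (Fin N) κ)) ^ 2 := by
  have h := taylor_sq κ x g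
  simpa only [Algebra.algebraMap_self, MvPolynomial.map_id, RingHom.id_apply] using h

/-- Proof: the rows `∂ f_i (x)` and `U_r` span `κ ^ N` (`ndg_rows`; the inverse matrix): the unit vector `e_j` is a combination `∑ a_k (row e k)`, so `X j - x_j = ∑ a_k (row e k) (X - x)`; `∑ ∂_l f_i (x) (X_l - x_l) ∈ (f) + 𝔪 ^ 2` (`taylor_sq` with `S = κ`),
`U_r (X - x) = U_r (X - y) ∈ ju U y`. -/
theorem nd_sup {U : Fin (d + 1) → Fin N → κ} {x y : Fin N → κ} (hx : ∀ i, eval x (f i) = 0)
    (hxy : ∀ r, ∑ j, U r j * (x j - y j) = 0) (h : Ndg f U x) (j : Fin N) :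
    X j - C (x j) ∈ (Ideal.span (Set.range f) ⊔ ju U y) ⊔
      Ideal.span (Set.range fun j : Fin N => (X j - C (x j) : MvPolynomial (Fin N) κ)) ^ 2 := by
  classical
  obtain ⟨e, he⟩ := ndg_rows h
  set H : Matrix (Fin N) (Fin N) κ := Matrix.of fun k => rwm f x U (e k) with hH
  have h2 : ∀ k, ∑ l, C (H k l) * (X l - C (x l)) ∈ (Ideal.span (Set.range f) ⊔ ju U y) ⊔
      Ideal.span (Set.range fun j : Fin N => (X j - C (x j) : MvPolynomial (Fin N) κ)) ^ 2 := by
    intro k
    rcases hk : e k with i | r
    · have h3 := gc_taylor x (f i)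
      rw [hx i, map_zero, sub_zero] at h3
      have h4 : ∑ l, C (H k l) * (X l - C (x l)) =
          f i - (f i - ∑ j, C (eval x (pderiv j (f i))) * (X j - C (x j))) := by
        rw [sub_sub_cancel]
        refine Finset.sum_congr rfl fun l _ => ?_
        rw [hH, Matrix.of_apply, hk]
        rfl
      rw [h4]
      exact Ideal.sub_mem _ (Ideal.mem_sup_left (Ideal.mem_sup_left
        (Ideal.subset_span ⟨i, rfl⟩))) (Ideal.mem_sup_right h3)
    · have h4 : ∑ l, C (H k l) * (X l - C (x l)) =
          ∑ l, C (U r l) * ((X l : MvPolynomial (Fin N) κ) - C (y l)) := by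
        have h5 : ∑ l, C (H k l) * (X l - C (x l)) =
            ∑ l, C (U r l) * ((X l : MvPolynomial (Fin N) κ) - C (x l)) := by
          refine Finset.sum_congr rfl fun l _ => ?_
          rw [hH, Matrix.of_apply, hk]
          rfl
        rw [h5, ← sub_eq_zero, ← Finset.sum_sub_distrib]
        have h6 : ∀ l, C (U r l) * ((X l : MvPolynomial (Fin N) κ) - C (x l)) -
            C (U r l) * ((X l : MvPolynomial (Fin N) κ) - C (y l)) =
            - C (U r l * (x l - y l)) := by
          intro l
          rw [map_mul, map_sub]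
          ring
        rw [Finset.sum_congr rfl fun l _ => h6 l, Finset.sum_neg_distrib, ← map_sum, hxy r,
          map_zero, neg_zero]
      rw [h4]
      exact Ideal.mem_sup_left (Ideal.mem_sup_right (Ideal.subset_span ⟨r, rfl⟩))
  have h5 : (X j - C (x j) : MvPolynomial (Fin N) κ) =
      ∑ k, C (H⁻¹ j k) * ∑ l, C (H k l) * (X l - C (x l)) := by
    have h6 : ∀ l, ∑ k, H⁻¹ j k * H k l = if j = l then 1 else 0 := by
      intro l
      have := congrFun (congrFun (Matrix.nonsing_inv_mul H (isUnit_iff_ne_zero.2 he)) j) l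
      rw [Matrix.mul_apply, Matrix.one_apply] at this
      exact this
    calc (X j - C (x j) : MvPolynomial (Fin N) κ)
        = ∑ l, C (if j = l then (1 : κ) else 0) *
          ((X l : MvPolynomial (Fin N) κ) - C (x l)) := by
          rw [Finset.sum_eq_single j]
          · rw [if_pos rfl, map_one, one_mul]
          · intro l _ hl
            rw [if_neg (Ne.symm hl), map_zero, zero_mul]
          · exact fun h => absurd (Finset.mem_univ _) h
      _ = ∑ l, ∑ k, C (H⁻¹ j k) * (C (H k l) * (X l - C (x l))) := by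
          refine Finset.sum_congr rfl fun l _ => ?_
          rw [← h6 l, map_sum, Finset.sum_mul]
          refine Finset.sum_congr rfl fun k _ => ?_
          rw [map_mul, mul_assoc]
      _ = _ := by
          rw [Finset.sum_comm]
          exact Finset.sum_congr rfl fun k _ => (Finset.mul_sum _ _ _).symm
  rw [h5]
  exact Ideal.sum_mem _ fun k _ => Ideal.mul_mem_left _ _ (h2 k)

end GX
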