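import Pool.Agent.Lib.MP_f80667_ag.Ng.Fg
import Pool.Agent.Lib.MP_f80667_ag.Ng.G
import Pool.Agent.Lib.MP_f80667_ag.Ng.Gb
import Pool.Agent.Lib.MP_f80667_ag.Ng.Gc
import Pool.Agent.Lib.MP_f80667_ag.Ng.H
import Pool.Agent.Lib.MP_f80667_ag.Ng.Cb
import Pool.Agent.Lib.MP_f80667_ag.Gx.PjCb
import Pool.Agent.Lib.MP_f80667_ag.Gx.PjD
import Pool.Agent.Lib.MP_f80667_ag.Gx.PjJc

/-! A general projection over `κ`: the linear forms have coefficients in `R`. -/

open MvPolynomial

namespace GX

variable {R κ : Type} [CommRing R] [IsDomain R] [IsDiscreteValuationRing R] [Field κ]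
  [Algebra R κ] {N d : ℕ} {ι : Type} {f : ι → MvPolynomial (Fin N) R}

private theorem nghb_lv {R κ : Type} [CommRing R] [Field κ] [Algebra R κ] {N : ℕ}
    (a : Fin N → R) (x : Fin N → κ) :
    eval x (lf fun j => algebraMap R κ (a j)) = lv a x := by
  simp only [lf, lv, map_sum, map_mul, eval_C, eval_X]

private theorem nghb_map {R κ : Type} [CommRing R] [Field κ] [Algebra R κ] {N : ℕ}
    (a : Fin N → R) : map (algebraMap R κ) (lf a) = lf fun j => algebraMap R κ (a j) := by
  simp only [lf, map_sum, map_mul, map_C, map_X]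

private theorem nghb_hom {R : Type} [CommRing R] {N : ℕ} (a : Fin N → R) :
    (lf a).IsHomogeneous 1 := by
  unfold lf
  refine IsHomogeneous.sum _ _ _ fun j _ => ?_
  have h := (isHomogeneous_C (Fin N) (a j)).mul (isHomogeneous_X R j)
  rwa [zero_add] at h

private theorem nghb_unit {R : Type} [Field R] {N : ℕ} {I : Ideal (MvPolynomial (Fin N) R)}
    {a : R} (ha : a ≠ 0) {g : MvPolynomial (Fin N) R} (h : C a * g ∈ I) : g ∈ I := by
  have h1 := I.mul_mem_left (C a⁻¹) h
  rwa [← mul_assoc, ← C_mul, inv_mul_cancel₀ ha, C_1, one_mul] at h1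

private theorem nghb_sup {κ : Type} [Field κ] {N : ℕ} {I I' : Ideal (MvPolynomial (Fin N) κ)}
    {S S' : Set (MvPolynomial (Fin N) κ)} (hI : I = Ideal.span S) (hI' : I' = Ideal.span S')
    {x : Fin N → κ} (h : ∀ g ∈ S, eval x g = 0) (h' : ∀ g ∈ S', eval x g = 0)
    {g : MvPolynomial (Fin N) κ} (hg : g ∈ I ⊔ I') : eval x g = 0 := by
  subst hI hI'
  rw [← Ideal.span_union] at hg
  have h1 : Ideal.span (S ∪ S') ≤ RingHom.ker (eval x) := by
    rw [Ideal.span_le]
    rintro g (hg | hg)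
    · exact h g hg
    · exact h' g hg
  exact h1 hg

/-- Over an algebraically closed field. Proof: `AlgebraicClosure κ` is isomorphic to `κ` (`IsAlgClosed.algebraMap_bijective_of_isIntegral`). -/
theorem Gdk.nsg' [IsAlgClosed κ] {f : ι → MvPolynomial (Fin N) κ} (hf : Gdk f d) : Nsg f d := by
  refine ⟨hf.hom, hf.prime, hf.dim, fun x hx => ?_⟩
  obtain ⟨e, he⟩ : ∃ e : κ ≃+* AlgebraicClosure κ, ∀ a, e a = algebraMap κ _ a :=
    ⟨RingEquiv.ofBijective (algebraMap κ (AlgebraicClosure κ))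
      IsAlgClosed.algebraMap_bijective_of_isIntegral, fun a => rfl⟩
  have hev : ∀ g : MvPolynomial (Fin N) κ,
      eval x (map (algebraMap κ (AlgebraicClosure κ)) g) = e (eval (fun j => e.symm (x j)) g) := by
    intro g
    induction g using MvPolynomial.induction_on with
    | C a => rw [map_C, eval_C, eval_C, he]
    | add p q hp hq => rw [map_add, map_add, map_add, map_add, hp, hq]
    | mul_X p i hp => rw [map_mul, map_mul, map_mul, map_mul, hp, map_X, eval_X, eval_X,
        RingEquiv.apply_symm_apply]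
  have hx' : Zp f fun j => e.symm (x j) := by
    refine ⟨fun h => hx.1 (funext fun j => ?_), fun i => ?_⟩
    · have h1 := congrFun h j
      rw [Pi.zero_apply] at h1
      rw [Pi.zero_apply]
      exact (map_eq_zero_iff e.symm e.symm.injective).1 h1
    · have h1 := hx.2 i
      rw [hev] at h1
      exact (map_eq_zero_iff e e.injective).1 h1
  have h2 := hf.nsg _ hx'
  have hmem : ∀ t : Fin N → κ, t ∈ tgs f (fun j => e.symm (x j)) ↔ (fun j => e (t j)) ∈
      tgs (fun i => map (algebraMap κ (AlgebraicClosure κ)) (f i)) x := by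
    intro t
    rw [mem_tgs, mem_tgs]
    refine forall_congr' fun i => ?_
    have h3 : ∑ j, eval x (pderiv j (map (algebraMap κ (AlgebraicClosure κ)) (f i))) * e (t j) =
        e (∑ j, eval (fun j => e.symm (x j)) (pderiv j (f i)) * t j) := by
      rw [map_sum]
      refine Finset.sum_congr rfl fun j _ => ?_
      rw [map_mul, pderiv_map, hev]
    rw [h3]
    exact (map_eq_zero_iff e e.injective).symm
  have h4 : Module.rank κ (tgs f fun j => e.symm (x j)) = Module.rank (AlgebraicClosure κ)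
      (tgs (fun i => map (algebraMap κ (AlgebraicClosure κ)) (f i)) x) := by
    refine rank_eq_of_equiv_equiv (e : κ → AlgebraicClosure κ)
      { toFun := fun t => ⟨fun j => e (t.1 j), (hmem t.1).1 t.2⟩
        invFun := fun t => ⟨fun j => e.symm (t.1 j), (hmem _).2 (by
          have h5 : (fun j => e (e.symm (t.1 j))) = t.1 := funext fun j =>
            e.apply_symm_apply (t.1 j)
          rw [h5]
          exact t.2)⟩
        left_inv := fun t => Subtype.ext (funext fun j => e.symm_apply_apply (t.1 j))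
        right_inv := fun t => Subtype.ext (funext fun j => e.apply_symm_apply (t.1 j))
        map_add' := fun t t' => Subtype.ext (funext fun j => map_add e (t.1 j) (t'.1 j)) }
      e.bijective fun r t => ?_
    exact Subtype.ext (funext fun j => map_mul e r (t.1 j))
  rw [Module.finrank, ← h4]
  exact h2

/-- **A general projection.** Proof: over `κ`: `exists_h1` (for `Gdk.nsg'`) and `Gdk.exists_hd`; `exists_ptR` for the product: `U` over `R`. `X k ^ s ∈ (f̄) + (Ū x)` for all `k`, `nakR` for the family `f, U x` (index set `ι ⊕ Fin (d + 1)`) gives the second statement. `U y ≠ 0` as in `exists_uv` (`Gx/PjNb`).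
`fin_low` over `κ`, `fib_fin`, `rad_of_nd` with `nd_sup`; `V` = `exists_vR`; `interp`. -/
theorem Gdr.exists_uv (hR : Rk R κ) [IsAlgClosed κ] (hf : Gdr κ f d) {y : Fin N → κ}
    (hy : Zp (fr κ f) y) :
    ∃ (U : Fin (d + 1) → Fin N → R) (V : Fin N → R) (Z : Finset (Fin N → κ)),
      (∀ k, ∃ s, (X k : MvPolynomial (Fin N) R) ^ s ∈
        Ideal.span (Set.range f) ⊔ Ideal.span (Set.range fun r => lf (U r))) ∧
      (fun r => lv (U r) y) ≠ (0 : Fin (d + 1) → κ) ∧
      (∀ x ∈ Z, (∀ i, aeval x (f i) = 0) ∧ ∀ r, lv (U r) x = lv (U r) y) ∧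
      (∀ x ∈ Z, ∀ x' ∈ Z, lv V x = lv V x' → x = x') ∧
      ∀ g : MvPolynomial (Fin N) κ, ∃ q : Polynomial κ, q.degree < Z.card ∧
        g - Polynomial.aeval (map (algebraMap R κ) (lf V)) q ∈ Ideal.span (Set.range (fr κ f)) ⊔
          ju (fun r j => algebraMap R κ (U r j)) y := by
  classical
  obtain ⟨f', hf'⟩ : ∃ f' : ι → MvPolynomial (Fin N) κ, f' = fr κ f := ⟨_, rfl⟩
  have hred : Gdk f' d := by rw [hf']; exact hf.red
  have hy' : Zp f' y := by rw [hf']; exact hy
  obtain ⟨h1, h10, hh1⟩ := exists_h1 hred.nsg'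
  obtain ⟨h2, h20, hh2⟩ := hred.exists_hd hy'
  obtain ⟨u, hu⟩ := exists_ptR hR.inf (mul_ne_zero h10 h20)
  rw [map_mul] at hu
  obtain ⟨U, hU⟩ : ∃ U : Fin (d + 1) → Fin N → R, U = fun r j => u (r, j) := ⟨_, rfl⟩
  obtain ⟨W, hW⟩ : ∃ W : Fin (d + 1) → Fin N → κ, W = fun r j => algebraMap R κ (U r j) :=
    ⟨_, rfl⟩
  have hWu : (fun q : Fin (d + 1) × Fin N => W q.1 q.2) = fun q => algebraMap R κ (u q) := by
    rw [hW, hU]
  have hu1 : aeval (fun q : Fin (d + 1) × Fin N => W q.1 q.2) h1 ≠ 0 := by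
    rw [hWu, MvPolynomial.aeval_eq_eval]
    exact left_ne_zero_of_mul hu
  have hu2 : eval (fun q : Fin (d + 1) × Fin N => W q.1 q.2) h2 ≠ 0 := by
    rw [hWu]
    exact right_ne_zero_of_mul hu
  have hFκ : ∀ k, ∃ s, (X k : MvPolynomial (Fin N) κ) ^ s ∈
      Ideal.span (Set.range f') ⊔ Ideal.span (Set.range fun r => lf (W r)) := fun k => by
    obtain ⟨s, hs⟩ := hh1 κ W k
    rw [jf_self] at hs
    exact ⟨s, nghb_unit hu1 hs⟩
  have hlv : ∀ (r : Fin (d + 1)) (x : Fin N → κ), eval x (lf (W r)) = lv (U r) x := fun r x => by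
    rw [hW]
    exact nghb_lv (U r) x
  have hne : (fun r => lv (U r) y) ≠ (0 : Fin (d + 1) → κ) := by
    intro h
    apply hy.1
    funext k
    obtain ⟨s, hs⟩ := hFκ k
    have h3 := nghb_sup rfl rfl (x := y) (by rintro _ ⟨i, rfl⟩; exact hy'.2 i) (by
      rintro _ ⟨r, rfl⟩
      change eval y (lf (W r)) = 0
      rw [hlv]
      exact congrFun h r) hs
    rw [map_pow, eval_X] at h3
    by_contra h4
    exact pow_ne_zero s h4 h3
  have hcl : ∀ k, ∃ s, (X k : MvPolynomial (Fin N) R) ^ s ∈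
      Ideal.span (Set.range f) ⊔ Ideal.span (Set.range fun r => lf (U r)) := by
    have h5 : Set.range (Sum.elim f fun r => lf (U r)) =
        Set.range f ∪ Set.range fun r => lf (U r) := Set.Sum.elim_range _ _
    have h6 : Set.range (fr κ (Sum.elim f fun r => lf (U r))) =
        Set.range f' ∪ Set.range fun r => lf (W r) := by
      have h7 : fr κ (Sum.elim f fun r => lf (U r)) = Sum.elim f' fun r => lf (W r) := by
        funext i
        rcases i with i | r
        · change map (algebraMap R κ) (f i) = f' i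
          rw [hf']
        · change map (algebraMap R κ) (lf (U r)) = lf (W r)
          rw [nghb_map, hW]
      rw [h7]
      exact Set.Sum.elim_range _ _
    obtain ⟨s, hs⟩ := nakR hR (f := Sum.elim f fun r => lf (U r)) (by
      rintro (i | r)
      · exact hf.hom i
      · exact ⟨1, nghb_hom (U r)⟩) (fun k => by
        obtain ⟨s, hs⟩ := hFκ k
        rw [h6, Ideal.span_union]
        exact ⟨s, hs⟩)
    intro k
    rw [h5, Ideal.span_union] at hs
    exact ⟨s, hs k⟩
  have hom' : ∀ i, ∃ e, (f' i).IsHomogeneous e := hred.hom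
  have hz : ∀ x : Fin N → κ, (∀ g ∈ Ideal.span (Set.range f') ⊔ ju W y, eval x g = 0) →
      (∀ i, eval x (f' i) = 0) ∧ ∀ r, ∑ j, W r j * (x j - y j) = 0 := by
    intro x hx
    refine ⟨fun i => hx _ (Ideal.mem_sup_left (Ideal.subset_span ⟨i, rfl⟩)), fun r => ?_⟩
    have h3 := hx _ (Ideal.mem_sup_right (Ideal.subset_span ⟨r, rfl⟩))
    simp only [map_sum, map_mul, map_sub, eval_C, eval_X] at h3
    exact h3
  have hJ : (Ideal.span (Set.range f') ⊔ ju W y).IsRadical := by
    refine rad_of_nd fun x hx j => ?_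
    obtain ⟨h3, h4⟩ := hz x hx
    exact nd_sup h3 h4 (hh2 W hu2 x h3 h4) j
  have hZ := fib_fin (y := y) (fin_low hom' hFκ)
  obtain ⟨V, hV⟩ := exists_vR hR.inf hZ
  have hv : ∀ x : Fin N → κ, eval x (map (algebraMap R κ) (lf V)) = lv V x := fun x => by
    rw [nghb_map]
    exact nghb_lv V x
  have hint := interp hJ (Z := hZ.toFinset) (fun x => by rw [Set.Finite.mem_toFinset]; rfl)
    (v := map (algebraMap R κ) (lf V)) (fun x hx x' hx' h => by
      rw [hv, hv] at h
      exact hV x ((Set.Finite.mem_toFinset hZ).1 hx) x' ((Set.Finite.mem_toFinset hZ).1 hx') h)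
  refine ⟨U, V, hZ.toFinset, hcl, hne, fun x hx => ?_, fun x hx x' hx' h =>
    hV x ((Set.Finite.mem_toFinset hZ).1 hx) x' ((Set.Finite.mem_toFinset hZ).1 hx') h,
      fun g => ?_⟩
  · obtain ⟨h3, h4⟩ := hz x ((Set.Finite.mem_toFinset hZ).1 hx)
    refine ⟨fun i => ?_, fun r => ?_⟩
    · have h5 := h3 i
      rw [hf'] at h5
      change eval x (map (algebraMap R κ) (f i)) = 0 at h5
      rw [eval_map] at h5
      exact h5
    · have h5 := h4 r
      simp only [mul_sub, Finset.sum_sub_distrib, hW] at h5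
      exact sub_eq_zero.1 h5
  · obtain ⟨q, hq, hq'⟩ := hint g
    refine ⟨q, hq, ?_⟩
    subst hW hf'
    exact hq'

end GX
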