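import Pool.Agent.Lib.MP_f80667_ag.Ng.A

/-! Nakayama at a point of the projective space over the residue field. -/

open MvPolynomial

namespace GX

/-- Proof: copy of `PjK_abs` in `Gx/PjK`. -/
theorem nak_abs {A Q : Type} [CommRing A] [CommRing Q] (φ : A →+* Q) (hφ : φ.Finite)
    (J : Ideal A) {m : ℕ} (w : Q)
    (h : ∀ g : Q, ∃ b : Fin m → A, g - ∑ i, φ (b i) * w ^ (i : ℕ) ∈ J.map φ) :
    ∃ D : A, D - 1 ∈ J ∧ ∀ g : Q, ∃ a : Fin m → A, φ D * g = ∑ i, φ (a i) * w ^ (i : ℕ) := by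
  let _ : Algebra A Q := φ.toAlgebra
  have hsm : ∀ (a : A) (x : Q), a • x = φ a * x := fun a x => Algebra.smul_def a x
  have hfin : Module.Finite A Q := hφ
  have hle : (⊤ : Submodule A Q) ≤
      Submodule.span A (Set.range fun i : Fin m => w ^ (i : ℕ)) ⊔ J • (⊤ : Submodule A Q) := by
    intro g _
    obtain ⟨b, hb⟩ := h g
    rw [Ideal.smul_top_eq_map]
    have e : g = (∑ i, φ (b i) * w ^ (i : ℕ)) + (g - ∑ i, φ (b i) * w ^ (i : ℕ)) := by ring
    rw [e]
    refine Submodule.add_mem_sup ?_ hb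
    refine Submodule.sum_mem _ fun i _ => ?_
    rw [← hsm]
    exact Submodule.smul_mem _ _ (Submodule.subset_span ⟨i, rfl⟩)
  obtain ⟨D, hD, hDN⟩ := Submodule.exists_sub_one_mem_and_smul_le_of_fg_of_le_sup
    (Module.Finite.fg_top) (le_refl _) hle
  refine ⟨D, hD, fun g => ?_⟩
  have hg : D • g ∈ Submodule.span A (Set.range fun i : Fin m => w ^ (i : ℕ)) :=
    hDN (Submodule.smul_mem_pointwise_smul g D ⊤ trivial)
  rw [Submodule.mem_span_range_iff_exists_fun] at hg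
  obtain ⟨a, ha⟩ := hg
  refine ⟨a, ?_⟩
  rw [← hsm, ← ha]
  exact Finset.sum_congr rfl fun i _ => hsm _ _

end GX
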