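import Pool.Agent.Lib.MP_f80667_ag.Ng.I
import Pool.Agent.Lib.MP_f80667_ag.Gx.PjE

/-! Descent of the generation by powers to the subfield of the point. -/

open MvPolynomial

namespace GX

variable {R κ : Type} [CommRing R] [Field κ] [Algebra R κ] {N d m : ℕ} {ι : Type}
  {f : ι → MvPolynomial (Fin N) R}

private theorem ib_lc {k K : Type} [CommRing k] [CommRing K] [Algebra k K] {σ : Type}
    (l : K →ₗ[k] k) (g : MvPolynomial σ K) :
    ∃ g0 : MvPolynomial σ k, ∀ m, coeff m g0 = l (coeff m g) := by
  classical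
  refine ⟨∑ m ∈ g.support, monomial m (l (coeff m g)), fun m => ?_⟩
  rw [coeff_sum]
  simp only [coeff_monomial]
  rw [Finset.sum_ite_eq' g.support m fun m => l (coeff m g)]
  by_cases h : m ∈ g.support
  · rw [if_pos h]
  · rw [if_neg h, notMem_support_iff.1 h, map_zero]

private theorem ib_mul {k K : Type} [CommRing k] [CommRing K] [Algebra k K] {σ : Type}
    (l : K →ₗ[k] k) {L : MvPolynomial σ K → MvPolynomial σ k}
    (hL : ∀ g m, coeff m (L g) = l (coeff m g)) (a : MvPolynomial σ K) (q : MvPolynomial σ k) :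
    L (a * map (algebraMap k K) q) = L a * q := by
  classical
  ext m
  rw [hL, coeff_mul, coeff_mul, map_sum]
  refine Finset.sum_congr rfl fun x _ => ?_
  rw [hL, coeff_map, mul_comm (coeff x.1 a), ← Algebra.smul_def, map_smul, smul_eq_mul,
    mul_comm]

private theorem ib_fun {k K : Type} [CommRing k] [CommRing K] [Algebra k K] {σ T : Type}
    (l : K →ₗ[k] k) (hl : l 1 = 1) (F : T → MvPolynomial σ k) (v : MvPolynomial σ k) {m : ℕ}
    (g : MvPolynomial σ k) (q : Fin m → K)
    (h : map (algebraMap k K) g - ∑ i, C (q i) * map (algebraMap k K) v ^ (i : ℕ) ∈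
      Ideal.span (Set.range fun t => map (algebraMap k K) (F t))) :
    g - ∑ i, C (l (q i)) * v ^ (i : ℕ) ∈ Ideal.span (Set.range F) := by
  classical
  choose L hL using fun g : MvPolynomial σ K => ib_lc l g
  have hadd : ∀ x y, L (x + y) = L x + L y := by
    intro x y
    ext m
    rw [hL, coeff_add, map_add, coeff_add, hL, hL]
  have hzero : L 0 = 0 := by
    ext m
    rw [hL, coeff_zero, map_zero, coeff_zero]
  have hC : ∀ a, L (C a) = C (l a) := by
    intro a
    ext m
    rw [hL, coeff_C, coeff_C]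
    by_cases hm : 0 = m
    · rw [if_pos hm, if_pos hm]
    · rw [if_neg hm, if_neg hm, map_zero]
  let Lh : MvPolynomial σ K →+ MvPolynomial σ k :=
    { toFun := L, map_zero' := hzero, map_add' := hadd }
  have key : ∀ x ∈ Ideal.span (Set.range fun t => map (algebraMap k K) (F t)),
      ∀ a : MvPolynomial σ K, L (a * x) ∈ Ideal.span (Set.range F) := by
    intro x hx
    induction hx using Submodule.span_induction with
    | mem x hx =>
      intro a
      obtain ⟨i, rfl⟩ := hx
      change L (a * map (algebraMap k K) (F i)) ∈ _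
      rw [ib_mul l hL]
      exact Ideal.mul_mem_left _ _ (Ideal.subset_span ⟨i, rfl⟩)
    | zero =>
      intro a
      rw [mul_zero, hzero]
      exact Ideal.zero_mem _
    | add x y _ _ hx hy =>
      intro a
      rw [mul_add, hadd]
      exact Ideal.add_mem _ (hx a) (hy a)
    | smul b x _ hx =>
      intro a
      rw [smul_eq_mul, ← mul_assoc]
      exact hx (a * b)
  have h1 := key _ h 1
  rw [one_mul] at h1
  have e1 : L (map (algebraMap k K) g - ∑ i, C (q i) * map (algebraMap k K) v ^ (i : ℕ)) =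
      g - ∑ i, C (l (q i)) * v ^ (i : ℕ) := by
    have e2 : Lh (map (algebraMap k K) g - ∑ i, C (q i) * map (algebraMap k K) v ^ (i : ℕ)) =
        g - ∑ i, C (l (q i)) * v ^ (i : ℕ) := by
      rw [map_sub, map_sum]
      have e3 : Lh (map (algebraMap k K) g) = g := by
        change L (map (algebraMap k K) g) = g
        have e4 := ib_mul l hL 1 g
        rw [one_mul, ← map_one C, hC, hl, map_one, one_mul] at e4
        exact e4
      rw [e3]
      congr 1
      refine Finset.sum_congr rfl fun i _ => ?_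
      change L (C (q i) * map (algebraMap k K) v ^ (i : ℕ)) = _
      rw [← map_pow, ib_mul l hL, hC]
    exact e2
  rwa [e1] at h1

private theorem ib_lift {A k B : Type} [CommRing A] [CommRing k] [CommRing B] {n : ℕ} {T : Type}
    (π : A →+* k) (hπ : Function.Surjective π) (F : T → MvPolynomial (Fin n) A)
    (x : MvPolynomial (Fin n) A)
    (h : map π x ∈ Ideal.span (Set.range fun t => map π (F t)))
    (Θ : MvPolynomial (Fin n) A →+* B) (J : Ideal B) (h1 : ∀ t, Θ (F t) ∈ J)
    (h2 : ∀ a, π a = 0 → Θ (C a) ∈ J) : Θ x ∈ J := by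
  have e : Ideal.span (Set.range fun t => map π (F t)) =
      (Ideal.span (Set.range F)).map (map π : MvPolynomial (Fin n) A →+* MvPolynomial (Fin n) k) := by
    rw [Ideal.map_span, ← Set.range_comp]
    rfl
  rw [e, Ideal.mem_map_iff_of_surjective _ (map_surjective π hπ)] at h
  obtain ⟨z, hz, hzx⟩ := h
  have h3 : x - z ∈ RingHom.ker (map π : MvPolynomial (Fin n) A →+* MvPolynomial (Fin n) k) := by
    rw [RingHom.mem_ker, map_sub, hzx, sub_self]
  rw [MvPolynomial.ker_map] at h3
  have h4 : Ideal.map C (RingHom.ker π) ≤ J.comap Θ := by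
    rw [Ideal.map_le_iff_le_comap]
    intro a ha
    exact h2 a (RingHom.mem_ker.1 ha)
  have h5 : Ideal.span (Set.range F) ≤ J.comap Θ := by
    rw [Ideal.span_le]
    rintro _ ⟨t, rfl⟩
    exact h1 t
  have h6 : x = z + (x - z) := by ring
  rw [h6]
  exact Ideal.add_mem (J.comap Θ) (h5 hz) (h4 h3)

private theorem ib_core {k : Type} [Field k] [Algebra R k] [Algebra k κ] [IsScalarTower R k κ]
    {U : Fin (d + 1) → Fin N → R} {V : Fin N → R} {y : Fin N → κ}
    (π : MvPolynomial (Fin (d + 1)) R →ₐ[R] k) (hπ : Function.Surjective π)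
    (hπX : ∀ r, algebraMap k κ (π (X r)) = lv (U r) y)
    (g : MvPolynomial (Fin N) R) (q : Polynomial κ) (hq : q.degree < m)
    (h : map (algebraMap R κ) g - Polynomial.aeval (map (algebraMap R κ) (lf V)) q ∈
      Ideal.span (Set.range (fr κ f)) ⊔ ju (fun r j => algebraMap R κ (U r j)) y) :
    ∃ b : Fin m → MvPolynomial (Fin (d + 1)) R, g - ∑ i, cu U (b i) * lf V ^ (i : ℕ) ∈
      Ideal.span (Set.range f) ⊔ (RingHom.ker π).map (cu U).toRingHom := by
  classical
  obtain ⟨l, hl⟩ := LinearMap.exists_leftInverse_of_injective (Algebra.linearMap k κ)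
    (LinearMap.ker_eq_bot.2 (algebraMap k κ).injective)
  have hl1 : l 1 = 1 := by
    have := LinearMap.congr_fun hl 1
    rw [LinearMap.comp_apply, Algebra.linearMap_apply, map_one] at this
    exact this
  have hRk : ∀ p : MvPolynomial (Fin N) R, map (algebraMap R κ) p =
      map (algebraMap k κ) (map (algebraMap R k) p) := by
    intro p
    rw [map_map, ← IsScalarTower.algebraMap_eq]
  have hq' : Polynomial.aeval (map (algebraMap R κ) (lf V)) q =
      ∑ i : Fin m, C (q.coeff i) * map (algebraMap R κ) (lf V) ^ (i : ℕ) := by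
    rw [Fin.sum_univ_eq_sum_range
      (fun i => C (q.coeff i) * map (algebraMap R κ) (lf V) ^ (i : ℕ)) m]
    by_cases h0 : q = 0
    · rw [h0, map_zero]
      symm
      refine Finset.sum_eq_zero fun i _ => ?_
      rw [Polynomial.coeff_zero, map_zero, zero_mul]
    · rw [Polynomial.aeval_eq_sum_range' ((Polynomial.natDegree_lt_iff_degree_lt h0).2 hq)]
      refine Finset.sum_congr rfl fun i _ => ?_
      rw [smul_eq_C_mul]
  let F : ι ⊕ Fin (d + 1) → MvPolynomial (Fin N) (MvPolynomial (Fin (d + 1)) R) :=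
    Sum.elim (fun i => map C (f i)) fun r => map C (lf (U r)) - C (X r)
  have hπC : ∀ p : MvPolynomial (Fin N) R, map (algebraMap k κ)
      (map (π : MvPolynomial (Fin (d + 1)) R →+* k) (map C p)) = map (algebraMap R κ) p := by
    intro p
    have e0 : (((algebraMap k κ).comp (π : MvPolynomial (Fin (d + 1)) R →+* k)).comp C :
        R →+* κ) = algebraMap R κ := by
      refine RingHom.ext fun r => ?_
      change algebraMap k κ (π (C r)) = algebraMap R κ r
      rw [← algebraMap_eq, AlgHom.commutes, ← IsScalarTower.algebraMap_apply]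
    rw [map_map, map_map, e0]
  have hF1 : Ideal.span (Set.range (fr κ f)) ⊔ ju (fun r j => algebraMap R κ (U r j)) y =
      Ideal.span (Set.range fun t => map (algebraMap k κ)
        (map (π : MvPolynomial (Fin (d + 1)) R →+* k) (F t))) := by
    have e1 : (fun t => map (algebraMap k κ)
        (map (π : MvPolynomial (Fin (d + 1)) R →+* k) (F t))) =
        Sum.elim (fr κ f) fun r => ∑ j, C (algebraMap R κ (U r j)) * (X j - C (y j)) := by
      funext t
      rcases t with i | r
      · exact hπC (f i)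
      · change map (algebraMap k κ) (map (π : MvPolynomial (Fin (d + 1)) R →+* k)
          (map C (lf (U r)) - C (X r))) = ∑ j, C (algebraMap R κ (U r j)) * (X j - C (y j))
        rw [map_sub, map_sub, hπC, map_C, map_C]
        have e2 : algebraMap k κ ((π : MvPolynomial (Fin (d + 1)) R →+* k) (X r)) =
            lv (U r) y := hπX r
        rw [e2]
        unfold lf lv
        rw [map_sum, map_sum, ← Finset.sum_sub_distrib]
        refine Finset.sum_congr rfl fun j _ => ?_
        rw [map_mul, map_C, map_X, map_mul]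
        ring
    rw [e1, Set.Sum.elim_range, Ideal.span_union]
    rfl
  rw [hF1, hq', ← hπC g, ← hπC (lf V)] at h
  have h1 := ib_fun l hl1 (fun t => map (π : MvPolynomial (Fin (d + 1)) R →+* k) (F t))
    (map (π : MvPolynomial (Fin (d + 1)) R →+* k) (map C (lf V)))
    (map (π : MvPolynomial (Fin (d + 1)) R →+* k) (map C g)) (fun i : Fin m => q.coeff i) h
  choose b hb using fun i : Fin m => hπ (l (q.coeff i))
  refine ⟨b, ?_⟩
  have h2 : map (π : MvPolynomial (Fin (d + 1)) R →+* k)
      (map C g - ∑ i : Fin m, C (b i) * map C (lf V) ^ (i : ℕ)) ∈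
      Ideal.span (Set.range fun t => map (π : MvPolynomial (Fin (d + 1)) R →+* k) (F t)) := by
    rw [map_sub, map_sum]
    have e3 : ∀ i : Fin m, map (π : MvPolynomial (Fin (d + 1)) R →+* k)
        (C (b i) * map C (lf V) ^ (i : ℕ)) = C (l (q.coeff i)) *
          map (π : MvPolynomial (Fin (d + 1)) R →+* k) (map C (lf V)) ^ (i : ℕ) := by
      intro i
      rw [map_mul, map_pow, map_C, ← hb i]
      rfl
    rw [Finset.sum_congr rfl fun i _ => e3 i]
    exact h1
  let Θ : MvPolynomial (Fin N) (MvPolynomial (Fin (d + 1)) R) →+* MvPolynomial (Fin N) R :=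
    eval₂Hom (cu U).toRingHom X
  have hΘC : ∀ a, Θ (C a) = cu U a := fun a => eval₂_C _ _ _
  have hΘm : ∀ p : MvPolynomial (Fin N) R, Θ (map C p) = p := by
    intro p
    change eval₂ (cu U).toRingHom X (map C p) = p
    rw [eval₂_map]
    have e4 : (cu U).toRingHom.comp (C : R →+* MvPolynomial (Fin (d + 1)) R) =
        (C : R →+* MvPolynomial (Fin N) R) := by
      ext1 r
      change cu U (C r) = C r
      rw [← algebraMap_eq, AlgHom.commutes, algebraMap_eq]
    rw [e4, eval₂_eta]
  have h3 := ib_lift (π : MvPolynomial (Fin (d + 1)) R →+* k) hπ F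
    (map C g - ∑ i : Fin m, C (b i) * map C (lf V) ^ (i : ℕ)) h2 Θ
    (Ideal.span (Set.range f) ⊔ (RingHom.ker π).map (cu U).toRingHom) ?_ ?_
  · rw [map_sub, hΘm, map_sum] at h3
    have e5 : ∀ i : Fin m, Θ (C (b i) * map C (lf V) ^ (i : ℕ)) =
        cu U (b i) * lf V ^ (i : ℕ) := by
      intro i
      rw [map_mul, map_pow, hΘm, hΘC]
    rw [Finset.sum_congr rfl fun i _ => e5 i] at h3
    exact h3
  · intro t
    rcases t with i | r
    · change Θ (map C (f i)) ∈ _
      rw [hΘm]
      exact Ideal.mem_sup_left (Ideal.subset_span ⟨i, rfl⟩)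
    · change Θ (map C (lf (U r)) - C (X r)) ∈ _
      rw [map_sub, hΘm, hΘC]
      have e6 : cu U (X r) = lf (U r) := aeval_X _ _
      rw [e6, sub_self]
      exact Ideal.zero_mem _
  · intro a ha
    rw [hΘC]
    exact Ideal.mem_sup_right (Ideal.mem_map_of_mem (cu U).toRingHom (RingHom.mem_ker.2 ha))

/-- Proof: `c = U y`. `k₁` = the image of `aeval c : R[c] → κ`: a subring, and a field because `κ` is integral over `R` (`isField_of_isIntegral_of_isField` or `Algebra.IsIntegral`: every element `a ≠ 0` of `k₁` satisfies a monic equation over the image of `R` in `k₁`, `κ` is integral over `k₁`,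
`k₁` is a field by `isField_of_isIntegral_of_isField`). A `k₁`-linear map `l : κ → k₁` with `l 1 = 1`, coefficientwise: `ḡ = ∑ l (q_i) v̄ ^ i + ∑ l (h_i) f̄_i + ∑ l (s_r) (Ū_r x - c_r)` over `k₁` (the coefficients of `ḡ`, `v̄`, `f̄_i`, `Ū_r x - c_r` are in `k₁`).
Lift the coefficients to `R[c]` (elements of `MvPolynomial (Fin N) (MvPolynomial (Fin (d + 1)) R)`): `g - ∑ b_i v ^ i - ∑ h_i f_i - ∑ s_r (U_r x - c_r)` has coefficients in the kernel of `aeval c`; apply the homomorphism `c_r ↦ U_r x`, `x ↦ x` to `MvPolynomial (Fin N) R`, where `U_r x - c_r ↦ 0`. -/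
theorem desc_pt (hint : Algebra.IsIntegral R κ) {U : Fin (d + 1) → Fin N → R} {V : Fin N → R}
    {y : Fin N → κ} (hg : ∀ g : MvPolynomial (Fin N) κ, ∃ q : Polynomial κ, q.degree < m ∧
      g - Polynomial.aeval (map (algebraMap R κ) (lf V)) q ∈ Ideal.span (Set.range (fr κ f)) ⊔
        ju (fun r j => algebraMap R κ (U r j)) y) (g : MvPolynomial (Fin N) R) :
    ∃ b : Fin m → MvPolynomial (Fin (d + 1)) R, g - ∑ i, cu U (b i) * lf V ^ (i : ℕ) ∈
      Ideal.span (Set.range f) ⊔ (RingHom.ker (aeval (fun r => lv (U r) y) :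
        MvPolynomial (Fin (d + 1)) R →ₐ[R] κ)).map (cu U).toRingHom := by
  obtain ⟨φ, hφ⟩ : ∃ φ : MvPolynomial (Fin (d + 1)) R →ₐ[R] κ,
    φ = aeval (fun r => lv (U r) y) := ⟨_, rfl⟩
  rw [← hφ]
  have hfield : IsField φ.range := by
    have : Algebra.IsIntegral φ.range κ := Algebra.IsIntegral.tower_top (R := R)
    exact isField_of_isIntegral_of_isField (S := κ) Subtype.val_injective
      (Field.toIsField κ)
  let _ : Field φ.range := hfield.toField
  obtain ⟨q, hq, h⟩ := hg (map (algebraMap R κ) g)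
  obtain ⟨b, hb⟩ := ib_core (k := φ.range) φ.rangeRestrict φ.rangeRestrict_surjective
    (fun r => by
      change φ (X r) = lv (U r) y
      rw [hφ, aeval_X]) g q hq h
  refine ⟨b, ?_⟩
  have e : RingHom.ker φ.rangeRestrict = RingHom.ker φ := by
    ext a
    rw [RingHom.mem_ker, RingHom.mem_ker]
    exact Subtype.ext_iff
  rw [← e]
  exact hb

end GX
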