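import Pool.Agent.Lib.MP_f80667_ag.Ng.Ib

/-! Nakayama at a point of the projective space over the residue field. -/

open MvPolynomial

namespace GX

variable {R κ : Type} [CommRing R] [Field κ] [Algebra R κ] {N d m : ℕ} {ι : Type}
  {f : ι → MvPolynomial (Fin N) R}

/-- **Nakayama.** Proof: `nak_abs` for `φ = (cu U).toRingHom` followed by the quotient map, `J` = the kernel of `aeval c`, `c = U y`, `w` = the class of `lf V`; the hypothesis is `desc_pt`; `D - 1 ∈ J`, so `aeval c D = 1`. -/
theorem nak_pt (hint : Algebra.IsIntegral R κ) {U : Fin (d + 1) → Fin N → R} {V : Fin N → R}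
    {y : Fin N → κ}
    (hfin : ((Ideal.Quotient.mk (Ideal.span (Set.range f))).comp (cu U).toRingHom).Finite)
    (hg : ∀ g : MvPolynomial (Fin N) κ, ∃ q : Polynomial κ, q.degree < m ∧
      g - Polynomial.aeval (map (algebraMap R κ) (lf V)) q ∈ Ideal.span (Set.range (fr κ f)) ⊔
        ju (fun r j => algebraMap R κ (U r j)) y) :
    ∃ D : MvPolynomial (Fin (d + 1)) R, aeval (fun r => (lv (U r) y : κ)) D ≠ 0 ∧
      ∀ g : MvPolynomial (Fin N) R, ∃ a : Fin m → MvPolynomial (Fin (d + 1)) R,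
        cu U D * g - ∑ i, cu U (a i) * lf V ^ (i : ℕ) ∈ Ideal.span (Set.range f) := by
  set I := Ideal.span (Set.range f) with hI
  set J : Ideal (MvPolynomial (Fin (d + 1)) R) := RingHom.ker (aeval (fun r => lv (U r) y) :
        MvPolynomial (Fin (d + 1)) R →ₐ[R] κ) with hJ
  obtain ⟨D, hD, hDg⟩ := nak_abs ((Ideal.Quotient.mk I).comp (cu U).toRingHom) hfin J
    (m := m) (Ideal.Quotient.mk I (lf V)) (by
      intro g
      obtain ⟨g, rfl⟩ := Ideal.Quotient.mk_surjective g
      obtain ⟨b, hb⟩ := desc_pt hint hg g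
      refine ⟨b, ?_⟩
      have h1 := Ideal.mem_map_of_mem (Ideal.Quotient.mk I) hb
      rw [Ideal.map_sup, Ideal.map_quotient_self, bot_sup_eq, Ideal.map_map] at h1
      rw [map_sub, map_sum] at h1
      simp only [map_mul, map_pow] at h1
      exact h1)
  refine ⟨D, ?_, fun g => ?_⟩
  · have h1 : aeval (fun r => (lv (U r) y : κ)) (D - 1) = 0 := hD
    rw [map_sub, map_one, sub_eq_zero] at h1
    rw [h1]
    exact one_ne_zero
  · obtain ⟨a, ha⟩ := hDg (Ideal.Quotient.mk I g)
    refine ⟨a, ?_⟩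
    rw [← Ideal.Quotient.eq_zero_iff_mem, map_sub, map_sum, map_mul, sub_eq_zero]
    simp only [map_mul, map_pow]
    exact ha

end GX
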