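import Pool.Agent.Lib.MP_f80667_ag.Gx.PjL
import Pool.Agent.Lib.MP_f80667_ag.Gx.Pe

/-! Homogeneous components. -/

open MvPolynomial

namespace GX

variable {F : Type} [CommRing F] {N d : ℕ} {ι : Type} {f : ι → MvPolynomial (Fin N) F}

private theorem ngLb_lf (a : Fin N → F) : (lf a).IsHomogeneous 1 := by
  rw [lf]
  exact IsHomogeneous.sum _ _ _ fun j _ => isHomogeneous_C_mul_X _ _

private theorem ngLb_mon (U : Fin (d + 1) → Fin N → F) (V : Fin N → F)
    (a : MvPolynomial (Fin (d + 1)) F) (j n : ℕ) :
    homogeneousComponent n (aeval (fun r => lf (U r)) a * lf V ^ j) =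
      if j ≤ n then aeval (fun r => lf (U r)) (homogeneousComponent (n - j) a) * lf V ^ j
      else 0 := by
  have hh : ∀ i, (aeval (fun r => lf (U r)) (homogeneousComponent i a) *
      lf V ^ j).IsHomogeneous (i + j) := by
    intro i
    have h1 : (aeval (fun r => lf (U r)) (homogeneousComponent i a)).IsHomogeneous (1 * i) :=
      (homogeneousComponent_isHomogeneous i a).aeval _ fun r => ngLb_lf (U r)
    have h2 : (lf V ^ j).IsHomogeneous (1 * j) := (ngLb_lf V).pow j
    rw [one_mul] at h1 h2
    exact h1.mul h2
  have hs : aeval (fun r => lf (U r)) a * lf V ^ j =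
      ∑ i ∈ Finset.range (a.totalDegree + 1),
        aeval (fun r => lf (U r)) (homogeneousComponent i a) * lf V ^ j := by
    rw [← Finset.sum_mul, ← map_sum, sum_homogeneousComponent]
  split_ifs with hj
  · have hc : ∀ i, homogeneousComponent n (aeval (fun r => lf (U r)) (homogeneousComponent i a) *
        lf V ^ j) = if i = n - j then
          aeval (fun r => lf (U r)) (homogeneousComponent (n - j) a) * lf V ^ j else 0 := by
      intro i
      rw [homogeneousComponent_of_mem (hh i)]
      by_cases hi : i = n - j
      · rw [if_pos (by omega), if_pos hi, hi]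
      · rw [if_neg (by omega), if_neg hi]
    rw [hs, map_sum, Finset.sum_congr rfl fun i _ => hc i, Finset.sum_ite_eq' _ (n - j)]
    split_ifs with he
    · rfl
    · rw [homogeneousComponent_eq_zero (n - j) a (by
        rw [Finset.mem_range] at he
        omega), map_zero, zero_mul]
  · rw [hs, map_sum]
    refine Finset.sum_eq_zero fun i _ => ?_
    rw [homogeneousComponent_of_mem (hh i), if_neg (by omega)]

/-- The component of degree `n` of `Q (U x, V x)` belongs to `∑ (component of degree n - j of the coefficient of Y ^ j) Y ^ j`. Proof: additivity: `Q = C (monomial) * Y ^ j`. -/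
theorem cl_compR (U : Fin (d + 1) → Fin N → F) (V : Fin N → F)
    (Q : Polynomial (MvPolynomial (Fin (d + 1)) F)) (n : ℕ) :
    homogeneousComponent n (cl U V Q) =
      cl U V (∑ j ∈ Finset.range (n + 1),
        Polynomial.C (homogeneousComponent (n - j) (Q.coeff j)) * Polynomial.X ^ j) := by
  induction Q using Polynomial.induction_on' with
  | add P Q hP hQ =>
    rw [map_add, map_add, hP, hQ, ← map_add, ← Finset.sum_add_distrib]
    congr 1
    refine Finset.sum_congr rfl fun j _ => ?_
    rw [Polynomial.coeff_add, map_add, map_add, add_mul]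
  | monomial j a =>
    have h1 : cl U V (Polynomial.monomial j a) = aeval (fun r => lf (U r)) a * lf V ^ j := by
      rw [← Polynomial.C_mul_X_pow_eq_monomial, cl, map_mul, map_pow, pe_C, pe_X]
    have h2 : ∀ i ∈ Finset.range (n + 1),
        Polynomial.C (homogeneousComponent (n - i) ((Polynomial.monomial j a).coeff i)) *
          Polynomial.X ^ i = if i = j then
            Polynomial.C (homogeneousComponent (n - j) a) * Polynomial.X ^ j else 0 := by
      intro i _
      rw [Polynomial.coeff_monomial]
      by_cases hi : i = j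
      · rw [if_pos hi.symm, if_pos hi, hi]
      · rw [if_neg (Ne.symm hi), if_neg hi, map_zero, map_zero, zero_mul]
    rw [h1, ngLb_mon, Finset.sum_congr rfl h2, Finset.sum_ite_eq' _ j]
    by_cases hj : j ≤ n
    · rw [if_pos hj, if_pos (Finset.mem_range.2 (by omega)), cl, map_mul, map_pow, pe_C, pe_X]
    · rw [if_neg hj, if_neg (by rw [Finset.mem_range]; omega), map_zero]

end GX
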