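import Pool.Agent.Lib.MP_f80667_ag.Gx.PjL
import Pool.Agent.Lib.MP_f80667_ag.Ng.Lb

/-! The equation of the hypersurface. -/

open MvPolynomial

namespace GX

variable {F : Type} [CommRing F] {N d : ℕ} {ι : Type} {f : ι → MvPolynomial (Fin N) F}

attribute [local instance] MvPolynomial.gradedAlgebra in
private lemma ngLc_comp (hf : ∀ i, ∃ e, (f i).IsHomogeneous e) {p : MvPolynomial (Fin N) F}
    (hp : p ∈ Ideal.span (Set.range f)) (n : ℕ) :
    homogeneousComponent n p ∈ Ideal.span (Set.range f) := by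
  have h1 : (Ideal.span (Set.range f)).IsHomogeneous (homogeneousSubmodule (Fin N) F) := by
    refine Ideal.homogeneous_span _ _ ?_
    rintro _ ⟨i, rfl⟩
    obtain ⟨e, he⟩ := hf i
    exact ⟨e, (mem_homogeneousSubmodule e (f i)).2 he⟩
  have h2 := h1 n hp
  rwa [show (DirectSum.decompose (homogeneousSubmodule (Fin N) F) p n : MvPolynomial (Fin N) F) =
    homogeneousComponent n p from decomposition.decompose'_apply p n] at h2

private lemma ngLc_coeff (G : Polynomial (MvPolynomial (Fin (d + 1)) F)) (n k : ℕ) :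
    (∑ j ∈ Finset.range (n + 1),
      Polynomial.C (homogeneousComponent (n - j) (G.coeff j)) * Polynomial.X ^ j).coeff k =
      if k ≤ n then homogeneousComponent (n - k) (G.coeff k) else 0 := by
  rw [Polynomial.finsetSum_coeff]
  simp only [Polynomial.coeff_C_mul, Polynomial.coeff_X_pow, mul_ite, mul_one, mul_zero]
  rw [Finset.sum_ite_eq]
  simp only [Finset.mem_range, Nat.lt_succ_iff]

/-- **The equation.** Proof: `A = F[x] / (f)` is a domain, integral over the polynomial ring `P = F[c]`, which is integrally closed; `G` is the minimal polynomial of `v = V x` over `P` (`minpoly.isIntegrallyClosed_dvd_iff`, for the `P`-algebra `A`).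
Homogeneous: the ideal `(f)` is homogeneous, so with `n = deg G` the polynomial `∑ (component of degree n - j of G_j) Y ^ j` (`cl_compR`) is in the kernel too, it is monic of degree `n` and a multiple of `G`: it is `G`. -/
theorem exists_GR [IsDomain F] [IsIntegrallyClosed (MvPolynomial (Fin (d + 1)) F)]
    (hom : ∀ i, ∃ e, (f i).IsHomogeneous e) (hprime : (Ideal.span (Set.range f)).IsPrime)
    {U : Fin (d + 1) → Fin N → F}
    (hinj0 : ∀ D : MvPolynomial (Fin (d + 1)) F, cu U D ∈ Ideal.span (Set.range f) → D = 0)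
    (hfin : ((Ideal.Quotient.mk (Ideal.span (Set.range f))).comp (cu U).toRingHom).Finite)
    (V : Fin N → F) :
    ∃ G : Polynomial (MvPolynomial (Fin (d + 1)) F), G.Monic ∧
      (∀ Q, cl U V Q ∈ Ideal.span (Set.range f) ↔ G ∣ Q) ∧
        ∀ j, (G.coeff j).IsHomogeneous (G.natDegree - j) := by
  have hdom : IsDomain (MvPolynomial (Fin N) F ⧸ Ideal.span (Set.range f)) :=
    Ideal.Quotient.isDomain _
  let _ : Algebra (MvPolynomial (Fin (d + 1)) F)
      (MvPolynomial (Fin N) F ⧸ Ideal.span (Set.range f)) :=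
    ((Ideal.Quotient.mk (Ideal.span (Set.range f))).comp (cu U).toRingHom).toAlgebra
  have hmap : ∀ p, algebraMap (MvPolynomial (Fin (d + 1)) F)
      (MvPolynomial (Fin N) F ⧸ Ideal.span (Set.range f)) p =
      Ideal.Quotient.mk (Ideal.span (Set.range f)) (cu U p) := fun _ => rfl
  have hinj : Function.Injective (algebraMap (MvPolynomial (Fin (d + 1)) F)
      (MvPolynomial (Fin N) F ⧸ Ideal.span (Set.range f))) := by
    rw [injective_iff_map_eq_zero]
    intro p hp
    rw [hmap, Ideal.Quotient.eq_zero_iff_mem] at hp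
    exact hinj0 p hp
  have hfaith : FaithfulSMul (MvPolynomial (Fin (d + 1)) F)
      (MvPolynomial (Fin N) F ⧸ Ideal.span (Set.range f)) :=
    (faithfulSMul_iff_algebraMap_injective _ _).2 hinj
  have hint : IsIntegral (MvPolynomial (Fin (d + 1)) F)
      (Ideal.Quotient.mk (Ideal.span (Set.range f)) (lf V)) := hfin.to_isIntegral _
  have hev : ∀ Q, cl U V Q ∈ Ideal.span (Set.range f) ↔
      Polynomial.aeval (Ideal.Quotient.mk (Ideal.span (Set.range f)) (lf V)) Q = 0 := by
    intro Q
    rw [← Ideal.Quotient.eq_zero_iff_mem, Polynomial.aeval_def]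
    have e : Ideal.Quotient.mk (Ideal.span (Set.range f)) (cl U V Q) =
        Polynomial.eval₂ (algebraMap (MvPolynomial (Fin (d + 1)) F)
          (MvPolynomial (Fin N) F ⧸ Ideal.span (Set.range f)))
          (Ideal.Quotient.mk (Ideal.span (Set.range f)) (lf V)) Q :=
      Polynomial.hom_eval₂ Q (cu U).toRingHom (Ideal.Quotient.mk (Ideal.span (Set.range f))) (lf V)
    rw [e]
  have hdvd : ∀ Q, cl U V Q ∈ Ideal.span (Set.range f) ↔
      minpoly (MvPolynomial (Fin (d + 1)) F)
        (Ideal.Quotient.mk (Ideal.span (Set.range f)) (lf V)) ∣ Q := fun Q =>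
    (hev Q).trans (minpoly.isIntegrallyClosed_dvd_iff hint Q)
  have hmon := minpoly.monic hint
  obtain ⟨G, hG⟩ : ∃ G, G = minpoly (MvPolynomial (Fin (d + 1)) F)
    (Ideal.Quotient.mk (Ideal.span (Set.range f)) (lf V)) := ⟨_, rfl⟩
  rw [← hG] at hdvd hmon
  refine ⟨G, hmon, hdvd, ?_⟩
  obtain ⟨G', hG'⟩ : ∃ G', G' = ∑ j ∈ Finset.range (G.natDegree + 1),
      Polynomial.C (homogeneousComponent (G.natDegree - j) (G.coeff j)) * Polynomial.X ^ j :=
    ⟨_, rfl⟩
  have hco : ∀ k, G'.coeff k =
      if k ≤ G.natDegree then homogeneousComponent (G.natDegree - k) (G.coeff k) else 0 := by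
    intro k
    rw [hG', ngLc_coeff]
  have hdeg : G'.natDegree ≤ G.natDegree := by
    rw [Polynomial.natDegree_le_iff_coeff_eq_zero]
    intro k hk
    rw [hco, if_neg (not_le.2 hk)]
  have hlead : G'.coeff G.natDegree = 1 := by
    rw [hco, if_pos le_rfl, Nat.sub_self, hmon.coeff_natDegree, homogeneousComponent_zero]
    simp
  have hmon' : G'.Monic := Polynomial.monic_of_natDegree_le_of_coeff_eq_one _ hdeg hlead
  have hd : G ∣ G' := by
    rw [← hdvd, hG', ← cl_compR]
    exact ngLc_comp hom ((hdvd G).2 dvd_rfl) _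
  have heq : G' = G := (Polynomial.eq_of_monic_of_dvd_of_natDegree_le hmon hmon' hd hdeg)
  intro j
  rw [← heq, hco, heq]
  split_ifs
  · exact homogeneousComponent_isHomogeneous _ _
  · exact isHomogeneous_zero _ _ _

end GX
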