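import Pool.Agent.Lib.MP_f80667_ag.Gx.PjL

/-! The discriminant. -/

open MvPolynomial

namespace GX

variable {F κ : Type} [CommRing F] [Field κ] [Algebra F κ] {N d : ℕ} {ι : Type}

/-- The discriminant. Proof: the resultant of `G` and its derivative (`Polynomial.exists_mul_add_mul_eq_C_resultant`, `Polynomial.resultant_map_map`, `Polynomial.resultant_eq_zero_iff`); `G = 1`: `D = 1`. -/
theorem exists_discR {G : Polynomial (MvPolynomial (Fin (d + 1)) F)} (hG : G.Monic)
    {c : Fin (d + 1) → κ}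
    (hs : (G.map (aeval c : MvPolynomial (Fin (d + 1)) F →ₐ[F] κ).toRingHom).Separable) :
    ∃ (D : MvPolynomial (Fin (d + 1)) F) (B B' : Polynomial (MvPolynomial (Fin (d + 1)) F)),
      B * G + B' * Polynomial.derivative G = Polynomial.C D ∧ aeval c D ≠ 0 := by
  by_cases hm : G.natDegree = 0
  · have hG1 : G = 1 := hG.natDegree_eq_zero.1 hm
    refine ⟨1, 1, 0, ?_, ?_⟩
    · rw [hG1, one_mul, zero_mul, add_zero, map_one]
    · rw [map_one]
      exact one_ne_zero
  obtain ⟨B, B', -, -, hB⟩ := Polynomial.exists_mul_add_mul_eq_C_resultant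
    (m := G.natDegree) (n := (Polynomial.derivative G).natDegree) G (Polynomial.derivative G)
    le_rfl le_rfl (Or.inl hm)
  refine ⟨_, B, B', by rw [mul_comm B, mul_comm B', hB], ?_⟩
  obtain ⟨φ, hφ⟩ : ∃ φ : MvPolynomial (Fin (d + 1)) F →+* κ,
      φ = (aeval c : MvPolynomial (Fin (d + 1)) F →ₐ[F] κ).toRingHom := ⟨_, rfl⟩
  rw [← hφ] at hs
  change (aeval c : MvPolynomial (Fin (d + 1)) F →ₐ[F] κ).toRingHom _ ≠ 0
  rw [← hφ, ← Polynomial.resultant_map_map]
  have hd : (Polynomial.derivative G).map φ = Polynomial.derivative (G.map φ) :=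
    (Polynomial.derivative_map G φ).symm
  have hgm : (G.map φ).Monic := hG.map φ
  have hgd : (G.map φ).natDegree = G.natDegree := hG.natDegree_map φ
  obtain ⟨k, hk⟩ := Nat.exists_eq_add_of_le
    (Polynomial.natDegree_map_le (f := φ) (p := Polynomial.derivative G))
  rw [hk, Polynomial.resultant_add_right_deg _ _ _ _ _ le_rfl, ← hgd]
  have hlc : (G.map φ).coeff (G.map φ).natDegree = 1 := hgm
  rw [hlc, one_pow, one_mul, hd]
  intro h0
  exact (Polynomial.resultant_eq_zero_iff.1 h0).2 hs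

end GX
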