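import Pool.Agent.Lib.MP_f80667_ag.Gx.PjL

/-! Homogeneous components of the discriminant. -/

open MvPolynomial

namespace GX

variable {F κ : Type} [CommRing F] [Field κ] [Algebra F κ] {N d : ℕ} {ι : Type}

attribute [local instance] MvPolynomial.gradedAlgebra in
private theorem ngd_hc_mul (p : MvPolynomial (Fin (d + 1)) F) {q : MvPolynomial (Fin (d + 1)) F}
    {b : ℕ} (hq : q.IsHomogeneous b) (m : ℕ) :
    homogeneousComponent m (p * q) =
      if b ≤ m then homogeneousComponent (m - b) p * q else 0 := by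
  have e1 : ∀ (r : MvPolynomial (Fin (d + 1)) F) (j : ℕ),
      ((DirectSum.decompose (homogeneousSubmodule (Fin (d + 1)) F) r j :
        homogeneousSubmodule (Fin (d + 1)) F j) : MvPolynomial (Fin (d + 1)) F) =
        homogeneousComponent j r := fun r j => decomposition.decompose'_apply r j
  have h := DirectSum.coe_decompose_mul_of_right_mem (homogeneousSubmodule (Fin (d + 1)) F)
    (a := p) (b := q) (i := b) m ((mem_homogeneousSubmodule b q).2 hq)
  rw [e1, e1] at h
  exact h

/-- The component of degree `e`. -/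
private noncomputable def ngd_cmp (e : ℕ) (P : Polynomial (MvPolynomial (Fin (d + 1)) F)) :
    Polynomial (MvPolynomial (Fin (d + 1)) F) :=
  ∑ j ∈ Finset.range (e + 1), Polynomial.monomial j (homogeneousComponent (e - j) (P.coeff j))

private theorem ngd_coeff (e : ℕ) (P : Polynomial (MvPolynomial (Fin (d + 1)) F)) (k : ℕ) :
    (ngd_cmp e P).coeff k = if k ≤ e then homogeneousComponent (e - k) (P.coeff k) else 0 := by
  rw [ngd_cmp, Polynomial.finsetSum_coeff]
  simp only [Polynomial.coeff_monomial]
  rw [Finset.sum_ite_eq' (Finset.range (e + 1)) k]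
  simp only [Finset.mem_range, Nat.lt_succ_iff]

private theorem ngd_add (e : ℕ) (P Q : Polynomial (MvPolynomial (Fin (d + 1)) F)) :
    ngd_cmp e (P + Q) = ngd_cmp e P + ngd_cmp e Q := by
  ext1 k
  rw [Polynomial.coeff_add, ngd_coeff, ngd_coeff, ngd_coeff]
  split_ifs with h
  · rw [Polynomial.coeff_add, map_add]
  · rw [add_zero]

private theorem ngd_C (e : ℕ) (D : MvPolynomial (Fin (d + 1)) F) :
    ngd_cmp e (Polynomial.C D) = Polynomial.C (homogeneousComponent e D) := by
  ext1 k
  rw [ngd_coeff, Polynomial.coeff_C, Polynomial.coeff_C]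
  rcases Nat.eq_zero_or_pos k with hk | hk
  · subst hk
    rw [if_pos (Nat.zero_le e), if_pos rfl, if_pos rfl, Nat.sub_zero]
  · rw [if_neg hk.ne', if_neg hk.ne', map_zero, ite_self]

private theorem ngd_mul (e n : ℕ) (P G : Polynomial (MvPolynomial (Fin (d + 1)) F))
    (hG : ∀ j, G.coeff j = 0 ∨ j ≤ n ∧ (G.coeff j).IsHomogeneous (n - j)) :
    ngd_cmp e (P * G) = if n ≤ e then ngd_cmp (e - n) P * G else 0 := by
  have hR : ∀ k, (if n ≤ e then ngd_cmp (e - n) P * G else 0).coeff k =
      ∑ x ∈ Finset.HasAntidiagonal.antidiagonal k, if n + x.1 ≤ e then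
        homogeneousComponent (e - n - x.1) (P.coeff x.1) * G.coeff x.2 else 0 := by
    intro k
    split_ifs with h
    · rw [Polynomial.coeff_mul]
      refine Finset.sum_congr rfl fun x _ => ?_
      rw [ngd_coeff]
      by_cases h1 : x.1 ≤ e - n
      · rw [if_pos h1, if_pos (by omega)]
      · rw [if_neg h1, if_neg (by omega), zero_mul]
    · rw [Polynomial.coeff_zero]
      refine (Finset.sum_eq_zero fun x _ => ?_).symm
      rw [if_neg (by omega)]
  ext1 k
  rw [hR, ngd_coeff]
  by_cases hk : k ≤ e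
  · rw [if_pos hk, Polynomial.coeff_mul, map_sum]
    refine Finset.sum_congr rfl fun x hx => ?_
    have hx1 : x.1 + x.2 = k := Finset.HasAntidiagonal.mem_antidiagonal.1 hx
    rcases hG x.2 with h | ⟨h1, h2⟩
    · rw [h, mul_zero, map_zero, mul_zero, ite_self]
    · rw [ngd_hc_mul _ h2]
      by_cases h3 : n + x.1 ≤ e
      · rw [if_pos (by omega), if_pos h3]
        have h4 : e - k - (n - x.2) = e - n - x.1 := by omega
        rw [h4]
      · rw [if_neg (by omega), if_neg h3]
  · rw [if_neg hk]
    refine (Finset.sum_eq_zero fun x hx => ?_).symm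
    have hx1 : x.1 + x.2 = k := Finset.HasAntidiagonal.mem_antidiagonal.1 hx
    rcases hG x.2 with h | ⟨h1, h2⟩
    · rw [h, mul_zero, ite_self]
    · rw [if_neg (by omega)]

/-- Proof: in the ring `MvPolynomial (Option (Fin (d + 1))) F` (`MvPolynomial.optionEquivLeft`) the ideal of `G` and `G_Y` is generated by two homogeneous polynomials (`Ideal.homogeneous_span`), so it contains the components
of `D`; one of them is not `0` at `c`. -/
theorem hom_discR {G : Polynomial (MvPolynomial (Fin (d + 1)) F)}
    (hh : ∀ j, (G.coeff j).IsHomogeneous (G.natDegree - j)) {c : Fin (d + 1) → κ}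
    {D : MvPolynomial (Fin (d + 1)) F} {B B' : Polynomial (MvPolynomial (Fin (d + 1)) F)}
    (hB : B * G + B' * Polynomial.derivative G = Polynomial.C D) (h : aeval c D ≠ 0) :
    ∃ (E : MvPolynomial (Fin (d + 1)) F) (A A' : Polynomial (MvPolynomial (Fin (d + 1)) F))
      (e : ℕ), E.IsHomogeneous e ∧
        A * G + A' * Polynomial.derivative G = Polynomial.C E ∧ aeval c E ≠ 0 := by
  have h1 : ∃ e, aeval c (homogeneousComponent e D) ≠ 0 := by
    by_contra hc
    push Not at hc
    apply h
    conv_lhs => rw [← sum_homogeneousComponent D]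
    rw [map_sum]
    exact Finset.sum_eq_zero fun i _ => hc i
  obtain ⟨e, he⟩ := h1
  have hG : ∀ j, G.coeff j = 0 ∨ j ≤ G.natDegree ∧
      (G.coeff j).IsHomogeneous (G.natDegree - j) := by
    intro j
    by_cases hj : j ≤ G.natDegree
    · exact Or.inr ⟨hj, hh j⟩
    · exact Or.inl (Polynomial.coeff_eq_zero_of_natDegree_lt (by omega))
  have hG' : ∀ j, (Polynomial.derivative G).coeff j = 0 ∨ j ≤ G.natDegree - 1 ∧
      ((Polynomial.derivative G).coeff j).IsHomogeneous (G.natDegree - 1 - j) := by
    intro j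
    rw [Polynomial.coeff_derivative]
    by_cases hj : j + 1 ≤ G.natDegree
    · refine Or.inr ⟨by omega, ?_⟩
      have h2 := hh (j + 1)
      have h3 : G.natDegree - (j + 1) = G.natDegree - 1 - j := by omega
      rw [h3] at h2
      have h4 : ((j : MvPolynomial (Fin (d + 1)) F) + 1) = C ((j : F) + 1) := by
        rw [map_add, map_natCast, map_one]
      rw [h4]
      have h5 := h2.mul (isHomogeneous_C (Fin (d + 1)) ((j : F) + 1))
      rwa [add_zero] at h5
    · refine Or.inl ?_
      rw [Polynomial.coeff_eq_zero_of_natDegree_lt (by omega), zero_mul]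
  have h2 := congrArg (ngd_cmp e) hB
  rw [ngd_add, ngd_C, ngd_mul e _ _ _ hG, ngd_mul e _ _ _ hG'] at h2
  refine ⟨homogeneousComponent e D,
    if G.natDegree ≤ e then ngd_cmp (e - G.natDegree) B else 0,
    if G.natDegree - 1 ≤ e then ngd_cmp (e - (G.natDegree - 1)) B' else 0, e,
    homogeneousComponent_isHomogeneous e D, ?_, he⟩
  rw [← h2, ite_mul, ite_mul, zero_mul, zero_mul]

end GX
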