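import Pool.Agent.Lib.MP_f80667_ag.Ng.Lb

/-! Homogeneous denominators. -/

open MvPolynomial

namespace GX

variable {F κ : Type} [CommRing F] [Field κ] [Algebra F κ] {N d : ℕ} {ι : Type}

attribute [local instance] MvPolynomial.gradedAlgebra in
private theorem ngMc_comp {f : ι → MvPolynomial (Fin N) F} (hf : ∀ i, ∃ e, (f i).IsHomogeneous e)
    {P : MvPolynomial (Fin N) F} (hP : P ∈ Ideal.span (Set.range f)) (n : ℕ) :
    homogeneousComponent n P ∈ Ideal.span (Set.range f) := by
  refine homogeneousComponent_mem_of_mem (Ideal.homogeneous_span _ _ ?_) hP n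
  rintro _ ⟨i, rfl⟩
  obtain ⟨e, he⟩ := hf i
  exact ⟨e, he⟩

private theorem ngMc_lf (a : Fin N → F) : (lf a).IsHomogeneous 1 := by
  rw [lf]
  exact IsHomogeneous.sum _ _ _ fun j _ => isHomogeneous_C_mul_X _ _

private theorem ngMc_cu (U : Fin (d + 1) → Fin N → F) (D : MvPolynomial (Fin (d + 1)) F)
    (e : ℕ) (j : Fin N) : homogeneousComponent (e + 1) (cu U D * X j) =
      cu U (homogeneousComponent e D) * X j := by
  have hh : ∀ i, (cu U (homogeneousComponent i D) * X j).IsHomogeneous (i + 1) := by
    intro i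
    have h1 : (cu U (homogeneousComponent i D)).IsHomogeneous (1 * i) :=
      (homogeneousComponent_isHomogeneous i D).aeval _ fun r => ngMc_lf (U r)
    rw [one_mul] at h1
    exact h1.mul (isHomogeneous_X _ _)
  have hc : ∀ i, homogeneousComponent (e + 1) (cu U (homogeneousComponent i D) * X j) =
      if i = e then cu U (homogeneousComponent e D) * X j else 0 := by
    intro i
    rw [homogeneousComponent_of_mem (hh i)]
    by_cases hi : i = e
    · rw [if_pos (by rw [hi]), if_pos hi, hi]
    · rw [if_neg (by omega), if_neg hi]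
  have h2 : cu U D * X j = ∑ i ∈ Finset.range (D.totalDegree + 1),
      cu U (homogeneousComponent i D) * X j := by
    rw [← Finset.sum_mul, ← map_sum, sum_homogeneousComponent]
  rw [h2, map_sum, Finset.sum_congr rfl fun i _ => hc i, Finset.sum_ite_eq' _ e]
  split_ifs with he
  · rfl
  · rw [homogeneousComponent_eq_zero e D (by
      rw [Finset.mem_range] at he
      omega), map_zero, zero_mul]

/-- Proof: `E` is a component of degree `e` of `D` which is not `0` at `c`; the component of degree `e + 1` of `cl U V A - cu U D * X j` is in the homogeneous ideal `(f)`; `cl_compR`. -/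
theorem hom_denR {f : ι → MvPolynomial (Fin N) F} (hf : ∀ i, ∃ e, (f i).IsHomogeneous e)
    {U : Fin (d + 1) → Fin N → F} {V : Fin N → F} {c : Fin (d + 1) → κ}
    {D : MvPolynomial (Fin (d + 1)) F}
    (hD : ∀ j, ∃ A, cl U V A - cu U D * X j ∈ Ideal.span (Set.range f)) (h : aeval c D ≠ 0) :
    ∃ (E : MvPolynomial (Fin (d + 1)) F) (e : ℕ), E.IsHomogeneous e ∧
      (∀ j, ∃ A, cl U V A - cu U E * X j ∈ Ideal.span (Set.range f)) ∧ aeval c E ≠ 0 := by
  obtain ⟨e, he⟩ : ∃ e, aeval c (homogeneousComponent e D) ≠ 0 := by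
    by_contra hne
    push Not at hne
    apply h
    rw [← sum_homogeneousComponent D, map_sum]
    exact Finset.sum_eq_zero fun i _ => hne i
  refine ⟨homogeneousComponent e D, e, homogeneousComponent_isHomogeneous e D, fun j => ?_, he⟩
  obtain ⟨A, hA⟩ := hD j
  have h1 := ngMc_comp hf hA (e + 1)
  rw [map_sub, cl_compR, ngMc_cu] at h1
  exact ⟨_, h1⟩

end GX
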