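import Pool.Agent.Lib.MP_f80667_ag.Ng.Hb
import Pool.Agent.Lib.MP_f80667_ag.Ng.Ic
import Pool.Agent.Lib.MP_f80667_ag.Ng.Ed
import Pool.Agent.Lib.MP_f80667_ag.Ng.Lc
import Pool.Agent.Lib.MP_f80667_ag.Ng.M
import Pool.Agent.Lib.MP_f80667_ag.Ng.Mb
import Pool.Agent.Lib.MP_f80667_ag.Ng.Mc
import Pool.Agent.Lib.MP_f80667_ag.Ng.N
import Pool.Agent.Lib.MP_f80667_ag.Gx.PjM

/-! A projection for every point. -/

open MvPolynomial

namespace GX

variable {R κ : Type} [CommRing R] [IsDomain R] [IsDiscreteValuationRing R] [Field κ]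
  [Algebra R κ] {N d : ℕ} {ι : Type} {f : ι → MvPolynomial (Fin N) R}

private theorem ngj_C (U : Fin (d + 1) → Fin N → R) (V : Fin N → R)
    (p : MvPolynomial (Fin (d + 1)) R) : cl U V (Polynomial.C p) = cu U p :=
  Polynomial.eval₂_C _ _

private theorem ngj_X (U : Fin (d + 1) → Fin N → R) (V : Fin N → R) :
    cl U V Polynomial.X = lf V := Polynomial.eval₂_X _ _

private theorem ngj_lf (a : Fin N → R) (x : Fin N → κ) :
    aeval x (lf a) = lv a x := by
  simp only [lf, lv, map_sum, map_mul, aeval_C, aeval_X]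

private theorem ngj_ev (U : Fin (d + 1) → Fin N → R)
    (V : Fin N → R) (x : Fin N → κ) (Q : Polynomial (MvPolynomial (Fin (d + 1)) R)) :
    aeval x (cl U V Q) = (Q.map (aeval (fun r => lv (U r) x) :
      MvPolynomial (Fin (d + 1)) R →ₐ[R] κ).toRingHom).eval (lv V x) := by
  rw [Polynomial.eval_map]
  change (aeval x : MvPolynomial (Fin N) R →ₐ[R] κ).toRingHom (Polynomial.eval₂ _ (lf V) Q) = _
  rw [Polynomial.hom_eval₂]
  have h1 : (aeval x : MvPolynomial (Fin N) R →ₐ[R] κ).toRingHom (lf V) = lv V x := ngj_lf V x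
  have h2 : (aeval x : MvPolynomial (Fin N) R →ₐ[R] κ).toRingHom.comp
      (aeval (fun r => lf (U r)) : MvPolynomial (Fin (d + 1)) R →ₐ[R] _).toRingHom =
        (aeval (fun r => lv (U r) x) : MvPolynomial (Fin (d + 1)) R →ₐ[R] κ).toRingHom := by
    refine MvPolynomial.ringHom_ext (fun a => ?_) fun r => ?_
    · change aeval x (aeval _ (C a)) = aeval _ (C a)
      rw [aeval_C, aeval_C]
      exact aeval_C x a
    · change aeval x (aeval _ (X r)) = aeval _ (X r)
      rw [aeval_X, aeval_X]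
      exact ngj_lf _ _
  rw [h1]
  exact congrArg (fun φ => Polynomial.eval₂ φ (lv V x) Q) h2

private theorem ngj_zero {x : Fin N → κ}
    (hx : ∀ i, aeval x (f i) = 0) {g : MvPolynomial (Fin N) R}
    (hg : g ∈ Ideal.span (Set.range f)) : aeval x g = 0 := by
  have h1 : Ideal.span (Set.range f) ≤ RingHom.ker (aeval x : MvPolynomial (Fin N) R →ₐ[R] κ) := by
    rw [Ideal.span_le]
    rintro _ ⟨i, rfl⟩
    exact hx i
  exact h1 hg

/-- **A projection for every point.** Proof: as `exists_at` in `Gx/PjNc`: `Gdr.exists_uv`, `fin_low`, `exists_GR` (`Gdr.prime`, `Gdr.inj`), `nak_pt` gives `D` (instead of `desc`) for `g = X j` and `g = lf V ^ m`; `sep_of_roots`, `exists_discR`, `hom_discR`, `hom_denR`, `ok_ofR`. -/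
theorem Gdr.exists_at (hR : Rk R κ) [IsAlgClosed κ] (hf : Gdr κ f d) {y : Fin N → κ}
    (hy : Zp (fr κ f) y) : ∃ ψ : Prj R N d, ψ.Ok f ∧ aeval (ψ.uv y) ψ.D ≠ 0 := by
  classical
  obtain ⟨U, V, Z, hU, hne, hZ, hV, hrel⟩ := Gdr.exists_uv hR hf hy
  have hfin := fin_low hf.hom hU
  obtain ⟨G, hm, hk, hh⟩ := exists_GR hf.hom (Gdr.prime hR hf)
    (fun D hD => Gdr.inj hR hf hfin hD) hfin V
  obtain ⟨D, hD, hdesc⟩ := nak_pt hR.int hfin hrel
  obtain ⟨c, hc⟩ : ∃ c : Fin (d + 1) → κ, c = fun r => lv (U r) y := ⟨_, rfl⟩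
  rw [← hc] at hne hD
  -- the degree
  have hdeg : G.natDegree ≤ Z.card := by
    obtain ⟨a1, h1⟩ := hdesc (lf V ^ Z.card)
    have hD10 : D ≠ 0 := fun h => hD (by rw [h, map_zero])
    obtain ⟨Q, hQ⟩ : ∃ Q : Polynomial (MvPolynomial (Fin (d + 1)) R),
      Q = Polynomial.C D * Polynomial.X ^ Z.card -
        ∑ i : Fin Z.card, Polynomial.C (a1 i) * Polynomial.X ^ (i : ℕ) := ⟨_, rfl⟩
    have hdvd : G ∣ Q := by
      rw [← hk, hQ, map_sub, map_mul, map_pow, map_sum, ngj_C, ngj_X]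
      simp only [map_mul, map_pow, ngj_C, ngj_X]
      exact h1
    have hlow : (∑ i : Fin Z.card, Polynomial.C (a1 i) * Polynomial.X ^ (i : ℕ)).degree <
        (Z.card : WithBot ℕ) := by
      refine (Polynomial.degree_sum_le _ _).trans_lt ?_
      rw [Finset.sup_lt_iff (WithBot.bot_lt_coe _)]
      intro i _
      exact (Polynomial.degree_C_mul_X_pow_le _ _).trans_lt (by exact_mod_cast i.2)
    have hdQ : Q.degree = (Z.card : WithBot ℕ) := by
      rw [hQ, Polynomial.degree_sub_eq_left_of_degree_lt, Polynomial.degree_C_mul_X_pow _ hD10]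
      rw [Polynomial.degree_C_mul_X_pow _ hD10]
      exact hlow
    have hQ0 : Q ≠ 0 := fun h => by
      rw [h, Polynomial.degree_zero] at hdQ
      exact WithBot.bot_ne_coe hdQ
    have h2 := Polynomial.natDegree_le_of_dvd hdvd hQ0
    rwa [Polynomial.natDegree_eq_of_degree_eq_some hdQ] at h2
  -- the roots
  have hs : (G.map (aeval c : MvPolynomial (Fin (d + 1)) R →ₐ[R] κ).toRingHom).Separable := by
    refine sep_of_roots (hm.map _) (Z := Z.image fun x => lv V x) (fun a ha => ?_) ?_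
    · obtain ⟨x, hx, rfl⟩ := Finset.mem_image.1 ha
      have h1 := ngj_zero (hZ x hx).1 ((hk G).2 dvd_rfl)
      rw [ngj_ev] at h1
      have h2 : (fun r => lv (U r) x) = c := by
        rw [hc]
        exact funext (hZ x hx).2
      rw [h2] at h1
      exact h1
    · rw [Finset.card_image_of_injOn fun x hx x' hx' h => hV x hx x' hx' h, hm.natDegree_map]
      exact hdeg
  obtain ⟨D2, B, B', hB, hD2⟩ := exists_discR hm hs
  obtain ⟨E1, A1, A1', e1, hE1, hA1, hE10⟩ := hom_discR hh hB hD2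
  -- the denominator
  have hden : ∀ j : Fin N, ∃ A, cl U V A - cu U D * X j ∈
      Ideal.span (Set.range f) := fun j => by
    obtain ⟨a, ha⟩ := hdesc (X j)
    refine ⟨∑ i, Polynomial.C (a i) * Polynomial.X ^ (i : ℕ), ?_⟩
    have h1 := (Ideal.span (Set.range f)).neg_mem ha
    rw [neg_sub] at h1
    rw [map_sum]
    simp only [map_mul, map_pow, ngj_C, ngj_X]
    exact h1
  obtain ⟨E2, e2, hE2, hA2, hE20⟩ := hom_denR hf.hom hden hD
  obtain ⟨r, hr⟩ := Function.ne_iff.1 hne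
  have hok := ok_ofR hf.hom (U := U) (V := V) hm hk hh (D := E1 * E2 * X r)
    ⟨e1 + e2 + 1, Nat.succ_ne_zero _, (hE1.mul hE2).mul (isHomogeneous_X R r)⟩
    ⟨Polynomial.C (E2 * X r) * A1, Polynomial.C (E2 * X r) * A1', by
      rw [mul_assoc, mul_assoc, ← mul_add, hA1, ← Polynomial.C_mul]
      congr 1
      ring⟩ (fun j => by
        obtain ⟨A, hA⟩ := hA2 j
        refine ⟨Polynomial.C (E1 * X r) * A, ?_⟩
        have h1 := (Ideal.span (Set.range f)).mul_mem_left (cu U (E1 * X r)) hA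
        have h2 : cl U V (Polynomial.C (E1 * X r) * A) - cu U (E1 * E2 * X r) * X j =
            cu U (E1 * X r) * (cl U V A - cu U E2 * X j) := by
          rw [map_mul (cl U V), ngj_C]
          simp only [map_mul]
          ring
        rw [h2]
        exact h1)
  obtain ⟨ψ, hψ, hu, hd⟩ := hok
  refine ⟨ψ, hψ, ?_⟩
  have h1 : (ψ.uv y : Fin (d + 1) → κ) = c := by
    rw [hc, ← hu]
    rfl
  rw [h1, hd, map_mul, map_mul, aeval_X]
  exact mul_ne_zero (mul_ne_zero hE10 hE20) hr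

end GX
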