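import Pool.Agent.Lib.MP_f80667_ag.Ng.Cb

/-! Finitely many projections. -/

open MvPolynomial

namespace GX

variable {R κ : Type} [CommRing R] [IsDomain R] [IsDiscreteValuationRing R] [Field κ]
  [Algebra R κ] {N d : ℕ} {ι : Type} {f : ι → MvPolynomial (Fin N) R}

private theorem k_cp {R κ : Type} [CommRing R] [CommRing κ] [Algebra R κ] {N d : ℕ}
    (ψ : Prj R N d) (x : Fin N → κ) :
    aeval x (ψ.cp (Polynomial.C ψ.D)) = aeval (ψ.uv x) ψ.D := by
  have h1 : ψ.cp (Polynomial.C ψ.D) = aeval (fun r => lf (ψ.u r)) ψ.D := by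
    unfold Prj.cp pe
    rw [Polynomial.coe_eval₂RingHom, Polynomial.eval₂_C]
    rfl
  have h2 : ∀ r, aeval x (lf (ψ.u r)) = ψ.uv x r := by
    intro r
    unfold Prj.uv lv lf
    rw [map_sum]
    refine Finset.sum_congr rfl fun j _ => ?_
    rw [map_mul, aeval_C, aeval_X]
  rw [h1, comp_aeval_apply, funext h2]

private theorem k_lf {R : Type} [CommRing R] {N : ℕ} (a : Fin N → R) :
    (lf a).IsHomogeneous 1 := by
  rw [lf]
  exact IsHomogeneous.sum _ _ _ fun j _ => isHomogeneous_C_mul_X _ _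

private theorem k_hom {R : Type} [CommRing R] {N d : ℕ} (ψ : Prj R N d) {e : ℕ}
    (h : ψ.D.IsHomogeneous e) : (ψ.cp (Polynomial.C ψ.D)).IsHomogeneous e := by
  have h1 : ψ.cp (Polynomial.C ψ.D) = aeval (fun r => lf (ψ.u r)) ψ.D := by
    unfold Prj.cp pe
    rw [Polynomial.coe_eval₂RingHom, Polynomial.eval₂_C]
    rfl
  rw [h1]
  have h2 := h.aeval (fun r => lf (ψ.u r)) (fun r => k_lf (ψ.u r))
  rwa [one_mul] at h2

/-- **Finitely many.** Proof: as `cov_of` in `Gx/PjO`, over `κ`: the ideal of `κ[x]` generated by the `f̄_i` and the reductions of all `ψ.cp (C ψ.D)`, `ψ` in order, contains a power of every `X k`; finitely many `ψ` are enough; then `nakR` for the family of the `f_i` and the `ψ_i.cp (C ψ_i.D)`, which are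
homogeneous (`homD`: `cp (C D) = D (u (x))`). -/
theorem cov_ofR (hR : Rk R κ) [IsAlgClosed κ] (hf : ∀ i, ∃ e, (f i).IsHomogeneous e)
    (hψ : ∀ y : Fin N → κ, Zp (fr κ f) y →
      ∃ ψ : Prj R N d, ψ.Ok f ∧ aeval (ψ.uv y) ψ.D ≠ 0) :
    ∃ (m : ℕ) (ψ : Fin m → Prj R N d), (∀ i, (ψ i).Ok f) ∧ Cov f ψ := by
  classical
  obtain ⟨g, hg⟩ : ∃ g : {ψ : Prj R N d // ψ.Ok f} → MvPolynomial (Fin N) κ,
      g = fun ψ => map (algebraMap R κ) (ψ.1.cp (Polynomial.C ψ.1.D)) := ⟨_, rfl⟩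
  obtain ⟨I, hI⟩ : ∃ I : Ideal (MvPolynomial (Fin N) κ),
      I = Ideal.span (Set.range (fr κ f)) ⊔ Ideal.span (Set.range g) := ⟨_, rfl⟩
  have h1 : ∀ x ∈ zeroLocus κ I, x = 0 := by
    intro x hx
    by_contra h0
    rw [mem_zeroLocus_iff, hI] at hx
    obtain ⟨ψ, hok, hD⟩ := hψ x ⟨h0, fun i => by
      have h2 := hx _ (Ideal.mem_sup_left (Ideal.subset_span ⟨i, rfl⟩))
      rw [aeval_def] at h2
      exact h2⟩
    apply hD
    rw [← k_cp]
    have h2 := hx (g ⟨ψ, hok⟩) (Ideal.mem_sup_right (Ideal.subset_span ⟨_, rfl⟩))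
    rw [hg] at h2
    rw [← h2]
    exact (aeval_map_algebraMap κ x _).symm
  have h2 : ∀ k, ∃ n : ℕ, (X k : MvPolynomial (Fin N) κ) ^ n ∈ I := by
    intro k
    have h3 : (X k : MvPolynomial (Fin N) κ) ∈ vanishingIdeal κ (zeroLocus κ I) := by
      intro x hx
      rw [h1 x hx, aeval_X]
      rfl
    rw [vanishingIdeal_zeroLocus_eq_radical] at h3
    exact h3
  have h4 : (Ideal.span (Set.range g)).FG := IsNoetherian.noetherian _
  obtain ⟨T, hT, hT'⟩ := Submodule.fg_span_iff_fg_span_finset_subset _ |>.1 h4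
  have h5 : ∀ t : T, ∃ ψ : {ψ : Prj R N d // ψ.Ok f}, g ψ = t := fun t => hT t.2
  choose q hq using h5
  obtain ⟨ψ, hψ'⟩ : ∃ ψ : Fin T.card → Prj R N d,
      ψ = fun i => (q (T.equivFin.symm i)).1 := ⟨_, rfl⟩
  have hok : ∀ i, (ψ i).Ok f := fun i => by
    rw [hψ']
    exact (q (T.equivFin.symm i)).2
  refine ⟨T.card, ψ, hok, ?_⟩
  obtain ⟨Φ, hΦ⟩ : ∃ Φ : ι ⊕ Fin T.card → MvPolynomial (Fin N) R,
      Φ = Sum.elim f fun i => (ψ i).cp (Polynomial.C (ψ i).D) := ⟨_, rfl⟩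
  have h6 : Ideal.span (Set.range Φ) = Ideal.span (Set.range f) ⊔
      Ideal.span (Set.range fun i => (ψ i).cp (Polynomial.C (ψ i).D)) := by
    rw [hΦ, Set.Sum.elim_range, Ideal.span_union]
  have h7 : Set.range (fr κ Φ) = Set.range (fr κ f) ∪ (T : Set (MvPolynomial (Fin N) κ)) := by
    have h8 : ∀ i, map (algebraMap R κ) ((ψ i).cp (Polynomial.C (ψ i).D)) =
        (T.equivFin.symm i : MvPolynomial (Fin N) κ) := by
      intro i
      have h9 := hq (T.equivFin.symm i)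
      rw [hg] at h9
      rw [hψ']
      exact h9
    ext p
    constructor
    · rintro ⟨i | i, rfl⟩
      · left
        exact ⟨i, by rw [fr, fr, hΦ]; rfl⟩
      · right
        have h9 : fr κ Φ (Sum.inr i) = (T.equivFin.symm i : MvPolynomial (Fin N) κ) := by
          rw [← h8, fr, hΦ]
          rfl
        rw [h9]
        exact (T.equivFin.symm i).2
    · rintro (⟨i, rfl⟩ | hp)
      · exact ⟨Sum.inl i, by rw [fr, fr, hΦ]; rfl⟩
      · refine ⟨Sum.inr (T.equivFin ⟨p, hp⟩), ?_⟩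
        have h9 : fr κ Φ (Sum.inr (T.equivFin ⟨p, hp⟩)) =
            (T.equivFin.symm (T.equivFin ⟨p, hp⟩) : MvPolynomial (Fin N) κ) := by
          rw [← h8, fr, hΦ]
          rfl
        rw [h9, Equiv.symm_apply_apply]
  have hΦh : ∀ i, ∃ e, (Φ i).IsHomogeneous e := by
    rintro (i | i)
    · obtain ⟨e, he⟩ := hf i
      exact ⟨e, by rw [hΦ]; exact he⟩
    · obtain ⟨e, _, he⟩ := (hok i).homD
      exact ⟨e, by rw [hΦ]; exact k_hom _ he⟩
  obtain ⟨s, hs⟩ := nakR hR hΦh fun k => by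
    obtain ⟨n, hn⟩ := h2 k
    refine ⟨n, ?_⟩
    rw [h7, Ideal.span_union]
    have h9 : Ideal.span (Set.range g) = Ideal.span (T : Set (MvPolynomial (Fin N) κ)) := hT'
    rwa [← h9, ← hI]
  refine ⟨s, fun k => ?_⟩
  rw [← h6]
  exact hs k

end GX
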