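import Pool.Agent.Lib.MP_f80667_ag.Ng.J
import Pool.Agent.Lib.MP_f80667_ag.Ng.K

/-! A model with nonsingular reduction is covered by projections. -/

open MvPolynomial

namespace GX

variable {R κ : Type} [CommRing R] [IsDomain R] [IsDiscreteValuationRing R] [Field κ]
  [Algebra R κ] {N d : ℕ} {ι : Type} {f : ι → MvPolynomial (Fin N) R}

/-- **A model with nonsingular reduction is covered by projections.** -/
theorem Gdr.exists_prj (hR : Rk R κ) [IsAlgClosed κ] (hf : Gdr κ f d) :
    ∃ (m : ℕ) (ψ : Fin m → Prj R N d), (∀ i, (ψ i).Ok f) ∧ Cov f ψ :=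
  cov_ofR hR hf.hom fun _ hy => hf.exists_at hR hy

end GX
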