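import Pool.Agent.Lib.MP_f80667_ag.Ng.A
import Pool.Agent.Lib.MP_f80667_ag.Lv.D
import Pool.Agent.Lib.MP_f80667_ag.Gx.Dt

/-!
The integers of an infinite unramified extension with small steps.

* `Rl L r l`: the integers of the union of the fields `Ur ⊥ (r * l ^ a)`.
* `rdl L r l`: the reduction.
* `Gdv V f d`: good reduction of `f = 0` (model `f` over the valuation ring): the dimension of the variety over `F` is at least `d`, the
  reduction is nonsingular of dimension `d` and irreducible.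
-/

open ZC BE PE CV IntermediateField

namespace GX

section rl

variable {K Ω : Type} [Field K] [Field Ω] [Algebra K Ω]

/-- The integers of the union of the unramified extensions `Ur ⊥ (r * l ^ a)`. -/
def Rl (L : Ld K Ω) (r l : ℕ) : Subring Ω where
  carrier := {x | L.nm x ≤ 1 ∧ ∃ a : ℕ, x ∈ L.Ur ⊥ (r * l ^ a)}
  mul_mem' := by
    rintro x y ⟨hx, a, ha⟩ ⟨hy, b, hb⟩
    refine ⟨by rw [L.mul]; exact mul_le_one₀ hx (L.nonneg _) hy, a + b, mul_mem
      (Ld.ur_dvd _ (mul_dvd_mul_left r (pow_dvd_pow l (Nat.le_add_right a b))) ha)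
      (Ld.ur_dvd _ (mul_dvd_mul_left r (pow_dvd_pow l (Nat.le_add_left b a))) hb)⟩
  one_mem' := ⟨L.one.le, 0, one_mem _⟩
  add_mem' := by
    rintro x y ⟨hx, a, ha⟩ ⟨hy, b, hb⟩
    refine ⟨(L.add x y).trans (max_le hx hy), a + b, add_mem
      (Ld.ur_dvd _ (mul_dvd_mul_left r (pow_dvd_pow l (Nat.le_add_right a b))) ha)
      (Ld.ur_dvd _ (mul_dvd_mul_left r (pow_dvd_pow l (Nat.le_add_left b a))) hb)⟩
  zero_mem' := ⟨by rw [L.zero]; exact zero_le_one, 0, zero_mem _⟩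
  neg_mem' := by
    rintro x ⟨hx, a, ha⟩
    exact ⟨by rw [L.neg]; exact hx, a, neg_mem ha⟩

variable {L : Ld K Ω} {r l : ℕ}

/-- The reduction. -/
noncomputable def rdl (L : Ld K Ω) (r l : ℕ) : Rl L r l →+* L.κ :=
  (IsLocalRing.residue L.V).comp
    (Subring.inclusion (fun _ hx => hx.1 : Rl L r l ≤ L.V.toSubring))

noncomputable instance : Algebra (Rl L r l) L.κ := (rdl L r l).toAlgebra

theorem rdl_hv (x : Rl L r l) : L.rs.Hv (x : Ω) (algebraMap (Rl L r l) L.κ x) := ⟨x.2.1, rfl⟩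

variable [CharZero K] [IsAlgClosure K Ω] {π : Ω}

/-- Proof: `IsDiscreteValuationRing.ofHasUnitMulPowIrreducibleFactorization`: `π` is irreducible, `x ≠ 0` is `π ^ n` times a unit: `Uf.um_val`; the inverse of an element of norm `1` of the ring is in the ring. -/
theorem rl_dvr (hπ : Uf L π) (hr : r ≠ 0) (hl : l ≠ 0) : IsDiscreteValuationRing (Rl L r l) := by
  have hval : ∀ x : Rl L r l, (x : Ω) ≠ 0 → ∃ n : ℕ, L.nm (x : Ω) = L.nm π ^ n := by
    rintro ⟨x, hx, a, ha⟩ hx0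
    have hn : r * l ^ a ≠ 0 := mul_ne_zero hr (pow_ne_zero _ hl)
    obtain ⟨k, hk⟩ := hπ.um_val (M := L.Ur ⊥ (r * l ^ a)) ⟨_, hn, le_rfl⟩ x ha hx0
    have hk0 : 0 ≤ k := by
      by_contra h
      have h1 : 1 < L.nm π ^ k := one_lt_zpow_of_neg₀ hπ.pos hπ.lt (not_le.1 h)
      rw [← hk] at h1
      exact absurd hx (not_le.2 h1)
    obtain ⟨n, rfl⟩ := Int.eq_ofNat_of_zero_le hk0
    refine ⟨n, ?_⟩
    rw [zpow_natCast] at hk
    exact hk
  have hunit : ∀ x : Rl L r l, L.nm (x : Ω) = 1 → IsUnit x := by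
    rintro ⟨x, hx, a, ha⟩ h
    have h' : L.nm x = 1 := h
    have hx0 : x ≠ 0 := L.ne_zero (by rw [h']; exact zero_lt_one)
    have h1 : L.nm x * L.nm x⁻¹ = 1 := by rw [← L.mul, mul_inv_cancel₀ hx0, L.one]
    rw [h', one_mul] at h1
    exact IsUnit.of_mul_eq_one (⟨x⁻¹, h1.le, a, inv_mem ha⟩ : Rl L r l)
      (Subtype.ext (mul_inv_cancel₀ hx0))
  have hunit' : ∀ x : Rl L r l, IsUnit x → L.nm (x : Ω) = 1 := by
    intro x hx
    obtain ⟨y, hy⟩ := hx.exists_right_inv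
    have h1 : L.nm (x : Ω) * L.nm (y : Ω) = 1 := by
      rw [← L.mul, ← L.one]
      exact congrArg L.nm (congrArg Subtype.val hy)
    refine le_antisymm x.2.1 ?_
    rw [← h1]
    exact mul_le_of_le_one_right (L.nonneg _) y.2.1
  refine IsDiscreteValuationRing.ofHasUnitMulPowIrreducibleFactorization
    ⟨⟨π, hπ.lt.le, 0, hπ.mem _⟩, ⟨fun h => hπ.lt.ne (hunit' _ h), ?_⟩, ?_⟩
  · intro a b hab
    have hab' : π = (a : Ω) * (b : Ω) := congrArg Subtype.val hab
    have ha0 : (a : Ω) ≠ 0 := fun h => hπ.ne (by rw [hab', h, zero_mul])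
    have hb0 : (b : Ω) ≠ 0 := fun h => hπ.ne (by rw [hab', h, mul_zero])
    obtain ⟨i, hi⟩ := hval a ha0
    obtain ⟨j, hj⟩ := hval b hb0
    have h1 : L.nm π ^ (i + j) = L.nm π ^ 1 := by
      rw [pow_add, ← hi, ← hj, ← L.mul, ← hab', pow_one]
    have h2 : i + j = 1 := pow_right_injective₀ hπ.pos hπ.lt.ne h1
    rcases Nat.eq_zero_or_pos i with h3 | h3
    · left
      refine hunit a ?_
      rw [hi, h3, pow_zero]
    · right
      refine hunit b ?_
      rw [hj, show j = 0 by omega, pow_zero]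
  · intro x hx
    have hx0 : (x : Ω) ≠ 0 := fun h => hx (Subtype.ext h)
    obtain ⟨n, hn⟩ := hval x hx0
    have hπn : π ^ n ≠ 0 := pow_ne_zero _ hπ.ne
    obtain ⟨x, hx1, a, ha⟩ := x
    have hn' : L.nm x = L.nm π ^ n := hn
    have h1 : L.nm (x / π ^ n) = 1 := by
      rw [L.div, L.pow, hn']
      exact div_self (pow_ne_zero _ hπ.pos.ne')
    obtain ⟨u, hu⟩ := hunit ⟨x / π ^ n, h1.le, a, div_mem ha (pow_mem (hπ.mem _) n)⟩ h1
    refine ⟨n, u, Subtype.ext ?_⟩
    rw [hu]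
    exact mul_div_cancel₀ x hπn

end rl

section gdv

/-- Good reduction: the reduction modulo the maximal ideal of the model `f` over the valuation ring is nonsingular. -/
structure Gdv {F : Type} [Field F] {Ω : Type} [Field Ω] [Algebra F Ω] (V : ValuationSubring Ω)
    {N : ℕ} {ι : Type} (f : ι → MvPolynomial (Fin N) F) (d : ℕ) : Prop where
  hom : ∀ i, ∃ e, (f i).IsHomogeneous e
  dim : ((d + 1 : ℕ) : Cardinal) ≤
    Algebra.trdeg F (MvPolynomial (Fin N) F ⧸ Ideal.span (Set.range f))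
  red : ∃ f₀ : ι → MvPolynomial (Fin N) (V.comap (algebraMap F Ω)),
    (∀ i, MvPolynomial.map (V.comap (algebraMap F Ω)).subtype (f₀ i) = f i) ∧
      Gdk (fun i => MvPolynomial.map (rdO F V) (f₀ i)) d

end gdv

end GX
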