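import Pool.Agent.Lib.MP_f80667_ag.Ng.P
import Pool.Agent.Lib.MP_f80667_ag.Gx.PjE

/-! The dimension over a larger ring. -/

open MvPolynomial

namespace GX

private theorem pc_fam {F A : Type} [Field F] [CommRing A] [Algebra F A] {k : ℕ}
    (h : ((k + 1 : ℕ) : Cardinal) ≤ Algebra.trdeg F A) :
    ∃ z : Fin (k + 1) → A, AlgebraicIndependent F z := by
  by_contra hcon
  push Not at hcon
  have h1 : Algebra.trdeg F A ≤ (k : Cardinal) := by
    refine ciSup_le' fun s => ?_
    by_contra h2
    rw [not_le] at h2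
    have h3 : ((k + 1 : ℕ) : Cardinal) ≤ Cardinal.mk s.1 := by
      rw [Nat.cast_succ]
      exact Cardinal.add_one_le_of_lt h2
    rw [← Cardinal.mk_fin, Cardinal.le_def] at h3
    obtain ⟨e⟩ := h3
    exact hcon _ (AlgebraicIndependent.comp s.2 e e.injective)
  have h2 : ((k + 1 : ℕ) : Cardinal) ≤ (k : ℕ) := h.trans h1
  rw [Nat.cast_le] at h2
  omega

private theorem pc_scale {F A : Type} [Field F] [CommRing A] [Algebra F A] {n : ℕ}
    {z : Fin n → A} (hz : AlgebraicIndependent F z) {c : Fin n → F} (hc : ∀ i, c i ≠ 0) :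
    AlgebraicIndependent F fun i => c i • z i := by
  rw [algebraicIndependent_iff] at hz ⊢
  intro Q hQ
  have h1 : aeval z (aeval (fun i => C (c i) * X i : Fin n → MvPolynomial (Fin n) F) Q) = 0 := by
    rw [← hQ, comp_aeval_apply]
    refine congrArg (fun φ : Fin n → A => aeval φ Q) (funext fun i => ?_)
    rw [map_mul, aeval_C, aeval_X, Algebra.smul_def]
  have h2 := hz _ h1
  have h3 : (aeval (fun i => C (c i)⁻¹ * X i : Fin n → MvPolynomial (Fin n) F)).comp
      (aeval (fun i => C (c i) * X i : Fin n → MvPolynomial (Fin n) F)) =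
        AlgHom.id F (MvPolynomial (Fin n) F) := by
    refine algHom_ext fun i => ?_
    rw [AlgHom.comp_apply, aeval_X, map_mul, aeval_C, aeval_X, algebraMap_eq, ← mul_assoc,
      ← C_mul, mul_inv_cancel₀ (hc i), C_1, one_mul, AlgHom.id_apply]
  have h4 := congrArg (fun φ : MvPolynomial (Fin n) F →ₐ[F] MvPolynomial (Fin n) F => φ Q) h3
  simp only [AlgHom.comp_apply, AlgHom.id_apply] at h4
  rw [← h4, h2, map_zero]

private theorem pc_mk {S : Type} [CommRing S] {N n : ℕ} (I : Ideal (MvPolynomial (Fin N) S))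
    (P : Fin n → MvPolynomial (Fin N) S) (Q : MvPolynomial (Fin n) S) :
    Ideal.Quotient.mk I (aeval P Q) = aeval (fun i => Ideal.Quotient.mk I (P i)) Q :=
  comp_aeval_apply P (Ideal.Quotient.mkₐ S I) Q

private theorem pc_den {F Ω : Type} [Field F] [Field Ω] [Algebra F Ω] {R : Subring Ω}
    (hc : ∀ x : F, ∃ c : F, c ≠ 0 ∧ algebraMap F Ω c ∈ R ∧ algebraMap F Ω (c * x) ∈ R)
    (s : Finset F) : ∃ c : F, c ≠ 0 ∧ algebraMap F Ω c ∈ R ∧
      ∀ x ∈ s, algebraMap F Ω (c * x) ∈ R := by
  classical
  induction s using Finset.induction_on with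
  | empty => exact ⟨1, one_ne_zero, by rw [map_one]; exact one_mem _, fun x hx => by
      simp only [Finset.notMem_empty] at hx⟩
  | insert a s ha ih =>
    obtain ⟨c, h0, h1, h2⟩ := ih
    obtain ⟨c', h0', h1', h2'⟩ := hc a
    refine ⟨c * c', mul_ne_zero h0 h0', ?_, fun x hx => ?_⟩
    · rw [map_mul]
      exact mul_mem h1 h1'
    · rcases Finset.mem_insert.1 hx with rfl | hx
      · rw [mul_assoc, map_mul]
        exact mul_mem h1 h2'
      · rw [mul_comm c c', mul_assoc, map_mul]
        exact mul_mem h1' (h2 x hx)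

private theorem pc_lift {F Ω : Type} [Field F] [Field Ω] [Algebra F Ω] {R : Subring Ω} {N : ℕ}
    (hc : ∀ x : F, ∃ c : F, c ≠ 0 ∧ algebraMap F Ω c ∈ R ∧ algebraMap F Ω (c * x) ∈ R)
    (p : MvPolynomial (Fin N) F) : ∃ (c : F) (P : MvPolynomial (Fin N) R), c ≠ 0 ∧
      map R.subtype P = map (algebraMap F Ω) (c • p) := by
  classical
  obtain ⟨c, h0, h1, h2⟩ := pc_den hc (p.support.image fun m => coeff m p)
  have h3 : ∀ m, algebraMap F Ω (c * coeff m p) ∈ R := by
    intro m
    by_cases hm : m ∈ p.support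
    · exact h2 _ (Finset.mem_image_of_mem _ hm)
    · rw [notMem_support_iff.1 hm, mul_zero, map_zero]
      exact zero_mem _
  refine ⟨c, ∑ m ∈ p.support, monomial m ⟨algebraMap F Ω (c * coeff m p), h3 m⟩, h0, ?_⟩
  ext m
  rw [map_sum, coeff_sum, coeff_map, coeff_smul, smul_eq_mul]
  simp only [map_monomial, coeff_monomial, Subring.subtype_apply]
  rw [Finset.sum_ite_eq' p.support m fun m => algebraMap F Ω (c * coeff m p)]
  by_cases h : m ∈ p.support
  · rw [if_pos h]
  · rw [if_neg h, notMem_support_iff.1 h, mul_zero, map_zero]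

private theorem pc_fun {F Ω : Type} [Field F] [Field Ω] [Algebra F Ω] {N n : ℕ}
    (l : Ω →ₗ[F] F) {L : MvPolynomial (Fin N) Ω → MvPolynomial (Fin N) F}
    (hL : ∀ g m, coeff m (L g) = l (coeff m g))
    {L' : MvPolynomial (Fin n) Ω → MvPolynomial (Fin n) F}
    (hL' : ∀ g m, coeff m (L' g) = l (coeff m g)) (p : Fin n → MvPolynomial (Fin N) F)
    (G : MvPolynomial (Fin n) Ω) :
    L (aeval (fun i => map (algebraMap F Ω) (p i)) G) = aeval p (L' G) := by
  classical
  induction G using MvPolynomial.induction_on' with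
  | monomial u a =>
    have h1 : L' (monomial u a) = monomial u (l a) := by
      ext m
      rw [hL', coeff_monomial, coeff_monomial]
      by_cases h : u = m
      · rw [if_pos h, if_pos h]
      · rw [if_neg h, if_neg h, map_zero]
    rw [h1, aeval_monomial, aeval_monomial, algebraMap_eq, algebraMap_eq]
    have h2 : (u.prod fun i k => map (algebraMap F Ω) (p i) ^ k) =
        map (algebraMap F Ω) (u.prod fun i k => p i ^ k) := by
      rw [map_finsuppProd]
      simp only [map_pow]
    rw [h2]
    ext m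
    rw [hL, coeff_C_mul, coeff_C_mul, coeff_map, mul_comm a, ← Algebra.smul_def, map_smul,
      smul_eq_mul, mul_comm]
  | add G H hG hH =>
    have h1 : L' (G + H) = L' G + L' H := by
      ext m
      rw [hL', coeff_add, map_add, coeff_add, hL', hL']
    have h2 : ∀ a b, L (a + b) = L a + L b := by
      intro a b
      ext m
      rw [hL, coeff_add, map_add, coeff_add, hL, hL]
    rw [h1, map_add, h2, map_add, hG, hH]

/-- Proof: let `z : Fin (d + 1) → F[x] / (f)` be algebraically independent over `F` (there is a family because the transcendence degree is a supremum, of at least `d + 1`), with representatives `z_i ∈ F[x]`; multiply them by nonzero constants `c_i` of `F` such that their images in `Ω[x]`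
have coefficients in `R` (`hc`). If `P` over `R` satisfies `P (c z) ∈ (f_R)`, then over `Ω`; the coefficientwise image under an `F`-linear map `Ω → F` (`jf_coeff`, `exists_lc`) gives `P_l (c z) ∈ (f)`, so `P_l = 0` for all `l`, `P = 0`. -/
theorem trd_up {F Ω : Type} [Field F] [Field Ω] [Algebra F Ω] {R : Subring Ω} {N n : ℕ}
    {ι : Type} {f : ι → MvPolynomial (Fin N) F} {g : ι → MvPolynomial (Fin N) R}
    (hg : ∀ i, map R.subtype (g i) = map (algebraMap F Ω) (f i))
    (hc : ∀ x : F, ∃ c : F, c ≠ 0 ∧ algebraMap F Ω c ∈ R ∧ algebraMap F Ω (c * x) ∈ R)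
    (h : ((n : ℕ) : Cardinal) ≤ Algebra.trdeg F (MvPolynomial (Fin N) F ⧸
      Ideal.span (Set.range f))) :
    ((n : ℕ) : Cardinal) ≤ Algebra.trdeg R (MvPolynomial (Fin N) R ⧸
      Ideal.span (Set.range g)) := by
  rcases Nat.eq_zero_or_pos n with hn | hn
  · rw [hn, Nat.cast_zero]
    exact zero_le
  obtain ⟨k, rfl⟩ : ∃ k, n = k + 1 := ⟨n - 1, by omega⟩
  obtain ⟨z, hz⟩ := pc_fam h
  choose p hp using fun i => Ideal.Quotient.mk_surjective (z i)
  choose c P hc0 hP using fun i => pc_lift hc (p i)
  have hz' := pc_scale hz hc0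
  have hw : AlgebraicIndependent R fun i => Ideal.Quotient.mk (Ideal.span (Set.range g)) (P i) := by
    rw [algebraicIndependent_iff]
    intro Q hQ
    have h1 : aeval P Q ∈ Ideal.span (Set.range g) := by
      rw [← Ideal.Quotient.eq_zero_iff_mem, ← hQ]
      exact pc_mk _ P Q
    have h2 : map R.subtype (aeval P Q) ∈ jf Ω f := by
      have h3 := Ideal.mem_map_of_mem (map R.subtype) h1
      rw [Ideal.map_span, ← Set.range_comp] at h3
      have h4 : (map R.subtype ∘ g) = fun i => map (algebraMap F Ω) (f i) :=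
        funext fun i => hg i
      rwa [h4] at h3
    have h3 : map R.subtype (aeval P Q) =
        aeval (fun i => map (algebraMap F Ω) (c i • p i)) (map R.subtype Q) := by
      have h4 : ((map R.subtype : MvPolynomial (Fin N) R →+* MvPolynomial (Fin N) Ω).comp
          ((aeval P : MvPolynomial (Fin (k + 1)) R →ₐ[R] MvPolynomial (Fin N) R) :
            MvPolynomial (Fin (k + 1)) R →+* MvPolynomial (Fin N) R)) =
          (((aeval fun i => map (algebraMap F Ω) (c i • p i) :
            MvPolynomial (Fin (k + 1)) Ω →ₐ[Ω] MvPolynomial (Fin N) Ω) :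
            MvPolynomial (Fin (k + 1)) Ω →+* MvPolynomial (Fin N) Ω)).comp
              (map R.subtype) := by
        refine MvPolynomial.ringHom_ext (fun r => ?_) fun i => ?_
        · simp only [RingHom.comp_apply, AlgHom.coe_toRingHom, map_C, aeval_C, algebraMap_eq]
        · simp only [RingHom.comp_apply, AlgHom.coe_toRingHom, map_X, aeval_X]
          exact hP i
      exact congrArg (fun φ : MvPolynomial (Fin (k + 1)) R →+* MvPolynomial (Fin N) Ω => φ Q) h4
    have h5 : map R.subtype Q = 0 := by
      ext m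
      rw [coeff_zero]
      refine (Module.forall_dual_apply_eq_zero_iff F _).1 fun l => ?_
      choose L hL using fun g : MvPolynomial (Fin N) Ω => exists_lc l g
      choose L' hL' using fun g : MvPolynomial (Fin (k + 1)) Ω => exists_lc l g
      have h6 := pc_fun l hL hL' (fun i => c i • p i) (map R.subtype Q)
      rw [← h3] at h6
      have h7 := jf_coeff l h2 (hL (map R.subtype (aeval P Q)))
      rw [h6, ← Ideal.Quotient.eq_zero_iff_mem] at h7
      have h8 : aeval (fun i => c i • z i) (L' (map R.subtype Q)) = 0 := by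
        rw [← h7, pc_mk]
        refine congrArg (fun φ : Fin (k + 1) → MvPolynomial (Fin N) F ⧸ Ideal.span (Set.range f) =>
          aeval φ (L' (map R.subtype Q))) (funext fun i => ?_)
        rw [← hp i]
        rfl
      have h9 := (algebraicIndependent_iff.1 hz') _ h8
      rw [← hL', h9, coeff_zero]
    exact map_injective R.subtype Subtype.val_injective (by rw [h5, map_zero])
  have h1 := hw.cardinalMk_le_trdeg
  rwa [Cardinal.mk_fin] at h1

end GX
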