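import Pool.Agent.Lib.MP_f80667_ag.Gx.Cb

/-! Descent of projections to a subring of a directed union. -/

open MvPolynomial

namespace GX

variable {S : Type} [CommRing S] {T : ℕ → Subring S} {N d m : ℕ} {ι : Type}

private theorem q_ev {P : ℕ → Prop} (h : ∃ a, ∀ b, a ≤ b → P b) : ∀ᶠ b in Filter.atTop, P b :=
  Filter.eventually_atTop.2 h

private theorem q_el (hT : Monotone T) (hU : ∀ x, ∃ a, x ∈ T a) (x : S) :
    ∀ᶠ b in Filter.atTop, x ∈ T b := by
  obtain ⟨a, ha⟩ := hU x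
  exact q_ev ⟨a, fun b hb => hT hb ha⟩

/-- A polynomial over the union is over one of the subrings. Proof: the coefficients are finitely many. -/
theorem dir_mv (hT : Monotone T) (hU : ∀ x, ∃ a, x ∈ T a) {σ : Type}
    (p : MvPolynomial σ S) : ∃ a, ∀ b, a ≤ b → ∃ q : MvPolynomial σ (T b),
      map (T b).subtype q = p := by
  have h1 : ∀ᶠ b in Filter.atTop, ∀ e ∈ p.support, p.coeff e ∈ T b :=
    (Filter.eventually_all_finset p.support).2 fun e _ => q_el hT hU (p.coeff e)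
  obtain ⟨a, ha⟩ := Filter.eventually_atTop.1 h1
  refine ⟨a, fun b hb => ⟨∑ e ∈ p.support.attach, monomial e.1 ⟨p.coeff e.1, ha b hb e.1 e.2⟩, ?_⟩⟩
  rw [map_sum]
  have h2 : ∀ e ∈ p.support.attach,
      map (T b).subtype (monomial e.1 (⟨p.coeff e.1, ha b hb e.1 e.2⟩ : T b)) =
        monomial e.1 (p.coeff e.1) := by
    intro e _
    rw [map_monomial]
    rfl
  rw [Finset.sum_congr rfl h2, Finset.sum_attach p.support fun e => monomial e (p.coeff e)]
  exact (as_sum p).symm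

/-- The same for polynomials over a polynomial ring. -/
theorem dir_pl (hT : Monotone T) (hU : ∀ x, ∃ a, x ∈ T a) {σ : Type}
    (p : Polynomial (MvPolynomial σ S)) : ∃ a, ∀ b, a ≤ b →
      ∃ q : Polynomial (MvPolynomial σ (T b)), q.map (map (T b).subtype) = p := by
  have h1 : ∀ᶠ b in Filter.atTop, ∀ j ∈ p.support,
      ∃ q : MvPolynomial σ (T b), map (T b).subtype q = p.coeff j :=
    (Filter.eventually_all_finset p.support).2 fun j _ => q_ev (dir_mv hT hU (p.coeff j))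
  obtain ⟨a, ha⟩ := Filter.eventually_atTop.1 h1
  refine ⟨a, fun b hb => ?_⟩
  choose! q hq using ha b hb
  refine ⟨∑ j ∈ p.support, Polynomial.monomial j (q j), ?_⟩
  rw [Polynomial.map_sum]
  have h2 : ∀ j ∈ p.support, (Polynomial.monomial j (q j)).map (map (T b).subtype) =
      Polynomial.monomial j (p.coeff j) := by
    intro j hj
    rw [Polynomial.map_monomial, hq j hj]
  rw [Finset.sum_congr rfl h2]
  exact (Polynomial.as_sum_support p).symm

/-- The same for projections. -/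
theorem dir_prj (hT : Monotone T) (hU : ∀ x, ∃ a, x ∈ T a) (ψ : Prj S N d) : ∃ a, ∀ b, a ≤ b →
    ∃ ψ' : Prj (T b) N d, ψ'.map (T b).subtype = ψ := by
  have h1 : ∀ᶠ b in Filter.atTop, ∀ r j, ψ.u r j ∈ T b :=
    Filter.eventually_all.2 fun r => Filter.eventually_all.2 fun j => q_el hT hU (ψ.u r j)
  have h2 : ∀ᶠ b in Filter.atTop, ∀ j, ψ.y j ∈ T b :=
    Filter.eventually_all.2 fun j => q_el hT hU (ψ.y j)
  have h3 := q_ev (dir_pl hT hU ψ.G)
  have h4 := q_ev (dir_mv hT hU ψ.D)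
  have h5 : ∀ᶠ b in Filter.atTop, ∀ j, ∃ q : Polynomial (MvPolynomial (Fin (d + 1)) (T b)),
      q.map (map (T b).subtype) = ψ.A j :=
    Filter.eventually_all.2 fun j => q_ev (dir_pl hT hU (ψ.A j))
  obtain ⟨a, ha⟩ := Filter.eventually_atTop.1 (h1.and (h2.and (h3.and (h4.and h5))))
  refine ⟨a, fun b hb => ?_⟩
  obtain ⟨hu, hy, ⟨G, hG⟩, ⟨D, hD⟩, hA⟩ := ha b hb
  choose A hA using hA
  refine ⟨⟨fun r j => ⟨ψ.u r j, hu r j⟩, fun j => ⟨ψ.y j, hy j⟩, G, D, A⟩, ?_⟩
  cases ψ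
  simp only [Prj.map, Prj.mk.injEq]
  exact ⟨rfl, rfl, hG, hD, funext hA⟩

/-- Membership in the ideal generated by polynomials over `T 0`. Proof: finitely many coefficients (polynomials) of the combination; `map` is injective. -/
theorem dir_mem (hT : Monotone T) (hU : ∀ x, ∃ a, x ∈ T a) {ι : Type} {a₀ : ℕ}
    {g : ∀ b, ι → MvPolynomial (Fin N) (T b)} {g' : ι → MvPolynomial (Fin N) S}
    (hg : ∀ b, a₀ ≤ b → ∀ i, map (T b).subtype (g b i) = g' i) {p : MvPolynomial (Fin N) S}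
    (hp : p ∈ Ideal.span (Set.range g')) : ∃ a, ∀ b, a ≤ b → a₀ ≤ b →
      ∀ q : MvPolynomial (Fin N) (T b), map (T b).subtype q = p →
        q ∈ Ideal.span (Set.range (g b)) := by
  have h1 : ∀ᶠ b in Filter.atTop, a₀ ≤ b → ∃ q : MvPolynomial (Fin N) (T b),
      map (T b).subtype q = p ∧ q ∈ Ideal.span (Set.range (g b)) := by
    refine Submodule.span_induction (p := fun p _ => ∀ᶠ b in Filter.atTop, a₀ ≤ b →
      ∃ q : MvPolynomial (Fin N) (T b), map (T b).subtype q = p ∧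
        q ∈ Ideal.span (Set.range (g b))) ?_ ?_ ?_ ?_ hp
    · rintro _ ⟨i, rfl⟩
      exact Filter.Eventually.of_forall fun b hb =>
        ⟨g b i, hg b hb i, Ideal.subset_span ⟨i, rfl⟩⟩
    · exact Filter.Eventually.of_forall fun b _ => ⟨0, map_zero _, zero_mem _⟩
    · intro x y _ _ hx hy
      filter_upwards [hx, hy] with b h2 h3 hb
      obtain ⟨q, hq, hq'⟩ := h2 hb
      obtain ⟨q', hq1, hq1'⟩ := h3 hb
      exact ⟨q + q', by rw [map_add, hq, hq1], add_mem hq' hq1'⟩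
    · intro c x _ hx
      filter_upwards [hx, q_ev (dir_mv hT hU c)] with b h2 h3 hb
      obtain ⟨q, hq, hq'⟩ := h2 hb
      obtain ⟨c', hc'⟩ := h3
      exact ⟨c' * q, by rw [map_mul, hq, hc', smul_eq_mul], Ideal.mul_mem_left _ _ hq'⟩
  obtain ⟨a, ha⟩ := Filter.eventually_atTop.1 h1
  refine ⟨a, fun b hb hb0 q hq => ?_⟩
  obtain ⟨q', h2, h3⟩ := ha b hb hb0
  have h4 : q = q' := map_injective _ Subtype.val_injective (hq.trans h2.symm)
  rw [h4]
  exact h3

end GX
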