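import Pool.Agent.Lib.MP_f80667_ag.Ng.R
import Pool.Agent.Lib.MP_f80667_ag.Ng.Rb

/-! Good reduction gives projections over a finite unramified extension. -/

open ZC BE PE CV IntermediateField

namespace GX

variable {K Ω : Type} [Field K] [Field Ω] [Algebra K Ω] [CharZero K] [IsAlgClosure K Ω]
  {L : Ld K Ω} {r l : ℕ} {π : Ω} {F : Type} [Field F] [Algebra F K] [Algebra F Ω]
  [IsScalarTower F K Ω] {N d : ℕ} {ι : Type} {f : ι → MvPolynomial (Fin N) F}

/-- **Good reduction gives projections over an unramified extension of degree a power of `l`.** -/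
theorem Gdv.exists_pj (h : Gdv L.V f d) (hr : r ≠ 0) (hl : 2 ≤ l) :
    ∃ (a m : ℕ) (ψ : Fin m → Prj (L.Ur ⊥ (r * l ^ a)) N d),
      ∀ L' : Ld (L.Ur ⊥ (r * l ^ a)) Ω, L'.V = L.V →
        (∀ i, Pj f L' (ψ i)) ∧ Cvr f L' ψ := by
  obtain ⟨π, hπ⟩ := exists_uf L
  obtain ⟨a, m, ψ, f₀, ψ₀, hd⟩ := exists_datl hπ hr hl h
  have h0 : CharZero (L.Ur ⊥ (r * l ^ a)) :=
    charZero_of_injective_algebraMap (algebraMap K (L.Ur ⊥ (r * l ^ a))).injective
  have h1 : IsAlgClosure (L.Ur ⊥ (r * l ^ a)) Ω :=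
    ⟨IsAlgClosure.isAlgClosed K, by
      have halg : Algebra.IsAlgebraic K Ω := IsAlgClosure.isAlgebraic
      exact Algebra.IsAlgebraic.tower_top (K := K) (L.Ur ⊥ (r * l ^ a))⟩
  have h2 : IsScalarTower F (L.Ur ⊥ (r * l ^ a)) Ω := IsScalarTower.of_algebraMap_eq fun _ => rfl
  exact ⟨a, m, ψ, fun L' hV => hd.pj_of h.hom L' hV⟩

end GX
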