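import Pool.Agent.Lib.MP_f80667_ag.Gx.Cb
import Pool.Agent.Lib.MP_f80667_ag.Ng.Lb

/-! A polynomial of small degree in `Y` which vanishes on the variety. -/

open MvPolynomial

namespace GX

variable {κ : Type} [Field κ] {N d : ℕ} {ι : Type} {f : ι → MvPolynomial (Fin N) κ}

attribute [local instance] MvPolynomial.gradedAlgebra in
private theorem ngU_comp (hom : ∀ i, ∃ e, (f i).IsHomogeneous e) {P : MvPolynomial (Fin N) κ}
    (hP : P ∈ Ideal.span (Set.range f)) (n : ℕ) :
    homogeneousComponent n P ∈ Ideal.span (Set.range f) := by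
  refine homogeneousComponent_mem_of_mem (Ideal.homogeneous_span _ _ ?_) hP n
  rintro _ ⟨i, rfl⟩
  obtain ⟨e, he⟩ := hom i
  exact ⟨e, he⟩

private theorem ngU_coeff (T : Polynomial (MvPolynomial (Fin (d + 1)) κ)) (n k : ℕ) :
    (∑ j ∈ Finset.range (n + 1),
      Polynomial.C (homogeneousComponent (n - j) (T.coeff j)) * Polynomial.X ^ j).coeff k =
      if k ≤ n then homogeneousComponent (n - k) (T.coeff k) else 0 := by
  rw [Polynomial.finsetSum_coeff]
  simp only [Polynomial.coeff_C_mul, Polynomial.coeff_X_pow, mul_ite, mul_one, mul_zero]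
  rw [Finset.sum_ite_eq]
  simp only [Finset.mem_range, Nat.lt_succ_iff]

private theorem ngU_self (S : Polynomial (MvPolynomial (Fin (d + 1)) κ)) :
    pe (fun r => Polynomial.C (X r : MvPolynomial (Fin (d + 1)) κ)) Polynomial.X S = S := by
  rw [pe_sum]
  have h : ∀ a : MvPolynomial (Fin (d + 1)) κ,
      aeval (fun r => Polynomial.C (X r : MvPolynomial (Fin (d + 1)) κ)) a =
        Polynomial.C a := by
    intro a
    have h1 := MvPolynomial.aeval_algebraMap_apply
      (Polynomial (MvPolynomial (Fin (d + 1)) κ)) (X : Fin (d + 1) → MvPolynomial (Fin (d + 1)) κ) a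
    rw [MvPolynomial.aeval_X_left_apply] at h1
    exact h1
  rw [Finset.sum_congr rfl fun j _ => by rw [h]]
  exact (Polynomial.as_sum_range_C_mul_X_pow S).symm

/-- The homogeneous case. -/
private theorem ngU_q {Q : Type} [CommRing Q] [Algebra κ Q] {ψ : Prj κ N d}
    (q : Polynomial (MvPolynomial (Fin (d + 1)) κ) →ₐ[κ] Q) (hq : ∀ P, q P = 0 ↔ ψ.G ∣ P)
    (h : ψ.Ok f) (hD : ψ.D ≠ 0) {e : ℕ}
    {S : Polynomial (MvPolynomial (Fin (d + 1)) κ)} (hS : S.degree < ψ.G.degree)
    (hh : ∀ j, (S.coeff j).IsHomogeneous (e - j)) (hn : S.natDegree ≤ e)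
    (h0 : ψ.cp S ∈ Ideal.span (Set.range f)) : S = 0 := by
  obtain ⟨s, hs⟩ := h.inX
  have h1 : ∀ P ∈ Ideal.span (Set.range f), q (Polynomial.C (ψ.D ^ s) * aeval ψ.A P) = 0 := by
    intro P hP
    induction hP using Submodule.span_induction with
    | mem P hP =>
      obtain ⟨i, rfl⟩ := hP
      exact (hq _).2 (hs i)
    | zero => rw [map_zero, mul_zero, map_zero]
    | add P Q _ _ hP hQ => rw [map_add, mul_add, map_add, hP, hQ, add_zero]
    | smul a P _ hP =>
      rw [smul_eq_mul, map_mul (aeval ψ.A), mul_left_comm, map_mul q, hP, mul_zero]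
  have h2 := h1 _ h0
  have hu : ∀ r, q (ψ.uv ψ.A r) = q (Polynomial.C ψ.D * Polynomial.C (X r)) := by
    intro r
    have h3 := (hq _).2 (h.inu r)
    rw [map_sub, sub_eq_zero, Polynomial.C_mul] at h3
    rw [← h3]
    rfl
  have hy : q (ψ.yv ψ.A) = q (Polynomial.C ψ.D * Polynomial.X) := by
    have h3 := (hq _).2 h.iny
    rw [map_sub, sub_eq_zero] at h3
    rw [← h3]
    rfl
  have h3 : q (aeval ψ.A (ψ.cp S)) = q (Polynomial.C ψ.D ^ e * S) := by
    have h4 : pe (Polynomial.C ψ.D • fun r => Polynomial.C (X r : MvPolynomial (Fin (d + 1)) κ))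
        (Polynomial.C ψ.D * Polynomial.X) S = Polynomial.C ψ.D ^ e * S := by
      rw [pe_smul hh hn, ngU_self]
    have h5 : (fun r => q (ψ.uv ψ.A r)) = fun r =>
        q ((Polynomial.C ψ.D • fun r => Polynomial.C (X r : MvPolynomial (Fin (d + 1)) κ)) r) :=
      funext hu
    rw [cp_aeval, ← h4]
    refine (pe_hom q _ _ S).trans (Eq.trans ?_ (pe_hom q _ _ S).symm)
    rw [h5, hy]
  rw [map_mul, h3, ← map_mul, ← Polynomial.C_pow, ← mul_assoc, ← Polynomial.C_mul, hq] at h2
  have hne : ψ.D ^ s * ψ.D ^ e ≠ 0 := mul_ne_zero (pow_ne_zero _ hD) (pow_ne_zero _ hD)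
  by_contra hS0
  refine h.mon.not_dvd_of_degree_lt ?_ ?_ h2
  · exact mul_ne_zero (Polynomial.C_ne_zero.2 hne) hS0
  · rw [Polynomial.degree_C_mul hne]
    exact hS

private theorem ngU_hom {ψ : Prj κ N d} (h : ψ.Ok f) (hD : ψ.D ≠ 0) {e : ℕ}
    {S : Polynomial (MvPolynomial (Fin (d + 1)) κ)} (hS : S.degree < ψ.G.degree)
    (hh : ∀ j, (S.coeff j).IsHomogeneous (e - j)) (hn : S.natDegree ≤ e)
    (h0 : ψ.cp S ∈ Ideal.span (Set.range f)) : S = 0 :=
  ngU_q (Q := Polynomial (MvPolynomial (Fin (d + 1)) κ) ⧸ Ideal.span {ψ.G}) (ψ := ψ)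
    (Ideal.Quotient.mkₐ κ (Ideal.span {ψ.G})) (fun P => by
    change Ideal.Quotient.mk (Ideal.span {ψ.G}) P = 0 ↔ _
    rw [Ideal.Quotient.eq_zero_iff_mem, Ideal.mem_span_singleton]) h hD hS hh hn h0

/-- Proof: the components of `ψ.cp T` are in the homogeneous ideal (`cl_compR`; `cl (ψ.u) (ψ.y) = ψ.cp`), the component of degree `e` belongs to `T_e = ∑ (component of degree e - j of the coefficient j) Y ^ j`, which has the same bound for the degree; so it is enough to treat `T` with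
`T.coeff j` homogeneous of degree `e - j` (`0` for `j > e`). Write `ψ.cp T = ∑ h_i f_i` and substitute `x = ψ.A`: `(∑ ..)`: `T (u (A), y (A)) D ^ s` is a multiple of `G` (`h.inX`); modulo `G`: `u (A) = D c`, `y (A) = D Y` (`h.inu`, `h.iny`), so `T (D c, D Y) = D ^ e T (c, Y)`:
`G ∣ D ^ (s + e) T`. `G` is monic and `deg T < deg G`, so `D ^ (s + e) T = 0`. -/
theorem ok_van (hom : ∀ i, ∃ e, (f i).IsHomogeneous e) {ψ : Prj κ N d} (h : ψ.Ok f)
    (hD : ψ.D ≠ 0) {T : Polynomial (MvPolynomial (Fin (d + 1)) κ)} (hT : T.degree < ψ.G.degree)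
    (h0 : ψ.cp T ∈ Ideal.span (Set.range f)) : T = 0 := by
  have key : ∀ e, ∑ j ∈ Finset.range (e + 1),
      Polynomial.C (homogeneousComponent (e - j) (T.coeff j)) * Polynomial.X ^ j = 0 := by
    intro e
    have hG : ψ.G.degree = ψ.G.natDegree := Polynomial.degree_eq_natDegree h.mon.ne_zero
    refine ngU_hom h hD (e := e) ?_ (fun j => ?_) ?_ ?_
    · rw [hG, Polynomial.degree_lt_iff_coeff_zero] at hT ⊢
      intro m hm
      rw [ngU_coeff, hT m hm, map_zero, ite_self]
    · rw [ngU_coeff]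
      split_ifs with hj
      · exact homogeneousComponent_isHomogeneous _ _
      · exact isHomogeneous_zero _ _ _
    · rw [Polynomial.natDegree_le_iff_coeff_eq_zero]
      intro k hk
      rw [ngU_coeff, if_neg (not_le.2 hk)]
    · have h1 := ngU_comp hom h0 e
      have h2 : homogeneousComponent e (ψ.cp T) = ψ.cp (∑ j ∈ Finset.range (e + 1),
          Polynomial.C (homogeneousComponent (e - j) (T.coeff j)) * Polynomial.X ^ j) :=
        cl_compR ψ.u ψ.y T e
      rw [← h2]
      exact h1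
  refine Polynomial.ext fun j => ?_
  rw [Polynomial.coeff_zero, ← sum_homogeneousComponent (T.coeff j)]
  refine Finset.sum_eq_zero fun k _ => ?_
  have h1 := congrArg (fun P : Polynomial (MvPolynomial (Fin (d + 1)) κ) => P.coeff j) (key (k + j))
  rwa [ngU_coeff, if_pos (Nat.le_add_left j k), Nat.add_sub_cancel, Polynomial.coeff_zero] at h1

end GX
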