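import Pool.Agent.Lib.MP_f80667_ag.Ng.U
import Pool.Agent.Lib.MP_f80667_ag.Ng.Ub

/-! A general point of the projective space: all points over it are good for all projections. -/

open MvPolynomial

namespace GX

variable {κ : Type} [Field κ] {N d m : ℕ} {ι : Type} {f : ι → MvPolynomial (Fin N) κ}

private theorem ngUc_ev {y : Fin N → κ} (hy : Zp f y) {p : MvPolynomial (Fin N) κ}
    (h : p ∈ Ideal.span (Set.range f)) : aeval y p = 0 := by
  have h1 : Ideal.span (Set.range f) ≤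
      RingHom.ker (aeval y : MvPolynomial (Fin N) κ →ₐ[κ] κ).toRingHom := by
    rw [Ideal.span_le]
    rintro _ ⟨i, rfl⟩
    exact hy.2 i
  exact h1 h

/-- The value of the product of the `cp (C D)` at a multiple of a point. -/
private theorem ngUc_prod {S : Type} [CommRing S] [Algebra κ S] {ψ : Fin m → Prj κ N d}
    {e : Fin m → ℕ} (he : ∀ i, (ψ i).D.IsHomogeneous (e i)) (t : S) (x : Fin N → S) :
    aeval (t • x) (∏ i, (ψ i).cp (Polynomial.C (ψ i).D)) =
      ∏ i, (t ^ e i * aeval ((ψ i).uv x) (ψ i).D) := by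
  rw [map_prod]
  refine Finset.prod_congr rfl fun i _ => ?_
  rw [cp_aeval, pe_C, uv_smul, aeval_smul_hom (he i)]

/-- **A general point.** Proof: `P = ∏ (ψ i').cp (C (ψ i').D)` is not in `(f)` (prime, `hD`: `cp (C D)` at `y` is `D (u (y))`); `Q = aeval (ψ i).A P ∈ κ[c][Y]`, `G = (ψ i).G`. `res_ne`: let `deg T < deg G`, `G ∣ T Q`; then `(ψ i).cp (T Q) ∈ (f)` up to powers of `X k` (`h.onG`; some `X k ∉ (f)` because of a
point `y`), so in `(f)`; `(ψ i).cp Q = P ((ψ i).cp A_j) = P (D x_j)` modulo `(f)` (`h.onA`) `= ∏ ..` = a power of `D (u (x))` times the factors (`P` is homogeneous: `homD`), not in `(f)`; so `(ψ i).cp T ∈ (f)` and `T = 0` by `ok_van`. Hence `a Q + b G = C n`, `n ≠ 0`; choose `c` with `n (c) D (c) ≠ 0` (`κ` is infinite; `exists_pt` or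
`MvPolynomial.funext`). For a root `w`: `Q (c, w) ≠ 0`, `Q (c, w) = P (A (c, w))`, `A (c, w) = D (c) pt (c, w)`, and the factors of `P` are homogeneous. -/
theorem gen_red [IsAlgClosed κ] (hom : ∀ i, ∃ e, (f i).IsHomogeneous e)
    (hp : (Ideal.span (Set.range f)).IsPrime) {ψ : Fin m → Prj κ N d} (hok : ∀ i, (ψ i).Ok f)
    (hD : ∀ i, ∃ y : Fin N → κ, Zp f y ∧ eval ((ψ i).uv y) (ψ i).D ≠ 0) (i : Fin m) :
    ∃ c : Fin (d + 1) → κ, eval c (ψ i).D ≠ 0 ∧ ∀ w : κ, pe c w (ψ i).G = 0 →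
      ∀ i', eval ((ψ i').uv ((ψ i).pt c w)) (ψ i').D ≠ 0 := by
  classical
  have hinf : Infinite κ := IsAlgClosed.instInfinite
  have hdom : IsDomain (MvPolynomial (Fin N) κ ⧸ Ideal.span (Set.range f)) :=
    Ideal.Quotient.isDomain _
  choose e he0 he using fun i' => (hok i').homD
  -- the generic point
  obtain ⟨x, hx⟩ : ∃ x : Fin N → MvPolynomial (Fin N) κ ⧸ Ideal.span (Set.range f),
    x = fun j => Ideal.Quotient.mk _ (X j) := ⟨_, rfl⟩
  have hae : ∀ p : MvPolynomial (Fin N) κ, aeval x p = Ideal.Quotient.mk _ p := by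
    intro p
    have h := DFunLike.congr_fun (MvPolynomial.aeval_unique
      (Ideal.Quotient.mkₐ κ (Ideal.span (Set.range f)))) p
    rw [hx]
    exact h.symm
  have hmem : ∀ p : MvPolynomial (Fin N) κ, aeval x p = 0 ↔ p ∈ Ideal.span (Set.range f) := by
    intro p
    rw [hae, Ideal.Quotient.eq_zero_iff_mem]
  have hne : ∀ i', aeval ((ψ i').uv x) (ψ i').D ≠ 0 := by
    intro i' h0
    obtain ⟨y, hy, h1⟩ := hD i'
    have h2 : aeval x ((ψ i').cp (Polynomial.C (ψ i').D)) = 0 := by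
      rw [cp_aeval, pe_C]
      exact h0
    have h3 := ngUc_ev hy ((hmem _).1 h2)
    rw [cp_aeval, pe_C] at h3
    exact h1 h3
  obtain ⟨y0, hy0, hDy0⟩ := hD i
  have hD0 : (ψ i).D ≠ 0 := by
    intro h0
    rw [h0, map_zero] at hDy0
    exact hDy0 rfl
  obtain ⟨k, hk⟩ : ∃ k, x k ≠ 0 := by
    obtain ⟨k, hk⟩ : ∃ k, y0 k ≠ 0 := by
      by_contra hcon
      push Not at hcon
      exact hy0.1 (funext hcon)
    refine ⟨k, fun h0 => hk ?_⟩
    have h1 : aeval x (X k : MvPolynomial (Fin N) κ) = 0 := by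
      rw [aeval_X]
      exact h0
    have h2 := ngUc_ev hy0 ((hmem _).1 h1)
    rw [aeval_X] at h2
    exact h2
  obtain ⟨δ, hδ⟩ : ∃ δ, δ = aeval ((ψ i).uv x) (ψ i).D := ⟨_, rfl⟩
  have hδ0 : δ ≠ 0 := by
    rw [hδ]
    exact hne i
  have hG0 : pe ((ψ i).uv x) ((ψ i).yv x) (ψ i).G = 0 := by
    obtain ⟨s, h⟩ := (hok i).onG
    have h1 := (hmem _).2 (h k)
    rw [map_mul, map_pow, aeval_X, cp_aeval] at h1
    exact (mul_eq_zero.1 h1).resolve_left (pow_ne_zero s hk)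
  have hA : ∀ j, pe ((ψ i).uv x) ((ψ i).yv x) ((ψ i).A j) = δ * x j := by
    intro j
    obtain ⟨s, h⟩ := (hok i).onA
    have h1 := (hmem _).2 (h k j)
    rw [map_mul, map_pow, aeval_X, map_sub, map_mul, aeval_X, cp_aeval, cp_aeval, pe_C,
      ← hδ] at h1
    exact sub_eq_zero.1 ((mul_eq_zero.1 h1).resolve_left (pow_ne_zero s hk))
  obtain ⟨P, hP⟩ : ∃ P, P = ∏ i', (ψ i').cp (Polynomial.C (ψ i').D) := ⟨_, rfl⟩
  have hQ0 : pe ((ψ i).uv x) ((ψ i).yv x) (aeval (ψ i).A P) ≠ 0 := by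
    have h1 : (fun j => pe ((ψ i).uv x) ((ψ i).yv x) ((ψ i).A j)) = δ • x := by
      funext j
      rw [hA j]
      rfl
    rw [pe_aeval, h1, hP, ngUc_prod he]
    exact Finset.prod_ne_zero_iff.2 fun i' _ => mul_ne_zero (pow_ne_zero _ hδ0) (hne i')
  have hcl : ∀ T : Polynomial (MvPolynomial (Fin (d + 1)) κ), T.degree < (ψ i).G.degree →
      (ψ i).G ∣ T * aeval (ψ i).A P → T = 0 := by
    rintro T hT ⟨E, hE⟩
    refine ok_van hom (hok i) hD0 hT ?_
    have h1 := congrArg (pe ((ψ i).uv x) ((ψ i).yv x)) hE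
    rw [map_mul, map_mul, hG0, zero_mul] at h1
    have h2 := (mul_eq_zero.1 h1).resolve_right hQ0
    rw [← cp_aeval] at h2
    exact (hmem _).1 h2
  obtain ⟨n, a, b, hn, hab⟩ := res_ne (hok i).mon hcl
  obtain ⟨c, hc⟩ : ∃ c : Fin (d + 1) → κ, eval c (n * (ψ i).D) ≠ 0 := by
    by_contra hcon
    push Not at hcon
    exact mul_ne_zero hn hD0 (MvPolynomial.funext fun c => by rw [hcon c, map_zero])
  rw [map_mul] at hc
  have hcn : eval c n ≠ 0 := left_ne_zero_of_mul hc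
  have hcD : eval c (ψ i).D ≠ 0 := right_ne_zero_of_mul hc
  refine ⟨c, hcD, fun w hw i' => ?_⟩
  have h1 := congrArg (pe c w) hab
  rw [map_add, map_mul, map_mul, hw, mul_zero, add_zero, pe_C] at h1
  have h2 : pe c w (aeval (ψ i).A P) ≠ 0 := by
    intro h0
    rw [h0, mul_zero] at h1
    exact hcn h1.symm
  have h3 : (fun j => pe c w ((ψ i).A j)) = eval c (ψ i).D • (ψ i).pt c w := by
    funext j
    change pe c w ((ψ i).A j) = eval c (ψ i).D * (pe c w ((ψ i).A j) / eval c (ψ i).D)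
    field_simp
  rw [pe_aeval, h3, hP, ngUc_prod he] at h2
  exact right_ne_zero_of_mul (Finset.prod_ne_zero_iff.1 h2 i' (Finset.mem_univ i'))

end GX
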