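import Pool.Agent.Lib.MP_f80667_ag.Ng.X
import Pool.Agent.Lib.MP_f80667_ag.Gx.VF

/-! The cycles with reduction `0` over the completions of number fields (good reduction). -/

open ZC BE PE CV IsDedekindDomain NumberField

namespace GX

/-- **The local theorem** for the completions of number fields. -/
theorem nf_gdv {F₀ : Type} [Field F₀] [NumberField F₀] {v : HeightOneSpectrum (𝓞 F₀)}
    {F : Type} [Field F] [Algebra F (FK F₀ v)] {N d : ℕ} {ι : Type}
    {f : ι → MvPolynomial (Fin N) F} {V : ValuationSubring (AlgebraicClosure (FK F₀ v))}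
    (hV : V.comap (algebraMap (FK F₀ v) _) = CV.Iv v) (h : Gdv V f d) {p : ℕ} (hp : p.Prime)
    (hpv : (p : AlgebraicClosure (FK F₀ v)) ∈ V.nonunits) (h2 : 2 < p) :
    (∀ n : ℕ, n ≠ 0 → ∃ b, Cbk f V (FK F₀ v) n b) ∧
      ∀ {N' k' k : ℕ} {ι' : Type} {A : Gv F N' k' ι'} {M : Mf f A k}, A.Ok → M.Ok →
        Gav V A → Gmv V M → M.Alb (AlgebraicClosure (FK F₀ v)) → Ctv V M (FK F₀ v) p := by
  have hch : CharZero (FK F₀ v) :=
    charZero_of_injective_algebraMap (algebraMap F₀ (FK F₀ v)).injective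
  obtain ⟨L, hL⟩ := exists_ldI v
  have h1 : V.comap (algebraMap (FK F₀ v) _) = Ok L := by
    rw [hV]
    exact SetLike.ext fun x => (hL x).symm
  obtain rfl := GM.v_uniq L V h1
  have h3 : L.p = p := by
    by_contra hne
    have h4 : L.nm (p : AlgebraicClosure (FK F₀ v)) = 1 := L.nat_unit fun h5 =>
      hne ((Nat.prime_dvd_prime_iff_eq L.pp hp).1 h5)
    exact absurd (GM.non_iff.1 hpv) (by rw [h4]; exact lt_irrefl _)
  subst h3
  have hD : PL.DnK L := PL.dn_fk hL
  exact ⟨fun n hn => h.cbk hD h2 hn, fun hA hM hG hGm hAl => h.ctv hD h2 hA hM hG hGm hAl⟩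

end GX
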